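import Mathlib

/-!
# Laurent polynomials modulo a prime
-/

namespace Pool.Agent.Helper1.PK

open LaurentPolynomial

section Units

variable {R : Type*} [CommRing R]

/-- The unit `T m`. -/
noncomputable def tU (R : Type*) [CommRing R] (m : ℤ) : (R[T;T⁻¹])ˣ where
  val := T m
  inv := T (-m)
  val_inv := by rw [← T_add, add_neg_cancel, T_zero]
  inv_val := by rw [← T_add, neg_add_cancel, T_zero]

@[simp] theorem tU_val (m : ℤ) : ((tU R m : (R[T;T⁻¹])ˣ) : R[T;T⁻¹]) = T m := rfl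

theorem tU_inv (m : ℤ) : (tU R m)⁻¹ = tU R (-m) := by
  apply Units.ext
  rfl

theorem tU_zpow (m k : ℤ) : (tU R m) ^ k = tU R (m * k) := by
  apply Units.ext
  induction k using Int.induction_on with
  | zero => simp
  | succ i ih =>
    rw [zpow_add, zpow_one, Units.val_mul, ih, tU_val, tU_val, tU_val, ← T_add]
    congr 1
    ring
  | pred i ih =>
    rw [zpow_sub, zpow_one, Units.val_mul, ih, tU_inv, tU_val, tU_val, tU_val, ← T_add]
    congr 1
    ring

theorem tU_zpow_val (m k : ℤ) : (((tU R m) ^ k : (R[T;T⁻¹])ˣ) : R[T;T⁻¹]) = T (m * k) := by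
  rw [tU_zpow, tU_val]

theorem T_inj [Nontrivial R] {m k : ℤ} (h : (T m : R[T;T⁻¹]) = T k) : m = k := by
  have h1 := congrArg (fun f : R[T;T⁻¹] => f.coeff m) h
  simp only [T_apply, if_true] at h1
  by_contra hne
  rw [if_neg (fun h2 => hne h2.symm)] at h1
  exact one_ne_zero h1

end Units

/-- Evaluation of a Laurent polynomial at a unit. -/
noncomputable def evU {B : Type*} [CommRing B] (a : Bˣ) : B[T;T⁻¹] →+* B :=
  eval₂ (RingHom.id B) a

theorem evU_T {B : Type*} [CommRing B] (a : Bˣ) (k : ℤ) : evU a (T k) = ((a ^ k : Bˣ) : B) := by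
  simp [evU]

theorem evU_C {B : Type*} [CommRing B] (a : Bˣ) (b : B) : evU a (C b) = b := by
  simp [evU]

theorem evU_toLaurent {B : Type*} [CommRing B] (a : Bˣ) (f : Polynomial B) :
    evU a (Polynomial.toLaurent f) = f.eval (a : B) := by
  rw [evU, eval₂_toLaurent, Polynomial.eval₂_id]

/-- A Laurent polynomial with two distinct roots `a`, `b` takes at `1` a value divisible by
`(1 - a) (1 - b)`. -/
theorem two_roots {B : Type*} [CommRing B] [IsDomain B] (L : B[T;T⁻¹]) (a b : Bˣ)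
    (hab : (a : B) ≠ b) (ha : evU a L = 0) (hb : evU b L = 0) :
    (1 - (a : B)) * (1 - b) ∣ evU 1 L := by
  obtain ⟨m, f, hf⟩ := exists_T_pow L
  have key : ∀ u : Bˣ, f.eval (u : B) = evU u L * ((u ^ (m : ℤ) : Bˣ) : B) := by
    intro u
    rw [← evU_toLaurent, hf, map_mul, evU_T]
  have h1 : f.eval (a : B) = 0 := by rw [key, ha, zero_mul]
  have h2 : f.eval (b : B) = 0 := by rw [key, hb, zero_mul]
  obtain ⟨g, hg⟩ := Polynomial.dvd_iff_isRoot.mpr h1
  have h3 : g.eval (b : B) = 0 := by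
    rw [hg, Polynomial.eval_mul] at h2
    rcases mul_eq_zero.mp h2 with h | h
    · exfalso
      simp only [Polynomial.eval_sub, Polynomial.eval_X, Polynomial.eval_C] at h
      exact hab (sub_eq_zero.mp h).symm
    · exact h
  obtain ⟨g', hg'⟩ := Polynomial.dvd_iff_isRoot.mpr h3
  have h4 := key 1
  simp only [one_zpow, Units.val_one, mul_one] at h4
  rw [← h4, hg, hg']
  refine ⟨g'.eval 1, ?_⟩
  simp only [Polynomial.eval_mul, Polynomial.eval_sub, Polynomial.eval_X, Polynomial.eval_C]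
  ring

section Mult

variable {p : ℕ} [Fact p.Prime]

instance charPLaurent : CharP (ZMod p)[T;T⁻¹] p := by
  refine charP_of_injective_ringHom (f := (C : ZMod p →+* (ZMod p)[T;T⁻¹])) ?_ p
  intro a b h
  have := congrArg (evU 1) h
  rwa [evU_C, evU_C] at this

theorem geom_T (m : ℕ) : (T (m : ℤ) - 1 : (ZMod p)[T;T⁻¹]) =
    (T 1 - 1) * ∑ i ∈ Finset.range m, T (i : ℤ) := by
  have h := mul_geom_sum (T 1 : (ZMod p)[T;T⁻¹]) m
  rw [T_pow, mul_one] at h
  rw [← h]
  congr 1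
  refine Finset.sum_congr rfl fun i _ => ?_
  rw [T_pow, mul_one]

/-- The multiplicity of the root `1` of `T m - 1`. -/
theorem mult_one {m : ℤ} (hm : m ≠ 0) : ∃ (v : ℕ) (U : (ZMod p)[T;T⁻¹]),
    (p ^ v : ℤ) ∣ m ∧ ¬ ((p ^ (v + 1) : ℤ) ∣ m) ∧ T m - 1 = (T 1 - 1) ^ p ^ v * U ∧
      evU 1 U ≠ 0 := by
  have hp : p.Prime := Fact.out
  -- positive case
  have pos : ∀ k : ℕ, k ≠ 0 → ∃ (v : ℕ) (U : (ZMod p)[T;T⁻¹]),
      (p ^ v : ℤ) ∣ (k : ℤ) ∧ ¬ ((p ^ (v + 1) : ℤ) ∣ (k : ℤ)) ∧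
        T (k : ℤ) - 1 = (T 1 - 1) ^ p ^ v * U ∧ evU 1 U ≠ 0 := by
    intro k hk
    obtain ⟨v, k', hk', rfl⟩ := Nat.exists_eq_pow_mul_and_not_dvd hk p hp.ne_one
    refine ⟨v, (∑ i ∈ Finset.range k', T (i : ℤ)) ^ p ^ v, ?_, ?_, ?_, ?_⟩
    · push_cast
      exact Dvd.intro _ rfl
    · intro h
      have h2 : (p ^ v * p : ℕ) ∣ p ^ v * k' := by
        have h3 : ((p ^ v * p : ℕ) : ℤ) ∣ ((p ^ v * k' : ℕ) : ℤ) := by
          rw [pow_succ] at h
          push_cast at h ⊢
          exact h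
        exact_mod_cast h3
      exact hk' (Nat.dvd_of_mul_dvd_mul_left (pow_pos hp.pos v) h2)
    · rw [← mul_pow, ← geom_T, sub_pow_char_pow, T_pow, one_pow]
      push_cast
      rfl
    · rw [map_pow, map_sum]
      apply pow_ne_zero
      simp only [evU_T, one_zpow, Units.val_one, Finset.sum_const, Finset.card_range,
        nsmul_eq_mul, mul_one]
      intro h
      exact hk' ((ZMod.natCast_eq_zero_iff _ _).mp h)
  obtain ⟨k, hk | hk⟩ := Int.eq_nat_or_neg m
  · subst hk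
    exact pos k (by exact_mod_cast hm)
  · subst hk
    have hk0 : k ≠ 0 := by
      rintro rfl
      simp at hm
    obtain ⟨v, U, h1, h2, h3, h4⟩ := pos k hk0
    refine ⟨v, -T (-(k : ℤ)) * U, (dvd_neg).mpr h1, fun h => h2 ((dvd_neg).mp h), ?_, ?_⟩
    · have h5 : (T (-(k : ℤ)) - 1 : (ZMod p)[T;T⁻¹]) = -T (-(k : ℤ)) * (T (k : ℤ) - 1) := by
        have h6 : (T (-(k : ℤ)) * T (k : ℤ) : (ZMod p)[T;T⁻¹]) = 1 := by
          rw [← T_add]
          simp
        rw [mul_sub, neg_mul, h6]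
        ring
      rw [h5, h3]
      ring
    · rw [map_mul, map_neg, evU_T]
      simp only [one_zpow, Units.val_one]
      intro h
      apply h4
      simpa using h

end Mult

end Pool.Agent.Helper1.PK
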