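import Pool.Agent.Helper1.PK.Parity

/-!
# Local conditions, and the alternating orientation of a state
-/

namespace Pool.Agent.Helper1.PK

open Equiv Equiv.Perm Function

variable {N n : ℕ}

/-- The local condition at a slab. -/
def Cmp (a : Fin n) (k : Join) (o : Pt N n → ℤˣ) (t : ZMod N) : Prop :=
  ∀ e, flow o t (partner a k e) = -flow o t e

/-- The strands away from the letter go up. -/
def Out (a : Fin n) (o : Pt N n → ℤˣ) (t : ZMod N) : Prop :=
  ∀ j, ¬ At a j → o (t + 1, j) = o (t, j)

theorem neg_inj_iff {u v : ℤˣ} : -u = -v ↔ u = v := neg_inj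

theorem cmp_straight {a : Fin n} {o : Pt N n → ℤˣ} {t : ZMod N} :
    Cmp a .straight o t ↔ Out a o t ∧ o (t + 1, a.castSucc) = o (t, a.castSucc) ∧
      o (t + 1, a.succ) = o (t, a.succ) := by
  constructor
  · intro h
    have h' : ∀ j, o (t + 1, j) = o (t, j) := by
      intro j
      have := h (false, j)
      simpa [partner, flow, point] using this
    exact ⟨fun j _ => h' j, h' _, h' _⟩
  · rintro ⟨h1, h2, h3⟩
    have h' : ∀ j, o (t + 1, j) = o (t, j) := by
      intro j
      by_cases hj : At a j
      · rcases hj with rfl | rfl
        · exact h2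
        · exact h3
      · exact h1 j hj
    rintro ⟨b, j⟩
    cases b <;> simp [partner, flow, point, h']

theorem cmp_swap {a : Fin n} {o : Pt N n → ℤˣ} {t : ZMod N} :
    Cmp a .swap o t ↔ Out a o t ∧ o (t + 1, a.succ) = o (t, a.castSucc) ∧
      o (t + 1, a.castSucc) = o (t, a.succ) := by
  constructor
  · intro h
    have h' : ∀ j, o (t + 1, Equiv.swap a.castSucc a.succ j) = o (t, j) := by
      intro j
      have := h (false, j)
      simpa [partner, flow, point] using this
    refine ⟨fun j hj => ?_, ?_, ?_⟩
    · have := h' j
      rwa [swap_not_at hj] at this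
    · simpa using h' a.castSucc
    · simpa using h' a.succ
  · rintro ⟨h1, h2, h3⟩
    have h' : ∀ j, o (t + 1, Equiv.swap a.castSucc a.succ j) = o (t, j) := by
      intro j
      by_cases hj : At a j
      · rcases hj with rfl | rfl
        · simpa using h2
        · simpa using h3
      · rw [swap_not_at hj]
        exact h1 j hj
    rintro ⟨b, j⟩
    cases b
    · simp [partner, flow, point, h']
    · have := h' (Equiv.swap a.castSucc a.succ j)
      simp only [Equiv.swap_apply_self] at this
      simp [partner, flow, point, this]

theorem cmp_turn {a : Fin n} {o : Pt N n → ℤˣ} {t : ZMod N} :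
    Cmp a .turn o t ↔ Out a o t ∧ o (t, a.succ) = -o (t, a.castSucc) ∧
      o (t + 1, a.succ) = -o (t + 1, a.castSucc) := by
  constructor
  · intro h
    refine ⟨fun j hj => ?_, ?_, ?_⟩
    · have := h (false, j)
      rw [partner_not_at hj] at this
      simpa [flow, point] using this
    · have := h (false, a.castSucc)
      simpa [partner, flow, point] using this
    · have := h (true, a.castSucc)
      have h' : -o (t + 1, a.succ) = o (t + 1, a.castSucc) := by
        simpa [partner, flow, point] using this
      rw [← h']
      simp
  · rintro ⟨h1, h2, h3⟩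
    rintro ⟨b, j⟩
    by_cases hj : At a j
    · rcases hj with rfl | rfl
      · cases b
        · simp [partner, flow, point, h2]
        · simp [partner, flow, point, h3]
      · cases b
        · simp [partner, flow, point, h2]
        · simp [partner, flow, point, h3]
    · rw [partner_not_at (e := (b, j)) hj]
      cases b
      · simp [flow, point, h1 j hj]
      · simp [flow, point, h1 j hj]

/-- The alternating signs: even strands up, odd strands down. -/
def alt (x : Pt N n) : ℤˣ := (-1) ^ (x.2 : ℕ)

theorem alt_succ (t t' : ZMod N) (a : Fin n) :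
    alt (N := N) (t, a.succ) = -alt (N := N) (t', a.castSucc) := by
  simp [alt, pow_succ]

theorem cmp_alt {a : Fin n} {k : Join} (hk : k ≠ .swap) (t : ZMod N) : Cmp a k alt t := by
  cases k
  · rw [cmp_straight]
    exact ⟨fun j _ => rfl, rfl, rfl⟩
  · exact absurd rfl hk
  · rw [cmp_turn]
    exact ⟨fun j _ => rfl, alt_succ t t a, alt_succ _ _ a⟩

theorem compat_alt (w : ZMod N → Letter n) {c : ZMod N → Join} (hc : ∀ t, c t ≠ .swap) :
    Compat w c alt := fun t => cmp_alt (hc t) t

theorem curves_straight [NeZero N] (w : ZMod N → Letter n) :
    curves w (fun _ => .straight) = n + 1 := by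
  unfold curves
  have h : Function.Bijective (Quot.lift (fun x : Pt N n => x.2) (by
      rintro x y ⟨t, e, rfl, rfl⟩
      rfl) : Quot (Joined w (fun _ => .straight)) → Fin (n + 1)) := by
    constructor
    · intro p q
      induction p using Quot.inductionOn with
      | h x =>
        induction q using Quot.inductionOn with
        | h y =>
          obtain ⟨s, i⟩ := x
          obtain ⟨t, j⟩ := y
          intro hij
          have hij' : i = j := hij
          subst hij'
          have key : ∀ k : ℕ, (Quot.mk _ ((k : ZMod N), i) :
              Quot (Joined w (fun _ => .straight))) = Quot.mk _ (0, i) := by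
            intro k
            induction k with
            | zero => simp
            | succ k ih =>
              rw [← ih]
              symm
              apply Quot.sound
              exact ⟨(k : ZMod N), (false, i), by simp [point], by simp [point, partner]⟩
          have hs := key s.val
          have ht := key t.val
          rw [ZMod.natCast_zmod_val] at hs ht
          rw [hs, ht]
    · intro j
      exact ⟨Quot.mk _ (0, j), rfl⟩
  rw [Nat.card_congr (Equiv.ofBijective _ h)]
  simp

/-- The parity of the number of curves of a state. -/
theorem curves_state [NeZero N] (w : ZMod N → Letter n) {c : ZMod N → Join}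
    (hc : ∀ t, c t ≠ .swap) :
    (-1 : ℤˣ) ^ curves w c =
      (-1) ^ (n + 1) * (-1) ^ (Finset.univ.filter fun t => c t = .turn).card := by
  have h0 : Compat w (fun _ => Join.straight) alt := compat_alt w (fun _ => by decide)
  rw [curves_parity h0 (compat_alt w hc), curves_straight]
  congr 3
  ext t
  have := hc t
  simp only [Finset.mem_filter, Finset.mem_univ, true_and]
  cases h : c t
  · simp
  · exact absurd h this
  · simp

theorem card_crossings [NeZero N] (w : ZMod N → Letter n) (o : Pt N n → ℤˣ)
    (ho : IsOrientation w o) (hK : IsKnot w) :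
    (-1 : ℤˣ) ^ ((Finset.univ.filter fun t => (w t).kind ≠ .turn ∧
      o (t, (w t).place.castSucc) = o (t, (w t).place.succ)).card +
      (Finset.univ.filter fun t => (w t).kind = .turn).card) = (-1) ^ n := by
  classical
  -- the oriented smoothing
  let c : ZMod N → Join := fun t => if (w t).kind ≠ .turn ∧
    o (t, (w t).place.castSucc) = o (t, (w t).place.succ) then .straight else .turn
  have hc : ∀ t, c t ≠ .swap := by
    intro t
    simp only [c]
    split_ifs <;> decide
  have hco : Compat w c o := by
    intro t
    have h := ho t
    change Cmp (w t).place (w t).kind.join o t at h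
    show Cmp (w t).place (c t) o t
    simp only [c]
    cases hk : (w t).kind
    · simp only [hk, Kind.join] at h
      rw [cmp_swap] at h
      obtain ⟨h1, h2, h3⟩ := h
      split_ifs with hh
      · rw [cmp_straight]
        exact ⟨h1, by rw [h3, ← hh.2], by rw [h2, hh.2]⟩
      · rw [cmp_turn]
        have hne : o (t, (w t).place.castSucc) ≠ o (t, (w t).place.succ) := by
          intro h
          exact hh ⟨by decide, h⟩
        have : o (t, (w t).place.succ) = -o (t, (w t).place.castSucc) := by
          rcases unit_cases (o (t, (w t).place.castSucc)) with h4 | h4 <;>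
            rcases unit_cases (o (t, (w t).place.succ)) with h5 | h5 <;>
              rw [h4, h5] at hne ⊢ <;> simp at hne ⊢
        exact ⟨h1, this, by rw [h2, h3, this]; simp⟩
    · simp only [hk, Kind.join] at h
      rw [cmp_swap] at h
      obtain ⟨h1, h2, h3⟩ := h
      split_ifs with hh
      · rw [cmp_straight]
        exact ⟨h1, by rw [h3, ← hh.2], by rw [h2, hh.2]⟩
      · rw [cmp_turn]
        have hne : o (t, (w t).place.castSucc) ≠ o (t, (w t).place.succ) := by
          intro h
          exact hh ⟨by decide, h⟩
        have : o (t, (w t).place.succ) = -o (t, (w t).place.castSucc) := by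
          rcases unit_cases (o (t, (w t).place.castSucc)) with h4 | h4 <;>
            rcases unit_cases (o (t, (w t).place.succ)) with h5 | h5 <;>
              rw [h4, h5] at hne ⊢ <;> simp at hne ⊢
        exact ⟨h1, this, by rw [h2, h3, this]; simp⟩
    · simp only [hk, Kind.join] at h
      simpa using h
  have h1 := curves_parity ho hco
  have h2 := curves_state w hc
  have h3 : curves w (fun t => (w t).kind.join) = 1 := hK
  rw [h3, h2] at h1
  have h4 : (Finset.univ.filter fun t => (w t).kind.join ≠ c t) =
      Finset.univ.filter fun t => (w t).kind ≠ .turn := by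
    ext t
    simp only [Finset.mem_filter, Finset.mem_univ, true_and, c]
    cases hk : (w t).kind
    · simp only [Kind.join]
      split_ifs <;> simp
    · simp only [Kind.join]
      split_ifs <;> simp
    · simp [Kind.join]
  have h5 : (Finset.univ.filter fun t => c t = .turn) =
      Finset.univ.filter fun t => ¬ ((w t).kind ≠ .turn ∧
        o (t, (w t).place.castSucc) = o (t, (w t).place.succ)) := by
    ext t
    simp only [Finset.mem_filter, Finset.mem_univ, true_and, c]
    split_ifs with h
    · simp [h]
    · simp [h]
  rw [h4, h5] at h1
  have h6 := Finset.card_filter_add_card_filter_not (s := (Finset.univ : Finset (ZMod N)))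
    (fun t => (w t).kind ≠ .turn ∧ o (t, (w t).place.castSucc) = o (t, (w t).place.succ))
  have h7 := Finset.card_filter_add_card_filter_not (s := (Finset.univ : Finset (ZMod N)))
    (fun t => (w t).kind = .turn)
  simp only [ne_eq] at h1 h6 ⊢
  generalize (Finset.univ.filter fun t => ¬(w t).kind = .turn ∧
      o (t, (w t).place.castSucc) = o (t, (w t).place.succ)).card = P at *
  generalize (Finset.univ.filter fun t => (w t).kind = .turn).card = E at *
  generalize (Finset.univ.filter fun t => ¬(w t).kind = .turn).card = C at *
  generalize (Finset.univ.filter fun t => ¬(¬(w t).kind = .turn ∧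
      o (t, (w t).place.castSucc) = o (t, (w t).place.succ))).card = P' at *
  -- `(-1)^(n+1) (-1)^P' = (-1)^1 (-1)^C`, `P + P' = N`, `E + C = N`
  have h8 : (-1 : ℤˣ) ^ (P + E) * ((-1) ^ (P' + C)) = 1 := by
    rw [← pow_add]
    have : P + E + (P' + C) = 2 * (Finset.univ : Finset (ZMod N)).card := by omega
    rw [this, pow_mul]
    simp
  have h9 : (-1 : ℤˣ) ^ (P' + C) = (-1) ^ n := by
    rw [pow_add]
    rw [pow_succ] at h1
    have h10 : ((-1 : ℤˣ) ^ n) * (-1) ^ P' = (-1) ^ C := by
      have := congrArg (fun u => -u) h1
      simpa using this
    rw [← h10, ← mul_assoc, mul_comm ((-1 : ℤˣ) ^ P'), mul_assoc, ← pow_add, ← two_mul, pow_mul]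
    simp
  rw [h9] at h8
  have h11 : (-1 : ℤˣ) ^ n * (-1) ^ n = 1 := by
    rw [← pow_add, ← two_mul, pow_mul]
    simp
  exact mul_right_cancel (h8.trans h11.symm)

end Pool.Agent.Helper1.PK
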