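import Pool.Agent.Helper1.PK.Algebra

/-!
# From the divisibility to the congruence for the winding number
-/

namespace Pool.Agent.Helper1.PK

open LaurentPolynomial

variable {p : ℕ} [Fact p.Prime]

theorem T_one_ne : (T 1 - 1 : (ZMod p)[T;T⁻¹]) ≠ 0 := by
  intro h
  have h1 : (T 1 : (ZMod p)[T;T⁻¹]) = T 0 := by
    rw [T_zero]
    exact sub_eq_zero.mp h
  exact one_ne_zero (T_inj h1)

/-- Comparing the multiplicities of the root `1`. -/
theorem mult_le {s a b : ℤ} (ha : a ≠ 0) (hb : b ≠ 0) (hs : s ≠ 0)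
    (h : (T s - 1 : (ZMod p)[T;T⁻¹]) ^ 2 ∣ (T a - 1) * (T b - 1)) :
    ∃ u v₁ v₂ : ℕ, ((p ^ u : ℤ) ∣ s ∧ ¬ ((p ^ (u + 1) : ℤ) ∣ s)) ∧
      ((p ^ v₁ : ℤ) ∣ a ∧ ¬ ((p ^ (v₁ + 1) : ℤ) ∣ a)) ∧
      ((p ^ v₂ : ℤ) ∣ b ∧ ¬ ((p ^ (v₂ + 1) : ℤ) ∣ b)) ∧ 2 * p ^ u ≤ p ^ v₁ + p ^ v₂ := by
  obtain ⟨u, W, h1, h1', h2, h3⟩ := mult_one (p := p) hs
  obtain ⟨v₁, U₁, h4, h4', h5, h6⟩ := mult_one (p := p) ha
  obtain ⟨v₂, U₂, h7, h7', h8, h9⟩ := mult_one (p := p) hb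
  refine ⟨u, v₁, v₂, ⟨h1, h1'⟩, ⟨h4, h4'⟩, ⟨h7, h7'⟩, ?_⟩
  by_contra hlt
  push Not at hlt
  rw [h2, h5, h8] at h
  obtain ⟨Z, hZ⟩ := h
  obtain ⟨d, hd⟩ := Nat.exists_eq_add_of_lt hlt
  have h10 : (T 1 - 1 : (ZMod p)[T;T⁻¹]) ^ (p ^ v₁ + p ^ v₂) * (U₁ * U₂) =
      (T 1 - 1) ^ (p ^ v₁ + p ^ v₂) * ((T 1 - 1) ^ (d + 1) * (W ^ 2 * Z)) := by
    have h11 : (T 1 - 1 : (ZMod p)[T;T⁻¹]) ^ (p ^ v₁ + p ^ v₂) * ((T 1 - 1) ^ (d + 1)) =
        (T 1 - 1) ^ (2 * p ^ u) := by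
      rw [← pow_add, hd]
      congr 1
    calc (T 1 - 1 : (ZMod p)[T;T⁻¹]) ^ (p ^ v₁ + p ^ v₂) * (U₁ * U₂)
        = (T 1 - 1) ^ p ^ v₁ * U₁ * ((T 1 - 1) ^ p ^ v₂ * U₂) := by rw [pow_add]; ring
      _ = ((T 1 - 1) ^ p ^ u * W) ^ 2 * Z := hZ
      _ = (T 1 - 1) ^ (2 * p ^ u) * (W ^ 2 * Z) := by rw [two_mul, pow_add]; ring
      _ = _ := by rw [← h11]; ring
  have h11 := mul_left_cancel₀ (pow_ne_zero _ T_one_ne) h10
  have h12 := congrArg (evU 1) h11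
  rw [map_mul, map_mul, map_pow, map_sub, evU_T, map_one] at h12
  simp only [one_zpow, Units.val_one, sub_self] at h12
  rw [zero_pow (Nat.succ_ne_zero d), zero_mul] at h12
  exact (mul_ne_zero h6 h9) h12

/-- `T (2 l) + T (-2 l) - T 2 - T (-2)` factors. -/
theorem factor (l : ℤ) : (T (2 * l) + T (-(2 * l)) - T 2 - T (-2) : (ZMod p)[T;T⁻¹]) =
    T (-(2 * l)) * ((T (2 * l - 2) - 1) * (T (2 * l + 2) - 1)) := by
  have e1 : (T (-(2 * l)) * (T (2 * l - 2) * T (2 * l + 2)) : (ZMod p)[T;T⁻¹]) = T (2 * l) := by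
    rw [← T_add, ← T_add]
    congr 1
    ring
  have e2 : (T (-(2 * l)) * T (2 * l - 2) : (ZMod p)[T;T⁻¹]) = T (-2) := by
    rw [← T_add]
    congr 1
    ring
  have e3 : (T (-(2 * l)) * T (2 * l + 2) : (ZMod p)[T;T⁻¹]) = T 2 := by
    rw [← T_add]
    congr 1
    ring
  calc (T (2 * l) + T (-(2 * l)) - T 2 - T (-2) : (ZMod p)[T;T⁻¹])
      = T (-(2 * l)) * (T (2 * l - 2) * T (2 * l + 2)) + T (-(2 * l)) -
        T (-(2 * l)) * T (2 * l + 2) - T (-(2 * l)) * T (2 * l - 2) := by rw [e1, e2, e3]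
    _ = _ := by ring

theorem sq_factor (s : ℤ) : ((T s - 1) ^ 2 : (ZMod p)[T;T⁻¹]) =
    (1 - T s) * (1 - T (-s)) * (-T s) := by
  have e1 : (T (-s) * T s : (ZMod p)[T;T⁻¹]) = 1 := by
    rw [← T_add]
    simp
  calc ((T s - 1) ^ 2 : (ZMod p)[T;T⁻¹]) = (1 - T s) * (1 - T s) := by ring
    _ = (1 - T s) * (T (-s) * T s - T s) := by rw [e1]
    _ = _ := by ring

theorem signs_eq {ε κ : ℤˣ} (h : (2 * ((ε : ℤ) + κ) : ZMod p) = 0) :
    (((ε : ℤ) : ZMod p)) = -((κ : ℤ) : ZMod p) := by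
  have hp : p.Prime := Fact.out
  by_cases h2 : p = 2
  · subst h2
    rw [eq_neg_iff_add_eq_zero, ← Int.cast_add]
    apply (ZMod.intCast_zmod_eq_zero_iff_dvd _ 2).mpr
    rcases Int.units_eq_one_or ε with h3 | h3 <;> rcases Int.units_eq_one_or κ with h4 | h4 <;>
      rw [h3, h4] <;> decide
  · have h3 : (2 : ZMod p) ≠ 0 := by
      intro h4
      have h5 : ((2 : ℕ) : ZMod p) = 0 := by exact_mod_cast h4
      have h6 := (ZMod.natCast_eq_zero_iff 2 p).mp h5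
      exact h2 ((Nat.prime_dvd_prime_iff_eq hp Nat.prime_two).mp h6)
    rcases mul_eq_zero.mp h with h4 | h4
    · exact absurd h4 h3
    · exact eq_neg_of_add_eq_zero_left h4

/-- From the divisibility to the congruence. -/
theorem final_arith {k : ℕ} (hk : 1 ≤ k) {l : ℤ} (hl : Odd l) (ε κ : ℤˣ)
    (h : (1 - T (4 * p ^ k)) * (1 - T (-(4 * p ^ k))) ∣
      (((ε : ℤ) : (ZMod p)[T;T⁻¹]) * (T (2 * l) + T (-(2 * l))) +
        ((κ : ℤ) : (ZMod p)[T;T⁻¹]) * (T 2 + T (-2)))) :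
    (2 * p ^ (k + 1) : ℤ) ∣ l - 1 ∨ (2 * p ^ (k + 1) : ℤ) ∣ l + 1 := by
  have hp : p.Prime := Fact.out
  -- the signs
  have h1 : (2 * ((ε : ℤ) + κ) : ZMod p) = 0 := by
    obtain ⟨Z, hZ⟩ := h
    have h2 := congrArg (evU 1) hZ
    simp only [map_mul, map_add, map_sub, map_one, evU_T, map_intCast, one_zpow, Units.val_one,
      sub_self, zero_mul] at h2
    rw [← h2]
    ring
  have h2 := signs_eq h1
  have h3 : (((ε : ℤ) : (ZMod p)[T;T⁻¹])) = -((κ : ℤ) : (ZMod p)[T;T⁻¹]) := by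
    have := congrArg (C : ZMod p →+* (ZMod p)[T;T⁻¹]) h2
    rwa [map_neg, map_intCast, map_intCast] at this
  have h4 : (((κ : ℤ) : (ZMod p)[T;T⁻¹])) * ((κ : ℤ) : (ZMod p)[T;T⁻¹]) = 1 := by
    rw [← Int.cast_mul, ← Units.val_mul, Int.units_mul_self]
    simp
  -- the divisibility
  have h5 : (T (4 * p ^ k) - 1 : (ZMod p)[T;T⁻¹]) ^ 2 ∣ (T (2 * l - 2) - 1) * (T (2 * l + 2) - 1) := by
    rw [sq_factor]
    obtain ⟨Z, hZ⟩ := h
    have h6 : (((ε : ℤ) : (ZMod p)[T;T⁻¹]) * (T (2 * l) + T (-(2 * l))) +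
        ((κ : ℤ) : (ZMod p)[T;T⁻¹]) * (T 2 + T (-2))) =
        -((κ : ℤ) : (ZMod p)[T;T⁻¹]) * (T (2 * l) + T (-(2 * l)) - T 2 - T (-2)) := by
      rw [h3]
      ring
    rw [h6, factor] at hZ
    have e1 : (T (2 * l) * T (-(2 * l)) : (ZMod p)[T;T⁻¹]) = 1 := by
      rw [← T_add]
      simp
    have e2 : (T (-(4 * p ^ k)) * T (4 * p ^ k) : (ZMod p)[T;T⁻¹]) = 1 := by
      rw [← T_add]
      simp
    refine ⟨T (2 * l) * ((κ : ℤ) : (ZMod p)[T;T⁻¹]) * T (-(4 * p ^ k)) * Z, ?_⟩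
    calc (T (2 * l - 2) - 1) * (T (2 * l + 2) - 1)
        = (T (2 * l) * T (-(2 * l))) * (((κ : ℤ) : (ZMod p)[T;T⁻¹]) *
          ((κ : ℤ) : (ZMod p)[T;T⁻¹])) * ((T (2 * l - 2) - 1) * (T (2 * l + 2) - 1)) := by
          rw [e1, h4]; ring
      _ = T (2 * l) * -((κ : ℤ) : (ZMod p)[T;T⁻¹]) * (-((κ : ℤ) : (ZMod p)[T;T⁻¹]) *
          (T (-(2 * l)) * ((T (2 * l - 2) - 1) * (T (2 * l + 2) - 1)))) := by ring
      _ = T (2 * l) * -((κ : ℤ) : (ZMod p)[T;T⁻¹]) *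
          ((1 - T (4 * p ^ k)) * (1 - T (-(4 * p ^ k))) * Z) * (T (-(4 * p ^ k)) * T (4 * p ^ k)) := by
          rw [hZ, e2, mul_one]
      _ = _ := by ring
  by_cases ha : 2 * l - 2 = 0
  · left
    have : l - 1 = 0 := by omega
    rw [this]
    exact dvd_zero _
  by_cases hb : 2 * l + 2 = 0
  · right
    have : l + 1 = 0 := by omega
    rw [this]
    exact dvd_zero _
  have hs : (4 * (p : ℤ) ^ k) ≠ 0 := by
    have : (p : ℤ) ≠ 0 := by exact_mod_cast hp.ne_zero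
    positivity
  obtain ⟨u, v₁, v₂, ⟨hu, hu'⟩, ⟨hv₁, hv₁'⟩, ⟨hv₂, hv₂'⟩, hle⟩ := mult_le ha hb hs h5
  obtain ⟨l', hl'⟩ := hl
  by_cases h2p : p = 2
  · -- the prime 2
    subst h2p
    have huk : u = k + 2 := by
      have h7 : (4 * (2 : ℤ) ^ k) = 2 ^ (k + 2) := by ring
      push_cast at hu hu'
      rw [h7] at hu hu'
      have h8 : u ≤ k + 2 := by
        by_contra hc
        have h9 : k + 2 < u := not_le.mp hc
        have h10 := Int.le_of_dvd (by positivity) hu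
        have h11 : (2 : ℤ) ^ (k + 2) < 2 ^ u := pow_lt_pow_right₀ (by norm_num) h9
        omega
      have h9 : k + 2 ≤ u := by
        by_contra hc
        exact hu' (pow_dvd_pow 2 (by omega))
      omega
    subst huk
    push_cast at hv₁ hv₂ hv₁' hv₂'
    have h12 : v₁ = 2 ∨ v₂ = 2 := by
      -- one of `2l-2`, `2l+2` is `4` modulo `8`
      have h13 : (2 * l - 2) % 8 = 4 ∨ (2 * l + 2) % 8 = 4 := by omega
      have h4a : (2 : ℤ) ^ 2 ∣ 2 * l - 2 := by norm_num; omega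
      have h4b : (2 : ℤ) ^ 2 ∣ 2 * l + 2 := by norm_num; omega
      rcases h13 with h13 | h13
      · left
        have h8 : v₁ < 3 := by
          by_contra hc
          have h14 : (2 : ℤ) ^ 3 ∣ 2 * l - 2 := (pow_dvd_pow 2 (by omega)).trans hv₁
          norm_num at h14
          omega
        have h9 : 2 ≤ v₁ := by
          by_contra hc
          exact hv₁' ((pow_dvd_pow 2 (by omega)).trans h4a)
        omega
      · right
        have h8 : v₂ < 3 := by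
          by_contra hc
          have h14 : (2 : ℤ) ^ 3 ∣ 2 * l + 2 := (pow_dvd_pow 2 (by omega)).trans hv₂
          norm_num at h14
          omega
        have h9 : 2 ≤ v₂ := by
          by_contra hc
          exact hv₂' ((pow_dvd_pow 2 (by omega)).trans h4b)
        omega
    have hk8 : (8 : ℕ) ≤ 2 ^ (k + 2) := by
      calc (8 : ℕ) = 2 ^ 3 := by norm_num
        _ ≤ 2 ^ (k + 2) := Nat.pow_le_pow_right (by norm_num) (by omega)
    have big : ∀ v : ℕ, 2 * 2 ^ (k + 2) ≤ 2 ^ v + 4 → k + 3 ≤ v := by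
      intro v hv
      by_contra hc
      have h14 : (2 : ℕ) ^ v ≤ 2 ^ (k + 2) := Nat.pow_le_pow_right (by norm_num) (by omega)
      omega
    rcases h12 with h12 | h12
    · right
      subst h12
      have h13 := big v₂ (by omega)
      have h14 : (2 : ℤ) ^ (k + 3) ∣ 2 * l + 2 := (pow_dvd_pow 2 h13).trans hv₂
      have h15 : (2 : ℤ) ^ (k + 3) = 2 * (2 * 2 ^ (k + 1)) := by ring
      rw [h15, show 2 * l + 2 = 2 * (l + 1) by ring] at h14
      exact_mod_cast Int.dvd_of_mul_dvd_mul_left (by norm_num) h14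
    · left
      subst h12
      have h13 := big v₁ (by omega)
      have h14 : (2 : ℤ) ^ (k + 3) ∣ 2 * l - 2 := (pow_dvd_pow 2 h13).trans hv₁
      have h15 : (2 : ℤ) ^ (k + 3) = 2 * (2 * 2 ^ (k + 1)) := by ring
      rw [h15, show 2 * l - 2 = 2 * (l - 1) by ring] at h14
      exact_mod_cast Int.dvd_of_mul_dvd_mul_left (by norm_num) h14
  · -- odd primes
    have hp3 : 3 ≤ p := by
      have := hp.two_le
      omega
    have hpo : Odd p := hp.odd_of_ne_two h2p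
    have hcop : IsCoprime (2 : ℤ) (p : ℤ) := by
      rw [Int.isCoprime_iff_gcd_eq_one]
      have : Nat.Coprime 2 p := (Nat.coprime_primes Nat.prime_two hp).mpr (Ne.symm h2p)
      exact this
    have hcop2 : ∀ v : ℕ, IsCoprime (2 : ℤ) ((p : ℤ) ^ v) := fun v => hcop.pow_right
    have huk : k ≤ u := by
      by_contra hc
      apply hu'
      exact (pow_dvd_pow (p : ℤ) (by omega)).trans (Dvd.intro_left _ rfl)
    have hpu : p ^ k ≤ p ^ u := Nat.pow_le_pow_right hp.pos huk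
    have hpk : 3 ≤ p ^ k := by
      calc 3 ≤ p := hp3
        _ = p ^ 1 := (pow_one p).symm
        _ ≤ p ^ k := Nat.pow_le_pow_right hp.pos hk
    have h12 : v₁ = 0 ∨ v₂ = 0 := by
      by_contra hc
      push Not at hc
      have h13 : (p : ℤ) ∣ 2 * l - 2 :=
        (dvd_pow_self (p : ℤ) hc.1).trans hv₁
      have h14 : (p : ℤ) ∣ 2 * l + 2 :=
        (dvd_pow_self (p : ℤ) hc.2).trans hv₂
      have h15 : (p : ℤ) ∣ 4 := by
        have := dvd_sub h14 h13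
        have h16 : 2 * l + 2 - (2 * l - 2) = 4 := by ring
        rwa [h16] at this
      have h16 : (p : ℤ) ∣ 2 := by
        have h17 : (4 : ℤ) = 2 * 2 := by norm_num
        rw [h17] at h15
        exact hcop.symm.dvd_of_dvd_mul_left h15
      have h17 : p ∣ 2 := by exact_mod_cast h16
      exact h2p ((Nat.prime_dvd_prime_iff_eq hp Nat.prime_two).mp h17)
    have big : ∀ v : ℕ, 2 * p ^ u ≤ p ^ v + 1 → k + 1 ≤ v := by
      intro v hv
      by_contra hc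
      have h14 : p ^ v ≤ p ^ k := Nat.pow_le_pow_right hp.pos (by omega)
      omega
    have fin : ∀ x : ℤ, Even x → ((p : ℤ) ^ (k + 1) ∣ 2 * x) → (2 * (p : ℤ) ^ (k + 1)) ∣ x := by
      intro x hx hd
      have h18 : (p : ℤ) ^ (k + 1) ∣ x := (hcop2 _).symm.dvd_of_dvd_mul_left hd
      exact (hcop2 _).mul_dvd hx.two_dvd h18
    rcases h12 with h12 | h12
    · right
      subst h12
      rw [pow_zero, add_comm] at hle
      have h13 := big v₂ hle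
      have h14 : (p : ℤ) ^ (k + 1) ∣ 2 * l + 2 := (pow_dvd_pow _ h13).trans hv₂
      rw [show 2 * l + 2 = 2 * (l + 1) by ring] at h14
      exact fin (l + 1) ⟨l' + 1, by omega⟩ h14
    · left
      subst h12
      rw [pow_zero] at hle
      have h13 := big v₁ hle
      have h14 : (p : ℤ) ^ (k + 1) ∣ 2 * l - 2 := (pow_dvd_pow _ h13).trans hv₁
      rw [show 2 * l - 2 = 2 * (l - 1) by ring] at h14
      exact fin (l - 1) ⟨l', by omega⟩ h14

end Pool.Agent.Helper1.PK
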