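import Pool.Agent.Helper1.PK.Wind

/-!
# Lifting states to the cyclic cover
-/

namespace Pool.Agent.Helper1.PK

open Equiv Equiv.Perm Function

variable {N M n : ℕ}

/-! ### The moving slab -/

section Slab

variable {w : ZMod N → Letter n} {c : ZMod N → Join} {o : Pt N n → ℤˣ}

theorem bwd_tau (hc : Compat w c o) (x : Pt N n) : bwd o (tau hc x) = adj w c (fwd o x) := by
  have h1 : fl o (adj w c (fwd o x)) = -1 := by rw [fl_adj hc, fl_fwd]
  exact bwd_pt h1

theorem slab_tau (hc : Compat w c o) (x : Pt N n) :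
    (bwd o (tau hc x)).1 = (bwd o x).1 + ((o x : ℤ) : ZMod N) := by
  rw [bwd_tau]
  show (fwd o x).1 = _
  rcases unit_cases (o x) with h | h
  · simp [fwd, bwd, h]
  · simp [fwd, bwd, h, sub_eq_add_neg]

theorem slab_iterate (hc : Compat w c o) (x : Pt N n) (i : ℕ) :
    (bwd o ((tau hc)^[i] x)).1 =
      (bwd o x).1 + ((∑ k ∈ Finset.range i, (o ((tau hc)^[k] x) : ℤ) : ℤ) : ZMod N) := by
  induction i with
  | zero => simp
  | succ i ih =>
    rw [Function.iterate_succ_apply', slab_tau, ih, Finset.sum_range_succ]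
    push_cast
    ring

end Slab

/-! ### Fibres of the reduction -/

section Fibre

variable [NeZero N] [NeZero M]

theorem fibre_card (h : N ∣ M) {r : ℕ} (hr : M = r * N) (t : ZMod N) :
    (Finset.univ.filter fun s : ZMod M => ZMod.castHom h (ZMod N) s = t).card = r := by
  classical
  have hsurj : Function.Surjective (ZMod.castHom h (ZMod N)) := ZMod.castHom_surjective h
  have heq : ∀ t : ZMod N,
      (Finset.univ.filter fun s : ZMod M => ZMod.castHom h (ZMod N) s = t).card =
      (Finset.univ.filter fun s : ZMod M => ZMod.castHom h (ZMod N) s = 0).card := by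
    intro t
    exact AddMonoidHom.card_fiber_eq_of_mem_range (ZMod.castHom h (ZMod N)).toAddMonoidHom
      (hsurj t) (hsurj 0)
  have htot : ∑ t : ZMod N,
      (Finset.univ.filter fun s : ZMod M => ZMod.castHom h (ZMod N) s = t).card = M := by
    rw [← Finset.card_eq_sum_card_fiberwise (fun _ _ => Finset.mem_univ _)]
    simp [ZMod.card]
  rw [Finset.sum_congr rfl fun t _ => heq t, Finset.sum_const, Finset.card_univ, ZMod.card,
    smul_eq_mul] at htot
  rw [heq t]
  have hN : 0 < N := Nat.pos_of_ne_zero (NeZero.ne N)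
  have : N * (Finset.univ.filter fun s : ZMod M => ZMod.castHom h (ZMod N) s = 0).card =
      N * r := by rw [htot, hr, mul_comm]
  exact Nat.eq_of_mul_eq_mul_left hN this

theorem sum_pull {β : Type*} [AddCommMonoid β] (h : N ∣ M) {r : ℕ} (hr : M = r * N)
    (f : ZMod N → β) : ∑ s : ZMod M, f (ZMod.castHom h (ZMod N) s) = r • ∑ t, f t := by
  classical
  rw [Finset.sum_comp f (ZMod.castHom h (ZMod N)), Finset.smul_sum]
  have himg : (Finset.univ : Finset (ZMod M)).image (ZMod.castHom h (ZMod N)) = Finset.univ := by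
    ext t
    simp only [Finset.mem_image, Finset.mem_univ, true_and, iff_true]
    exact ZMod.castHom_surjective h t
  rw [himg]
  exact Finset.sum_congr rfl fun t _ => by rw [fibre_card h hr]

theorem prod_pull {β : Type*} [CommMonoid β] (h : N ∣ M) {r : ℕ} (hr : M = r * N)
    (f : ZMod N → β) : ∏ s : ZMod M, f (ZMod.castHom h (ZMod N) s) = (∏ t, f t) ^ r := by
  classical
  rw [Finset.prod_comp f (ZMod.castHom h (ZMod N)), ← Finset.prod_pow]
  have himg : (Finset.univ : Finset (ZMod M)).image (ZMod.castHom h (ZMod N)) = Finset.univ := by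
    ext t
    simp only [Finset.mem_image, Finset.mem_univ, true_and, iff_true]
    exact ZMod.castHom_surjective h t
  rw [himg]
  exact Finset.prod_congr rfl fun t _ => by rw [fibre_card h hr]

end Fibre

/-! ### The projection -/

/-- The projection of the points. -/
def prj (h : N ∣ M) (x : Pt M n) : Pt N n := (ZMod.castHom h (ZMod N) x.1, x.2)

/-- The pulled back word. -/
def pullW (h : N ∣ M) (w : ZMod N → Letter n) : ZMod M → Letter n :=
  fun t => w (ZMod.castHom h (ZMod N) t)

/-- The pulled back joins. -/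
def pullC (h : N ∣ M) (c : ZMod N → Join) : ZMod M → Join :=
  fun t => c (ZMod.castHom h (ZMod N) t)

/-- The pulled back signs. -/
def pullO (h : N ∣ M) (o : Pt N n → ℤˣ) : Pt M n → ℤˣ := fun x => o (prj h x)

theorem prj_point (h : N ∣ M) (t : ZMod M) (e : End n) :
    prj h (point t e) = point (ZMod.castHom h (ZMod N) t) e := by
  obtain ⟨b, j⟩ := e
  cases b
  · rfl
  · refine Prod.ext ?_ rfl
    show ZMod.castHom h (ZMod N) (t + 1) = ZMod.castHom h (ZMod N) t + 1
    rw [map_add, map_one]

theorem flow_pull (h : N ∣ M) (o : Pt N n → ℤˣ) (t : ZMod M) (e : End n) :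
    flow (pullO h o) t e = flow o (ZMod.castHom h (ZMod N) t) e := by
  simp only [flow, pullO, prj_point]

theorem compat_pull (h : N ∣ M) {w : ZMod N → Letter n} {c : ZMod N → Join} {o : Pt N n → ℤˣ}
    (hc : Compat w c o) : Compat (pullW h w) (pullC h c) (pullO h o) := by
  intro t e
  rw [flow_pull, flow_pull]
  exact hc _ e

theorem prj_fwd (h : N ∣ M) (o : Pt N n → ℤˣ) (x : Pt M n) :
    (ZMod.castHom h (ZMod N) (fwd (pullO h o) x).1, (fwd (pullO h o) x).2) = fwd o (prj h x) := by
  unfold fwd
  have : pullO h o x = o (prj h x) := rfl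
  rw [this]
  rcases unit_cases (o (prj h x)) with h1 | h1
  · simp only [h1, if_true]
    rfl
  · rw [h1, if_neg (by decide), if_neg (by decide)]
    simp only [map_sub, map_one]
    rfl

theorem prj_tau (h : N ∣ M) {w : ZMod N → Letter n} {c : ZMod N → Join} {o : Pt N n → ℤˣ}
    (hc : Compat w c o) (x : Pt M n) :
    prj h (tau (compat_pull h hc) x) = tau hc (prj h x) := by
  rw [tau_apply, tau_apply]
  unfold pt adj
  simp only
  rw [prj_point]
  have := prj_fwd h o x
  rw [← this]
  rfl

theorem prj_iterate (h : N ∣ M) {w : ZMod N → Letter n} {c : ZMod N → Join} {o : Pt N n → ℤˣ}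
    (hc : Compat w c o) (x : Pt M n) (i : ℕ) :
    prj h ((tau (compat_pull h hc))^[i] x) = (tau hc)^[i] (prj h x) := by
  induction i with
  | zero => rfl
  | succ i ih => rw [Function.iterate_succ_apply', Function.iterate_succ_apply', prj_tau, ih]

/-- A point of the cover is determined by its projection and its slab. -/
theorem eq_of_prj (h : N ∣ M) {o : Pt N n → ℤˣ} {x y : Pt M n} (h1 : prj h x = prj h y)
    (h2 : (bwd (pullO h o) x).1 = (bwd (pullO h o) y).1) : x = y := by
  have ho : pullO h o x = pullO h o y := by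
    unfold pullO
    rw [h1]
  have h3 : x.2 = y.2 := by
    have := congrArg Prod.snd h1
    exact this
  have h4 : x.1 = y.1 := by
    unfold bwd at h2
    rw [ho] at h2
    rcases unit_cases (pullO h o y) with h5 | h5
    · simpa [h5] using h2
    · simpa [h5] using h2
  exact Prod.ext h4 h3

theorem iterate_eq_iff (h : N ∣ M) {w : ZMod N → Letter n} {c : ZMod N → Join}
    {o : Pt N n → ℤˣ} (hc : Compat w c o) (x : Pt M n) (i : ℕ) :
    (tau (compat_pull h hc))^[i] x = x ↔ (tau hc)^[i] (prj h x) = prj h x ∧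
      (M : ℤ) ∣ ∑ k ∈ Finset.range i, (o ((tau hc)^[k] (prj h x)) : ℤ) := by
  have hs := slab_iterate (compat_pull h hc) x i
  have hsum : ∑ k ∈ Finset.range i, (pullO h o ((tau (compat_pull h hc))^[k] x) : ℤ) =
      ∑ k ∈ Finset.range i, (o ((tau hc)^[k] (prj h x)) : ℤ) := by
    refine Finset.sum_congr rfl fun k _ => ?_
    exact congrArg (fun z => ((o z : ℤˣ) : ℤ)) (prj_iterate h hc x k)
  rw [hsum] at hs
  rw [← ZMod.intCast_zmod_eq_zero_iff_dvd]
  constructor
  · intro hi
    refine ⟨?_, ?_⟩
    · rw [← prj_iterate h hc, hi]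
    · rw [hi] at hs
      exact (left_eq_add.mp hs)
  · rintro ⟨h1, h2⟩
    rw [h2, add_zero] at hs
    apply eq_of_prj h _ hs
    rw [prj_iterate h hc, h1]

/-! ### Periods and winding numbers -/

section Period

variable [NeZero N] {w : ZMod N → Letter n} {c : ZMod N → Join}

theorem sum_period (hc : ∀ t, c t ≠ .swap) (y : Pt N n) :
    ∑ k ∈ Finset.range (minimalPeriod (tau (compat_alt w hc)) y),
      ((alt ((tau (compat_alt w hc))^[k] y) : ℤˣ) : ℤ) = N * wind (cls w c y) := by
  classical
  rw [← sum_orbit (tau (compat_alt w hc)) y (fun x => ((alt x : ℤˣ) : ℤ))]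
  have h1 : ∀ x : Pt N n, (tau (compat_alt w hc)).SameCycle y x ↔ cls w c x = cls w c y := by
    intro x
    rw [← cls_iff (compat_alt w hc)]
    exact eq_comm
  rw [Finset.sum_filter]
  have h2 : ∀ x : Pt N n, (if (tau (compat_alt w hc)).SameCycle y x then ((alt x : ℤˣ) : ℤ) else 0) =
      tm (cls w c y) x.1 x.2 := by
    intro x
    unfold tm
    by_cases h : cls w c x = cls w c y
    · rw [if_pos ((h1 x).mpr h), if_pos h]
      simp [alt]
    · rw [if_neg (fun h' => h ((h1 x).mp h')), if_neg h]
  rw [Finset.sum_congr rfl fun x _ => h2 x, Fintype.sum_prod_type]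
  simp only
  rw [Finset.sum_congr rfl fun t _ => wind_level hc (cls w c y) t]
  simp [ZMod.card]

theorem sum_mul_period (hc : ∀ t, c t ≠ .swap) (y : Pt N n) (s : ℕ) :
    ∑ k ∈ Finset.range (minimalPeriod (tau (compat_alt w hc)) y * s),
      ((alt ((tau (compat_alt w hc))^[k] y) : ℤˣ) : ℤ) = s * (N * wind (cls w c y)) := by
  induction s with
  | zero => simp
  | succ s ih =>
    rw [mul_add, mul_one, Finset.sum_range_add, ih]
    have h1 : ∀ k, (tau (compat_alt w hc))^[minimalPeriod (tau (compat_alt w hc)) y * s + k] y =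
        (tau (compat_alt w hc))^[k] y := by
      intro k
      rw [add_comm, Function.iterate_add_apply]
      congr 1
      rw [mul_comm]
      exact (isPeriodicPt_minimalPeriod _ _).const_mul s
    rw [Finset.sum_congr rfl fun k _ => by rw [h1 k], sum_period hc]
    push_cast
    ring

theorem period_pull [NeZero M] (h : N ∣ M) {r : ℕ} (hr : M = r * N) (hc : ∀ t, c t ≠ .swap)
    (x : Pt M n) :
    minimalPeriod (tau (compat_pull h (compat_alt w hc))) x =
      minimalPeriod (tau (compat_alt w hc)) (prj h x) *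
        (if wind (cls w c (prj h x)) = 0 then 1 else r) := by
  apply Nat.dvd_right_iff_eq.mp
  intro i
  rw [← isPeriodicPt_iff_minimalPeriod_dvd]
  have h1 : IsPeriodicPt (tau (compat_pull h (compat_alt w hc))) i x ↔ _ :=
    iterate_eq_iff h (compat_alt w hc) x i
  rw [h1]
  have hN : (N : ℤ) ≠ 0 := by exact_mod_cast NeZero.ne N
  have h2 : (tau (compat_alt w hc))^[i] (prj h x) = prj h x ↔
      minimalPeriod (tau (compat_alt w hc)) (prj h x) ∣ i := isPeriodicPt_iff_minimalPeriod_dvd
  rw [h2]
  have hpos := pos_minimalPeriod (tau (compat_alt w hc)) (prj h x)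
  constructor
  · rintro ⟨⟨s, rfl⟩, hd⟩
    rw [sum_mul_period hc] at hd
    apply Nat.mul_dvd_mul_left
    split_ifs with hw
    · exact one_dvd _
    · have hd' : (r : ℤ) * N ∣ s * wind (cls w c (prj h x)) * N := by
        have : ((M : ℕ) : ℤ) = (r : ℤ) * N := by rw [hr]; push_cast; ring
        rw [← this]
        have h3 : (s : ℤ) * wind (cls w c (prj h x)) * N = s * (N * wind (cls w c (prj h x))) := by
          ring
        rw [h3]
        exact hd
      have hd2 := Int.dvd_of_mul_dvd_mul_right hN hd'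
      rcases wind_bound hc (cls w c (prj h x)) with h4 | h4 | h4
      · exact absurd h4 hw
      · rw [h4, mul_one] at hd2
        exact_mod_cast hd2
      · rw [h4, mul_neg, mul_one, dvd_neg] at hd2
        exact_mod_cast hd2
  · intro hd
    have h3 : minimalPeriod (tau (compat_alt w hc)) (prj h x) ∣ i := (Dvd.intro _ rfl).trans hd
    refine ⟨h3, ?_⟩
    obtain ⟨s, rfl⟩ := h3
    have hd' := Nat.dvd_of_mul_dvd_mul_left hpos hd
    rw [sum_mul_period hc]
    split_ifs at hd' with hw
    · rw [hw]
      simp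
    · obtain ⟨u, rfl⟩ := hd'
      have hM : ((M : ℕ) : ℤ) = (r : ℤ) * N := by rw [hr]; push_cast; ring
      rw [hM]
      push_cast
      exact ⟨u * wind (cls w c (prj h x)), by ring⟩

/-- The number of curves of a lifted state. -/
theorem curves_pull [NeZero M] (h : N ∣ M) {r : ℕ} (hr : M = r * N) (hc : ∀ t, c t ≠ .swap) :
    curves (pullW h w) (pullC h c) = r * ines w c + ess w c := by
  classical
  have hr0 : (r : ℚ) ≠ 0 := by
    have : r ≠ 0 := by
      rintro rfl
      exact NeZero.ne M (by simpa using hr)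
    exact_mod_cast this
  have hcM := compat_pull h (compat_alt w hc)
  have h1 : (curves (pullW h w) (pullC h c) : ℚ) = ∑ q : Quot (Joined (pullW h w) (pullC h c)), 1 := by
    unfold curves
    rw [Nat.card_eq_fintype_card]
    simp
  rw [← sum_div_period cls_surj (cls_iff hcM) (fun _ => (1 : ℚ))] at h1
  let F : Pt N n → ℚ := fun y => (1 : ℚ) / ((minimalPeriod (tau (compat_alt w hc)) y : ℚ) *
        (if wind (cls w c y) = 0 then 1 else (r : ℚ)))
  have h2 : ∀ x : Pt M n, (1 : ℚ) / (minimalPeriod (tau hcM) x : ℚ) = F (prj h x) := by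
    intro x
    have := period_pull (w := w) h hr hc x
    rw [this]
    simp only [F]
    push_cast
    split_ifs <;> rfl
  rw [Finset.sum_congr rfl fun x _ => h2 x] at h1
  have h3 : ∀ F : Pt N n → ℚ, ∑ x : Pt M n, F (prj h x) = r * ∑ y, F y := by
    intro F
    rw [Fintype.sum_prod_type, Fintype.sum_prod_type]
    have := sum_pull h hr (fun t => ∑ j, F (t, j))
    rw [nsmul_eq_mul] at this
    exact this
  rw [h3 F, Finset.mul_sum] at h1
  have h4 : ∀ y : Pt N n, (r : ℚ) * F y =
      (fun q : Quot (Joined w c) => if wind q = 0 then (r : ℚ) else 1) (cls w c y) /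
        (minimalPeriod (tau (compat_alt w hc)) y : ℚ) := by
    intro y
    have hpos := pos_minimalPeriod (tau (compat_alt w hc)) y
    have : (minimalPeriod (tau (compat_alt w hc)) y : ℚ) ≠ 0 := by positivity
    simp only [F]
    split_ifs
    · field_simp
    · field_simp
  rw [Finset.sum_congr rfl fun y _ => h4 y] at h1
  have h5 := sum_div_period (cls := cls w c) cls_surj (cls_iff (compat_alt w hc))
    (fun q => if wind q = 0 then (r : ℚ) else 1)
  rw [h5] at h1
  have h6 : ∑ q : Quot (Joined w c), (if wind q = 0 then (r : ℚ) else 1) =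
      r * ines w c + ess w c := by
    rw [← Finset.sum_filter_add_sum_filter_not Finset.univ (fun q => wind q = 0)]
    rw [Finset.sum_congr rfl (g := fun _ => (r : ℚ)) (fun q hq => if_pos (Finset.mem_filter.mp hq).2)]
    rw [Finset.sum_congr (s₁ := Finset.univ.filter fun q => ¬ wind q = 0) rfl (g := fun _ => (1 : ℚ))
      (fun q hq => if_neg (Finset.mem_filter.mp hq).2)]
    rw [Finset.sum_const, Finset.sum_const, nsmul_eq_mul, nsmul_eq_mul]
    unfold ines ess
    ring
  rw [h6] at h1
  exact_mod_cast h1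

end Period

end Pool.Agent.Helper1.PK
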