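import Mathlib

/-!
# Link diagrams in the annulus as cyclic words

A cyclic word of `N` letters on the strands `0, …, n` (`n + 1` of them).  Letter `t` sits between
level `t` and level `t + 1`; the levels are `ZMod N`, so that the last level is glued to the first
and the closed diagram lies in an annulus around the axis.
-/

namespace Pool.Agent.Helper1.PK

open LaurentPolynomial

/-- The kind of a letter: the braid generator `σ` (`pos`), its inverse (`neg`), or a turnback,
that is, a cap followed by a cup (`turn`). -/
inductive Kind
  | pos
  | neg
  | turn
  deriving DecidableEq

/-- The three ways to join, without crossings recorded, the four ends of a letter: straight up, in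
the two diagonals, or bottom with bottom and top with top. -/
inductive Join
  | straight
  | swap
  | turn
  deriving DecidableEq

instance : Fintype Join := ⟨{.straight, .swap, .turn}, fun c => by cases c <;> decide⟩

/-- A letter acts on the strands `place` and `place + 1`. -/
structure Letter (n : ℕ) where
  place : Fin n
  kind : Kind

variable {N M n : ℕ}

/-- The points of the closed diagram on the levels: level `t`, strand `j`. -/
abbrev Pt (N n : ℕ) : Type := ZMod N × Fin (n + 1)

/-- The ends of the arcs in one slab: `(false, j)` is the lower end `j`, `(true, j)` the upper
end `j`. -/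
abbrev End (n : ℕ) : Type := Bool × Fin (n + 1)

/-- The point at which an end of slab `t` lies. -/
def point (t : ZMod N) (e : End n) : Pt N n := (if e.1 then t + 1 else t, e.2)

/-- The end joined to the end `e` in a slab with the join `c` at the strands `a, a + 1`; the other
strands go straight up. -/
def partner (a : Fin n) (c : Join) (e : End n) : End n :=
  match c with
  | .straight => (!e.1, e.2)
  | .swap => (!e.1, Equiv.swap a.castSucc a.succ e.2)
  | .turn => if e.2 = a.castSucc ∨ e.2 = a.succ then (e.1, Equiv.swap a.castSucc a.succ e.2)
      else (!e.1, e.2)

/-- Two points are joined by an arc of a slab, slab `t` having the join `c t` at the place of the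
letter `w t`. -/
def Joined (w : ZMod N → Letter n) (c : ZMod N → Join) (x y : Pt N n) : Prop :=
  ∃ (t : ZMod N) (e : End n), x = point t e ∧ y = point t (partner (w t).place (c t) e)

/-- The number of closed curves made by the joins `c`. -/
noncomputable def curves (w : ZMod N → Letter n) (c : ZMod N → Join) : ℕ :=
  Nat.card (Quot (Joined w c))

/-- The join of a letter when its crossing is kept. -/
def Kind.join : Kind → Join
  | .pos => .swap
  | .neg => .swap
  | .turn => .turn

/-- The closed diagram has one component. -/
def IsKnot (w : ZMod N → Letter n) : Prop := curves w (fun t => (w t).kind.join) = 1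

/-- The weight of a join in the Kauffman bracket: `A` for the `A`-smoothing, `A⁻¹` for the
`B`-smoothing, `1` for the turnback kept, and `0` for everything that is not a smoothing of the
letter.  Here `A` is `T 1`. -/
noncomputable def weight : Kind → Join → ℤ[T;T⁻¹]
  | .pos, .straight => T 1
  | .pos, .turn => T (-1)
  | .neg, .straight => T (-1)
  | .neg, .turn => T 1
  | .turn, .turn => 1
  | _, _ => 0

/-- The Kauffman bracket of the closed diagram, with the value `1` on a simple closed curve. -/
noncomputable def bracket [NeZero N] (w : ZMod N → Letter n) : ℤ[T;T⁻¹] :=
  ∑ c : ZMod N → Join, (∏ t, weight (w t).kind (c t)) * (-T 2 - T (-2)) ^ (curves w c - 1)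

/-- A sign at each point (`1` for up, `-1` for down) read at the end `e` of slab `t`: `1` if the
strand enters the slab there, `-1` if it leaves it. -/
def flow (o : Pt N n → ℤˣ) (t : ZMod N) (e : End n) : ℤˣ :=
  if e.1 then -o (point t e) else o (point t e)

/-- The signs `o` are an orientation of the closed diagram: in each slab each strand enters at one
of its ends and leaves at the other. -/
def IsOrientation (w : ZMod N → Letter n) (o : Pt N n → ℤˣ) : Prop :=
  ∀ t e, flow o t (partner (w t).place (w t).kind.join e) = -flow o t e

/-- The sign of a kind. -/
def Kind.sgn : Kind → ℤ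
  | .pos => 1
  | .neg => -1
  | .turn => 0

/-- The writhe: the sum of the signs of the crossings.  A crossing of kind `pos` is positive when
its two strands go the same way (both up or both down). -/
def writhe [NeZero N] (w : ZMod N → Letter n) (o : Pt N n → ℤˣ) : ℤ :=
  ∑ t, (w t).kind.sgn * (o (t, (w t).place.castSucc) : ℤ) * (o (t, (w t).place.succ) : ℤ)

/-- The normalized bracket `f = (-A³)^(-writhe) ⟨D⟩`. -/
noncomputable def normalized [NeZero N] (w : ZMod N → Letter n) (o : Pt N n → ℤˣ) : ℤ[T;T⁻¹] :=
  C (((-1 : ℤˣ) ^ writhe w o : ℤˣ) : ℤ) * T (-3 * writhe w o) * bracket w

/-- The number of times the oriented closed diagram goes around the annulus: the linking number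
with the axis. -/
def winding (o : Pt N n → ℤˣ) : ℤ := ∑ j, (o (0, j) : ℤ)

end Pool.Agent.Helper1.PK
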