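import Pool.Agent.Helper1.PK.Rotation

/-!
# The state sum at `z = 1`
-/

namespace Pool.Agent.Helper1.PK

open Equiv Equiv.Perm Function

variable {N n : ℕ}

theorem prod_zpow_sum {ι H : Type*} [CommGroup H] (s : Finset ι) (a : ι → ℤ) (y : H) :
    ∏ i ∈ s, y ^ a i = y ^ ∑ i ∈ s, a i := by
  classical
  induction s using Finset.induction_on with
  | empty => simp
  | insert i s hi ih => rw [Finset.prod_insert hi, Finset.sum_insert hi, zpow_add, ih]

theorem prod_sum_swap {ι κ R : Type*} [Fintype ι] [DecidableEq ι] [Fintype κ] [CommRing R]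
    (g : ι → κ → R) : ∏ i, ∑ k, g i k = ∑ f : ι → κ, ∏ i, g i (f i) := by
  classical
  rw [Finset.prod_univ_sum, Fintype.piFinset_univ]

/-! ### Two orientations of a knot -/

theorem flow_mul (η o : Pt N n → ℤˣ) (t : ZMod N) (e : End n) :
    η (point t e) * o (point t e) = flow η t e * flow o t e := by
  unfold flow
  split_ifs <;> simp

theorem orientation_unique {w : ZMod N → Letter n} (hK : IsKnot w) {η o : Pt N n → ℤˣ}
    (hη : IsOrientation w η) (ho : IsOrientation w o) : η = o ∨ η = -o := by
  have h1 : ∀ x y, Joined w (fun t => (w t).kind.join) x y → η x * o x = η y * o y := by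
    rintro x y ⟨t, e, rfl, rfl⟩
    rw [flow_mul, flow_mul, hη t e, ho t e]
    simp
  have h2 : ∀ x y : Pt N n, η x * o x = η y * o y := by
    intro x y
    have hcard : Nat.card (Quot (Joined w (fun t => (w t).kind.join))) = 1 := hK
    have hsub := (Nat.card_eq_one_iff_unique.mp hcard).1
    have h3 : Quot.mk (Joined w (fun t => (w t).kind.join)) x = Quot.mk _ y := Subsingleton.elim _ _
    exact congrArg (Quot.lift (fun x => η x * o x) h1) h3
  rcases unit_cases (η (0, 0) * o (0, 0)) with h | h
  · left
    funext x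
    have h3 := h2 x (0, 0)
    rw [h] at h3
    have h4 : η x = (o x)⁻¹ := eq_inv_of_mul_eq_one_left h3
    rw [h4]
    simp
  · right
    funext x
    have h3 := h2 x (0, 0)
    rw [h] at h3
    show η x = -o x
    rcases unit_cases (η x) with h5 | h5 <;> rcases unit_cases (o x) with h6 | h6 <;>
      rw [h5, h6] at h3 ⊢ <;> simp at h3 ⊢

/-! ### Colourings of the points -/

/-- The colouring is constant on the arcs of slab `t`. -/
def Resp (a : Fin n) (k : Join) (F : Pt N n → ℤˣ) (t : ZMod N) : Prop :=
  ∀ e, F (point t (partner a k e)) = F (point t e)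

theorem resp_iff (w : ZMod N → Letter n) (c : ZMod N → Join) (F : Pt N n → ℤˣ) :
    (∀ x y, Joined w c x y → F x = F y) ↔ ∀ t, Resp (w t).place (c t) F t := by
  constructor
  · intro h t e
    exact (h _ _ ⟨t, e, rfl, rfl⟩).symm
  · rintro h x y ⟨t, e, rfl, rfl⟩
    exact (h t e).symm

theorem flow_mul' (F η : Pt N n → ℤˣ) (t : ZMod N) (e : End n) :
    flow (fun x => F x * η x) t e = F (point t e) * flow η t e := by
  unfold flow
  split_ifs <;> simp

theorem resp_cmp {a : Fin n} {k : Join} (hk : k ≠ .swap) (F : Pt N n → ℤˣ) (t : ZMod N) :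
    Resp a k F t ↔ Cmp a k (fun x => F x * alt x) t := by
  unfold Resp Cmp
  refine forall_congr' fun e => ?_
  rw [flow_mul', flow_mul', cmp_alt hk t e]
  constructor
  · intro h
    rw [h]
    simp
  · intro h
    have h1 : F (point t (partner a k e)) * -flow alt t e = F (point t e) * -flow alt t e := by
      rw [h]
      simp
    exact mul_right_cancel h1

open Classical in
/-- The local factor. -/
noncomputable def lam (w : ZMod N → Letter n) (η : Pt N n → ℤˣ) (t : ZMod N) : ℤ :=
  if (w t).kind = .turn then (if Cmp (w t).place .turn η t then -1 else 0)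
  else (if Cmp (w t).place .straight η t then 1 else 0) -
    (if Cmp (w t).place .turn η t then 1 else 0)

theorem two_of_three {a : Fin n} {η : Pt N n → ℤˣ} {t : ZMod N} :
    (Cmp a .swap η t → ((Cmp a .straight η t ∧ ¬ Cmp a .turn η t) ∨
      (¬ Cmp a .straight η t ∧ Cmp a .turn η t))) ∧
    (¬ Cmp a .swap η t → (Cmp a .straight η t ↔ Cmp a .turn η t)) := by
  rw [cmp_swap, cmp_straight, cmp_turn]
  by_cases hO : Out a η t
  · simp only [hO, true_and]
    rcases unit_cases (η (t, a.castSucc)) with h1 | h1 <;>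
      rcases unit_cases (η (t, a.succ)) with h2 | h2 <;>
        rcases unit_cases (η (t + 1, a.castSucc)) with h3 | h3 <;>
          rcases unit_cases (η (t + 1, a.succ)) with h4 | h4 <;>
            rw [h1, h2, h3, h4] <;> decide
  · simp [hO]

theorem lam_zero {w : ZMod N → Letter n} {η : Pt N n → ℤˣ} {t : ZMod N}
    (h : ¬ Cmp (w t).place (w t).kind.join η t) : lam w η t = 0 := by
  unfold lam
  cases hk : (w t).kind
  · simp only [hk, Kind.join] at h
    have := (two_of_three.2 h)
    by_cases hs : Cmp (w t).place .straight η t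
    · simp [hs, this.mp hs]
    · have ht : ¬ Cmp (w t).place .turn η t := fun h' => hs (this.mpr h')
      simp [hs, ht]
  · simp only [hk, Kind.join] at h
    have := (two_of_three.2 h)
    by_cases hs : Cmp (w t).place .straight η t
    · simp [hs, this.mp hs]
    · have ht : ¬ Cmp (w t).place .turn η t := fun h' => hs (this.mpr h')
      simp [hs, ht]
  · simp only [hk, Kind.join] at h
    simp [h]

theorem lam_unit {w : ZMod N → Letter n} {η : Pt N n → ℤˣ} {t : ZMod N}
    (h : Cmp (w t).place (w t).kind.join η t) : lam w η t = 1 ∨ lam w η t = -1 := by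
  unfold lam
  cases hk : (w t).kind
  · simp only [hk, Kind.join] at h
    rcases two_of_three.1 h with ⟨h1, h2⟩ | ⟨h1, h2⟩ <;> simp [h1, h2]
  · simp only [hk, Kind.join] at h
    rcases two_of_three.1 h with ⟨h1, h2⟩ | ⟨h1, h2⟩ <;> simp [h1, h2]
  · simp only [hk, Kind.join] at h
    simp [h]

theorem cmp_neg {a : Fin n} {k : Join} {η : Pt N n → ℤˣ} {t : ZMod N} :
    Cmp a k (-η) t ↔ Cmp a k η t := by
  have h : ∀ e, flow (-η) t e = -flow η t e := by
    intro e
    unfold flow
    split_ifs <;> rfl
  unfold Cmp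
  refine forall_congr' fun e => ?_
  rw [h, h, neg_inj]

theorem lam_neg {w : ZMod N → Letter n} {η : Pt N n → ℤˣ} {t : ZMod N} :
    lam w (-η) t = lam w η t := by
  have e1 : Cmp (w t).place .turn (-η) t = Cmp (w t).place .turn η t := propext cmp_neg
  have e2 : Cmp (w t).place .straight (-η) t = Cmp (w t).place .straight η t := propext cmp_neg
  unfold lam
  rw [e1, e2]

/-! ### The evaluation -/

/-- The states: the smoothings of all the crossings. -/
def Valid (w : ZMod N → Letter n) (c : ZMod N → Join) : Prop :=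
  (∀ t, c t ≠ .swap) ∧ ∀ t, (w t).kind = .turn → c t = .turn

/-- The signed indicator of a state. -/
def mu : Kind → Join → ℤ
  | .turn, .turn => -1
  | .turn, _ => 0
  | _, .straight => 1
  | _, .turn => -1
  | _, .swap => 0

theorem prod_mu_valid [NeZero N] {w : ZMod N → Letter n} {c : ZMod N → Join} (h : Valid w c) :
    ∏ t, mu (w t).kind (c t) = (-1) ^ (Finset.univ.filter fun t => c t = .turn).card := by
  rw [← Finset.prod_const, Finset.prod_filter]
  refine Finset.prod_congr rfl fun t _ => ?_
  have h1 := h.1 t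
  have h2 := h.2 t
  cases hc : c t
  · cases hk : (w t).kind
    · simp [mu]
    · simp [mu]
    · rw [hc] at h2
      exact absurd (h2 hk) (by decide)
  · exact absurd hc h1
  · cases hk : (w t).kind <;> simp [mu]

theorem prod_mu_not_valid [NeZero N] {w : ZMod N → Letter n} {c : ZMod N → Join}
    (h : ¬ Valid w c) : ∏ t, mu (w t).kind (c t) = 0 := by
  have h' : ∃ t, mu (w t).kind (c t) = 0 := by
    by_contra hne
    push Not at hne
    apply h
    constructor
    · intro t ht
      apply hne t
      rw [ht]
      cases (w t).kind <;> rfl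
    · intro t ht
      by_contra hc
      apply hne t
      rw [ht]
      cases hct : c t
      · rfl
      · rfl
      · exact absurd hct hc
  obtain ⟨t, ht⟩ := h'
  exact Finset.prod_eq_zero (Finset.mem_univ t) ht

section

variable {R : Type*} [CommRing R] (y : Rˣ)

/-- The weight of a colouring. -/
noncomputable def G (y : Rˣ) (F : Pt N n → ℤˣ) : R :=
  ((y ^ (∑ j : Fin (n + 1), (F (0, j) : ℤ) * (-1) ^ (j : ℕ)) : Rˣ) : R)

theorem two_terms (k : ℤ) : ∑ s : ℤˣ, ((y ^ ((s : ℤ) * k) : Rˣ) : R) =
    ((y ^ k : Rˣ) : R) + ((y ^ (-k) : Rˣ) : R) := by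
  have h : (Finset.univ : Finset ℤˣ) = {1, -1} := by decide
  rw [h, Finset.sum_pair (by decide)]
  simp

theorem curve_product [NeZero N] {w : ZMod N → Letter n} {c : ZMod N → Join}
    (hc : ∀ t, c t ≠ .swap) :
    (-2 : R) ^ ines w c * (-((y : R) + ((y⁻¹ : Rˣ) : R))) ^ ess w c =
      ((((-1 : ℤˣ) ^ curves w c : ℤˣ) : ℤ) : R) *
        ∑ F : Pt N n → ℤˣ, (open Classical in if ∀ t, Resp (w t).place (c t) F t then G y F
          else 0) := by
  classical
  have h1 : (-2 : R) ^ ines w c * (-((y : R) + ((y⁻¹ : Rˣ) : R))) ^ ess w c =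
      ∏ q : Quot (Joined w c), (-(((y ^ wind q : Rˣ) : R) + ((y ^ (-wind q) : Rˣ) : R))) := by
    rw [← Finset.prod_filter_mul_prod_filter_not Finset.univ (fun q => wind q = 0)]
    congr 1
    · unfold ines
      rw [← Finset.prod_const]
      refine Finset.prod_congr rfl fun q hq => ?_
      rw [(Finset.mem_filter.mp hq).2]
      simp
      norm_num
    · unfold ess
      rw [← Finset.prod_const]
      refine Finset.prod_congr rfl fun q hq => ?_
      have hne := (Finset.mem_filter.mp hq).2
      rcases wind_bound hc q with h | h | h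
      · exact absurd h hne
      · rw [h]
        simp
      · rw [h]
        simp [add_comm]
  have h2 : ∏ q : Quot (Joined w c), (-(((y ^ wind q : Rˣ) : R) + ((y ^ (-wind q) : Rˣ) : R))) =
      (-1) ^ curves w c * ∏ q : Quot (Joined w c), ∑ s : ℤˣ, ((y ^ ((s : ℤ) * wind q) : Rˣ) : R) := by
    have h3 : curves w c = (Finset.univ : Finset (Quot (Joined w c))).card := by
      unfold curves
      rw [Nat.card_eq_fintype_card, Finset.card_univ]
    rw [h3, ← Finset.prod_const, ← Finset.prod_mul_distrib]
    refine Finset.prod_congr rfl fun q _ => ?_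
    rw [two_terms]
    ring
  rw [h1, h2, prod_sum_swap]
  have h4 : ((((-1 : ℤˣ) ^ curves w c : ℤˣ) : ℤ) : R) = (-1) ^ curves w c := by
    push_cast
    rfl
  rw [h4]
  congr 1
  -- colourings of the curves are colourings of the points
  have h5 : ∀ f : Quot (Joined w c) → ℤˣ,
      ∏ q, ((y ^ ((f q : ℤ) * wind q) : Rˣ) : R) = G y (fun x => f (cls w c x)) := by
    intro f
    unfold G
    rw [← Units.coe_prod]
    congr 1
    rw [prod_zpow_sum]
    congr 1
    have h6 : ∀ j : Fin (n + 1), (f (cls w c (0, j)) : ℤ) * (-1) ^ (j : ℕ) =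
        ∑ q : Quot (Joined w c), (f q : ℤ) * tm q 0 j := by
      intro j
      unfold tm
      simp
    rw [Finset.sum_congr rfl fun j _ => h6 j, Finset.sum_comm]
    refine Finset.sum_congr rfl fun q _ => ?_
    rw [wind, Finset.mul_sum]
  rw [Finset.sum_congr rfl fun f _ => h5 f, ← Finset.sum_filter]
  refine Finset.sum_bij (fun f _ => fun x => f (cls w c x)) ?_ ?_ ?_ ?_
  · intro f _
    rw [Finset.mem_filter]
    refine ⟨Finset.mem_univ _, (resp_iff w c _).mp ?_⟩
    intro x z h
    exact congrArg f (Quot.sound h)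
  · intro f _ g _ h
    funext q
    obtain ⟨x, rfl⟩ := Quot.exists_rep q
    exact congrFun h x
  · intro F hF
    have hF' := (resp_iff w c F).mpr (Finset.mem_filter.mp hF).2
    exact ⟨Quot.lift F hF', Finset.mem_univ _, rfl⟩
  · intro f _
    rfl

theorem sum_mu (w : ZMod N → Letter n) (F : Pt N n → ℤˣ) (t : ZMod N) :
    (∑ k : Join, (mu (w t).kind k) * (open Classical in if Resp (w t).place k F t then 1 else 0)) =
      lam w (fun x => F x * alt x) t := by
  classical
  have hu : (Finset.univ : Finset Join) = {.straight, .swap, .turn} := rfl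
  rw [hu, Finset.sum_insert (by decide), Finset.sum_pair (by decide)]
  have h1 : Resp (w t).place .straight F t = Cmp (w t).place .straight (fun x => F x * alt x) t :=
    propext (resp_cmp (by decide) F t)
  have h2 : Resp (w t).place .turn F t = Cmp (w t).place .turn (fun x => F x * alt x) t :=
    propext (resp_cmp (by decide) F t)
  unfold lam
  by_cases h3 : Cmp (w t).place .straight (fun x => F x * alt x) t <;>
    by_cases h4 : Cmp (w t).place .turn (fun x => F x * alt x) t <;>
      rw [← h1] at h3 <;> rw [← h2] at h4 <;> cases hk : (w t).kind <;>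
        simp [mu, h1 ▸ h3, h2 ▸ h4, h3, h4]

theorem alt_mul_alt (x : Pt N n) : (alt x : ℤˣ) * alt x = 1 := by
  simp

theorem sum_valid [NeZero N] {w : ZMod N → Letter n} (hK : IsKnot w) {o : Pt N n → ℤˣ}
    (ho : IsOrientation w o) :
    ∃ ε : ℤˣ, (∑ c : ZMod N → Join, (open Classical in if Valid w c then
      (-2 : R) ^ ines w c * (-((y : R) + ((y⁻¹ : Rˣ) : R))) ^ ess w c else 0)) =
      ((ε : ℤ) : R) * (((y ^ winding o : Rˣ) : R) + ((y ^ (-winding o) : Rˣ) : R)) := by
  classical
  -- rewrite each term
  have h1 : ∀ c : ZMod N → Join, (if Valid w c then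
      (-2 : R) ^ ines w c * (-((y : R) + ((y⁻¹ : Rˣ) : R))) ^ ess w c else 0) =
      ((((-1 : ℤˣ) ^ (n + 1) : ℤˣ) : ℤ) : R) * ∑ F : Pt N n → ℤˣ, G y F *
        ∏ t, (((mu (w t).kind (c t)) * (if Resp (w t).place (c t) F t then 1 else 0) : ℤ) : R) := by
    intro c
    have h2 : ∀ F : Pt N n → ℤˣ, G y F *
        ∏ t, (((mu (w t).kind (c t)) * (if Resp (w t).place (c t) F t then 1 else 0) : ℤ) : R) =
        ((∏ t, mu (w t).kind (c t) : ℤ) : R) *
          (if ∀ t, Resp (w t).place (c t) F t then G y F else 0) := by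
      intro F
      have h3 : ∏ t, (((mu (w t).kind (c t)) * (if Resp (w t).place (c t) F t then 1 else 0) : ℤ)
          : R) = ((∏ t, mu (w t).kind (c t) : ℤ) : R) *
            ((if ∀ t, Resp (w t).place (c t) F t then 1 else 0 : ℤ) : R) := by
        rw [← Int.cast_prod, ← Int.cast_mul]
        congr 1
        rw [Finset.prod_mul_distrib]
        congr 1
        by_cases hr : ∀ t, Resp (w t).place (c t) F t
        · rw [if_pos hr]
          exact Finset.prod_eq_one fun t _ => if_pos (hr t)
        · rw [if_neg hr]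
          push Not at hr
          obtain ⟨t, ht⟩ := hr
          exact Finset.prod_eq_zero (Finset.mem_univ t) (if_neg ht)
      rw [h3]
      split_ifs <;> simp [mul_comm]
    rw [Finset.sum_congr rfl fun F _ => h2 F, ← Finset.mul_sum]
    by_cases hv : Valid w c
    · rw [if_pos hv, curve_product y hv.1, prod_mu_valid hv, curves_state w hv.1]
      push_cast
      ring
    · rw [if_neg hv, prod_mu_not_valid hv]
      simp
  rw [Finset.sum_congr rfl fun c _ => h1 c, ← Finset.mul_sum, Finset.sum_comm]
  have h4 : ∀ F : Pt N n → ℤˣ, ∑ c : ZMod N → Join, G y F *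
        ∏ t, (((mu (w t).kind (c t)) * (if Resp (w t).place (c t) F t then 1 else 0) : ℤ) : R) =
      G y F * ((∏ t, lam w (fun x => F x * alt x) t : ℤ) : R) := by
    intro F
    rw [← Finset.mul_sum]
    congr 1
    rw [← prod_sum_swap (fun (t : ZMod N) (k : Join) =>
      (((mu (w t).kind k) * (if Resp (w t).place k F t then 1 else 0) : ℤ) : R))]
    rw [Int.cast_prod]
    refine Finset.prod_congr rfl fun t _ => ?_
    rw [← Int.cast_sum]
    congr 1
    have := sum_mu w F t
    convert this
  rw [Finset.sum_congr rfl fun F _ => h4 F]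
  -- only two colourings contribute
  set F₁ : Pt N n → ℤˣ := fun x => o x * alt x with hF₁
  set F₂ : Pt N n → ℤˣ := fun x => -o x * alt x with hF₂
  have e1 : (fun x => F₁ x * alt x) = o := by
    funext x
    simp [hF₁, mul_assoc]
  have e2 : (fun x => F₂ x * alt x) = -o := by
    funext x
    simp [hF₂, mul_assoc]
  have hne : F₁ ≠ F₂ := by
    intro h
    have h5 := congrFun h (0, 0)
    simp only [hF₁, hF₂] at h5
    have h6 := mul_right_cancel h5
    rcases unit_cases (o (0, 0)) with h7 | h7 <;> rw [h7] at h6 <;> exact absurd h6 (by decide)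
  have hsum := Fintype.sum_eq_add (f := fun F : Pt N n → ℤˣ => G y F *
    ((∏ t, lam w (fun x => F x * alt x) t : ℤ) : R)) F₁ F₂ hne (by
      intro F hF
      have hz : ∏ t, lam w (fun x => F x * alt x) t = 0 := by
        by_contra hnz
        have h5 : ∀ t, Cmp (w t).place (w t).kind.join (fun x => F x * alt x) t := by
          intro t
          by_contra hc
          exact hnz (Finset.prod_eq_zero (Finset.mem_univ t) (lam_zero hc))
        rcases orientation_unique hK (η := fun x => F x * alt x) h5 ho with h6 | h6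
        · apply hF.1
          funext x
          rw [hF₁]
          simp only
          rw [← congrFun h6 x, mul_assoc]
          simp
        · apply hF.2
          funext x
          rw [hF₂]
          simp only
          have h7 : F x * alt x = -o x := congrFun h6 x
          rw [← h7, mul_assoc]
          simp
      rw [hz]
      simp)
  rw [hsum]
  rw [e1, e2]
  have e3 : ∏ t, lam w (-o) t = ∏ t, lam w o t :=
    Finset.prod_congr rfl fun t _ => lam_neg
  rw [e3]
  have e4 : ∃ ε : ℤˣ, ∏ t, lam w o t = (ε : ℤ) := by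
    have h8 : IsUnit (∏ t, lam w o t) := by
      rw [IsUnit.prod_univ_iff]
      intro t
      rcases lam_unit (ho t) with h9 | h9 <;> rw [h9]
      · exact isUnit_one
      · exact isUnit_one.neg
    obtain ⟨u, hu⟩ := h8
    exact ⟨u, hu.symm⟩
  obtain ⟨ε, hε⟩ := e4
  refine ⟨(-1) ^ (n + 1) * ε, ?_⟩
  have e5 : G y F₁ = ((y ^ winding o : Rˣ) : R) := by
    unfold G winding
    congr 2
    refine Finset.sum_congr rfl fun j _ => ?_
    simp only [hF₁, alt]
    push_cast
    rw [mul_assoc, ← mul_pow]
    simp
  have e6 : G y F₂ = ((y ^ (-winding o) : Rˣ) : R) := by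
    unfold G winding
    rw [← Finset.sum_neg_distrib]
    congr 2
    refine Finset.sum_congr rfl fun j _ => ?_
    simp only [hF₂, alt]
    push_cast
    rw [mul_assoc, ← mul_pow]
    simp
  rw [e5, e6, hε]
  push_cast
  ring

end

end Pool.Agent.Helper1.PK
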