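import Pool.Agent.Helper1.PK.Main

/-!
# The winding number of a periodic knot with trivial Jones polynomial: the main argument
-/

namespace Pool.Agent.Helper1.PK

open LaurentPolynomial

variable {N M n : ℕ}

theorem curves_pos [NeZero N] (w : ZMod N → Letter n) (c : ZMod N → Join) : 0 < curves w c := by
  unfold curves
  have : Nonempty (Quot (Joined w c)) := ⟨Quot.mk _ (0, 0)⟩
  exact Nat.card_pos

section Red

variable (p : ℕ) [Fact p.Prime]

/-- Reduction modulo `p`. -/
noncomputable def red : ℤ[T;T⁻¹] →+* (ZMod p)[T;T⁻¹] :=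
  eval₂ (Int.castRingHom _) (tU (ZMod p) 1)

theorem red_T (k : ℤ) : red p (T k) = T k := by
  unfold red
  rw [eval₂_T, tU_zpow_val, one_mul]

theorem red_C (a : ℤ) : red p (C a) = (a : (ZMod p)[T;T⁻¹]) := by
  unfold red
  rw [eval₂_C]
  rfl

theorem red_p : red p (p : ℤ[T;T⁻¹]) = 0 := by
  rw [map_natCast]
  exact CharP.cast_eq_zero _ p

/-- The loop value. -/
noncomputable def dl : (ZMod p)[T;T⁻¹] := -T 2 - T (-2)

/-- The reduced weights. -/
noncomputable def wtp (a : Kind) (c : Join) : (ZMod p)[T;T⁻¹] := red p (weight a c)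

theorem wtp_swap (a : Kind) : wtp p a .swap = 0 := by
  unfold wtp
  cases a <;> simp [weight]

theorem dl_mul_bracket [NeZero N] (w : ZMod N → Letter n) :
    dl p * red p (bracket w) = stateSum w (wtp p) (dl p) := by
  unfold bracket stateSum
  rw [map_sum, Finset.mul_sum]
  refine Finset.sum_congr rfl fun c _ => ?_
  rw [map_mul, map_prod, map_pow, map_sub, map_neg, red_T, red_T]
  have h1 : curves w c = (curves w c - 1) + 1 := (Nat.sub_add_cancel (curves_pos w c)).symm
  conv_rhs => rw [h1, pow_succ]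
  unfold wtp dl
  ring

theorem dl_ne_zero : dl p ≠ 0 := by
  intro h
  have h1 := congrArg (fun f : (ZMod p)[T;T⁻¹] => f.coeff 2) h
  unfold dl at h1
  simp at h1

theorem prod_wtp_valid [NeZero N] {w : ZMod N → Letter n} {c : ZMod N → Join} (h : Valid w c) :
    ∏ t, wtp p (w t).kind (c t) = T (expo w c) := by
  have h1 : ∀ s : Finset (ZMod N), ∏ t ∈ s, wtp p (w t).kind (c t) =
      T (∑ t ∈ s, sg (w t).kind (c t)) := by
    classical
    intro s
    induction s using Finset.induction_on with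
    | empty => simp
    | insert t s ht ih =>
      rw [Finset.prod_insert ht, Finset.sum_insert ht, T_add, ih]
      congr 1
      have h3 := h.1 t
      have h4 := h.2 t
      unfold wtp
      cases hk : (w t).kind <;> cases hct : c t <;> rw [hk, hct] at h4 <;> rw [hct] at h3 <;>
        simp [sg, weight, red_T] at h3 h4 ⊢
  exact h1 Finset.univ

theorem prod_wtp_not_valid [NeZero N] {w : ZMod N → Letter n} {c : ZMod N → Join}
    (h : ¬ Valid w c) : ∏ t, wtp p (w t).kind (c t) = 0 := by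
  have h' : ∃ t, wtp p (w t).kind (c t) = 0 := by
    by_contra hne
    push Not at hne
    apply h
    constructor
    · intro t ht
      apply hne t
      rw [ht]
      exact wtp_swap p _
    · intro t ht
      by_contra hc
      apply hne t
      rw [ht]
      unfold wtp
      cases hct : c t
      · simp [weight]
      · simp [weight]
      · exact absurd hct hc
  obtain ⟨t, ht⟩ := h'
  exact Finset.prod_eq_zero (Finset.mem_univ t) ht

theorem dl_not_unit : ¬ (dl p ∣ 1) := by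
  intro h
  obtain ⟨ζ, hζ⟩ := IsAlgClosed.exists_pow_nat_eq (-1 : AlgebraicClosure (ZMod p)) (n := 4)
    (by norm_num)
  have hζ0 : ζ ≠ 0 := by
    rintro rfl
    simp at hζ
  let φ : (ZMod p)[T;T⁻¹] →+* AlgebraicClosure (ZMod p) :=
    eval₂ (algebraMap (ZMod p) (AlgebraicClosure (ZMod p))) (Units.mk0 ζ hζ0)
  have h1 : φ (dl p) = 0 := by
    simp only [φ, dl, map_sub, map_neg, eval₂_T]
    have e1 : ((Units.mk0 ζ hζ0 ^ (2 : ℤ) : (AlgebraicClosure (ZMod p))ˣ) :
        AlgebraicClosure (ZMod p)) = ζ ^ 2 := by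
      rw [Units.val_zpow_eq_zpow_val, Units.val_mk0]
      exact zpow_ofNat ζ 2
    have e2 : ((Units.mk0 ζ hζ0 ^ (-2 : ℤ) : (AlgebraicClosure (ZMod p))ˣ) :
        AlgebraicClosure (ZMod p)) = (ζ ^ 2)⁻¹ := by
      rw [Units.val_zpow_eq_zpow_val, Units.val_mk0, zpow_neg]
      congr 1
      exact zpow_ofNat ζ 2
    rw [e1, e2]
    have e3 : ζ ^ 2 ≠ 0 := pow_ne_zero 2 hζ0
    field_simp
    linear_combination -hζ
  have h2 := map_dvd φ h
  rw [h1, map_one, zero_dvd_iff] at h2
  exact one_ne_zero h2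

end Red

section Identity

variable {p : ℕ} [Fact p.Prime] {k : ℕ}

/-- The state sum modulo `p`, over the states of the quotient. -/
theorem bracket_mod [NeZero N] [NeZero M] (h : N ∣ M) (hM : M = p ^ k * N)
    (w : ZMod N → Letter n) :
    dl p * red p (bracket (pullW h w)) = ∑ c : ZMod N → Join,
      (open Classical in if Valid w c then
        T ((p ^ k : ℕ) * expo w c) * (dl p ^ (p ^ k)) ^ ines w c * dl p ^ ess w c else 0) := by
  classical
  rw [dl_mul_bracket, stateSum_pull h hM w (wtp p) (wtp_swap p), Finset.sum_filter]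
  refine Finset.sum_congr rfl fun c _ => ?_
  by_cases hv : Valid w c
  · rw [if_pos hv.1, if_pos hv, prod_wtp_valid p hv, T_pow]
  · rw [if_neg hv, prod_wtp_not_valid p hv,
      zero_pow (pow_ne_zero _ (Fact.out (p := p.Prime)).ne_zero)]
    simp

theorem even_strands [NeZero N] [NeZero M] (h : N ∣ M) (hM : M = p ^ k * N) (hk : 1 ≤ k)
    (w : ZMod N → Letter n) (o : Pt M n → ℤˣ)
    (hf : red p (normalized (pullW h w) o) = 1) : Even n := by
  classical
  have hp : p.Prime := Fact.out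
  by_contra hn
  rw [Nat.not_even_iff_odd] at hn
  have hr : 2 ≤ p ^ k := hp.two_le.trans (Nat.le_self_pow (by omega) p)
  have h1 : dl p * dl p ∣ dl p * red p (bracket (pullW h w)) := by
    rw [bracket_mod h hM]
    apply Finset.dvd_sum
    intro c _
    split_ifs with hv
    · have h2 := ess_parity (w := w) hv.1
      have h3 := ines_add_ess (w := w) (c := c)
      have h4 := curves_pos w c
      have h5 : (n + 1) % 2 = 0 := by
        obtain ⟨m, rfl⟩ := hn
        omega
      rw [mul_assoc, ← pow_mul, ← pow_add]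
      have h6 : 2 ≤ p ^ k * ines w c + ess w c := by
        by_cases he : ess w c = 0
        · have h7 : 1 ≤ ines w c := by omega
          calc 2 ≤ p ^ k * 1 := by omega
            _ ≤ p ^ k * ines w c := Nat.mul_le_mul_left _ h7
            _ ≤ _ := Nat.le_add_right _ _
        · have : 2 ≤ ess w c := by omega
          exact this.trans (Nat.le_add_left _ _)
      rw [← pow_two]
      exact (pow_dvd_pow _ h6).trans (Dvd.intro_left _ rfl)
    · exact dvd_zero _
  have h2 := (mul_dvd_mul_iff_left (dl_ne_zero p)).mp h1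
  apply dl_not_unit p
  rw [← hf]
  unfold normalized
  rw [map_mul]
  exact h2.trans (Dvd.intro_left _ rfl)

theorem dl_pow_char : dl p ^ (p ^ k) = T (2 * (p ^ k : ℕ)) * (-1 - T (-(4 * (p ^ k : ℕ)))) := by
  unfold dl
  rw [sub_pow_char_pow, neg_pow, neg_one_pow_char_pow _ p k, T_pow, T_pow, mul_sub, ← T_add]
  have e1 : (2 * ((p ^ k : ℕ) : ℤ) + -(4 * ((p ^ k : ℕ) : ℤ))) = ((p ^ k : ℕ) : ℤ) * -2 := by ring
  rw [e1]
  have e2 : (((p ^ k : ℕ) : ℤ) * 2) = 2 * ((p ^ k : ℕ) : ℤ) := by ring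
  rw [e2]
  ring

/-- The index of a state. -/
def uu [NeZero N] (w : ZMod N → Letter n) (i : ℕ) (e : ℤ) : ℤ := (e + 2 * i - base w) / 4

theorem four_uu [NeZero N] {w : ZMod N → Letter n} {c : ZMod N → Join} (hc : Valid w c) :
    expo w c + 2 * ines w c = 4 * uu w (ines w c) (expo w c) + base w := by
  have h := expo_mod hc
  unfold uu
  omega

/-- The two-variable state sum, as a Laurent polynomial in `z`. -/
noncomputable def LL [NeZero N] (p : ℕ) [Fact p.Prime] (w : ZMod N → Letter n) (κ : ℤˣ) (g : ℤ) :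
    ((ZMod p)[T;T⁻¹])[T;T⁻¹] :=
  (∑ c : ZMod N → Join, (open Classical in if Valid w c then
    C (dl p ^ ess w c) * (T (uu w (ines w c) (expo w c)) * (-1 - T (-1)) ^ ines w c) else 0)) -
    C (((κ : ℤ) : (ZMod p)[T;T⁻¹]) * dl p) * T g

theorem evU_LL [NeZero N] (w : ZMod N → Letter n) (κ : ℤˣ) (g : ℤ) (a : ((ZMod p)[T;T⁻¹])ˣ) :
    evU a (LL p w κ g) = (∑ c : ZMod N → Join, (open Classical in if Valid w c then
      dl p ^ ess w c * (((a ^ uu w (ines w c) (expo w c) : ((ZMod p)[T;T⁻¹])ˣ) : (ZMod p)[T;T⁻¹]) *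
        (-1 - ((a ^ (-1 : ℤ) : ((ZMod p)[T;T⁻¹])ˣ) : (ZMod p)[T;T⁻¹])) ^ ines w c) else 0)) -
      (((κ : ℤ) : (ZMod p)[T;T⁻¹]) * dl p) *
        ((a ^ g : ((ZMod p)[T;T⁻¹])ˣ) : (ZMod p)[T;T⁻¹]) := by
  classical
  unfold LL
  rw [map_sub, map_sum, map_mul, evU_C, evU_T]
  congr 1
  refine Finset.sum_congr rfl fun c _ => ?_
  split_ifs
  · simp only [map_mul, map_pow, map_sub, map_neg, map_one, evU_C, evU_T]
  · rw [map_zero]

theorem main_identity [NeZero N] [NeZero M] (h : N ∣ M) (hM : M = p ^ k * N)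
    (w : ZMod N → Letter n) {o : Pt M n → ℤˣ} {o' : Pt N n → ℤˣ} (hoo : o = pullO h o')
    (hf : red p (normalized (pullW h w) o) = 1) {g : ℤ} (hg : 3 * writhe w o' - base w = 4 * g) :
    ∃ κ : ℤˣ, evU (tU (ZMod p) (4 * (p ^ k : ℕ))) (LL p w κ g) = 0 := by
  classical
  -- the value of the bracket
  set κ : ℤˣ := (-1) ^ writhe (pullW h w) o with hκ
  refine ⟨κ, ?_⟩
  have hκ2 : (((κ : ℤ) : (ZMod p)[T;T⁻¹])) * ((κ : ℤ) : (ZMod p)[T;T⁻¹]) = 1 := by
    rw [← Int.cast_mul, ← Units.val_mul, Int.units_mul_self]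
    simp
  have hw : writhe (pullW h w) o = (p ^ k : ℕ) * writhe w o' := by
    rw [hoo]
    exact writhe_pull h hM w o'
  have h1 : red p (bracket (pullW h w)) =
      ((κ : ℤ) : (ZMod p)[T;T⁻¹]) * T (3 * writhe (pullW h w) o) := by
    unfold normalized at hf
    rw [map_mul, map_mul, red_C, red_T, ← hκ] at hf
    have e1 : (T (3 * writhe (pullW h w) o) * T (-3 * writhe (pullW h w) o) :
        (ZMod p)[T;T⁻¹]) = 1 := by
      rw [← T_add]
      simp
    calc red p (bracket (pullW h w))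
        = (((κ : ℤ) : (ZMod p)[T;T⁻¹]) * ((κ : ℤ) : (ZMod p)[T;T⁻¹])) *
          (T (3 * writhe (pullW h w) o) * T (-3 * writhe (pullW h w) o)) *
            red p (bracket (pullW h w)) := by rw [hκ2, e1]; ring
      _ = ((κ : ℤ) : (ZMod p)[T;T⁻¹]) * T (3 * writhe (pullW h w) o) *
          (((κ : ℤ) : (ZMod p)[T;T⁻¹]) * T (-3 * writhe (pullW h w) o) *
            red p (bracket (pullW h w))) := by ring
      _ = _ := by rw [hf, mul_one]
  have h2 := bracket_mod (p := p) (k := k) h hM w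
  rw [h1] at h2
  -- the terms
  have h3 : ∀ c : ZMod N → Join, (if Valid w c then
        T ((p ^ k : ℕ) * expo w c) * (dl p ^ (p ^ k)) ^ ines w c * dl p ^ ess w c else 0) =
      T ((p ^ k : ℕ) * base w) * (if Valid w c then
        dl p ^ ess w c * (T (4 * (p ^ k : ℕ) * uu w (ines w c) (expo w c)) *
          (-1 - T (-(4 * (p ^ k : ℕ)))) ^ ines w c) else 0) := by
    intro c
    by_cases hv : Valid w c
    · rw [if_pos hv, if_pos hv, dl_pow_char, mul_pow, T_pow]
      have e1 : (T ((p ^ k : ℕ) * expo w c) * T (ines w c * (2 * (p ^ k : ℕ))) : (ZMod p)[T;T⁻¹]) =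
          T ((p ^ k : ℕ) * base w) * T (4 * (p ^ k : ℕ) * uu w (ines w c) (expo w c)) := by
        rw [← T_add, ← T_add]
        congr 1
        have := four_uu hv
        linear_combination ((p ^ k : ℕ) : ℤ) * this
      rw [← mul_assoc (T ((p ^ k : ℕ) * expo w c)), e1]
      ring
    · rw [if_neg hv, if_neg hv, mul_zero]
  rw [Finset.sum_congr rfl fun c _ => h3 c, ← Finset.mul_sum] at h2
  have h4 : (T (3 * writhe (pullW h w) o) : (ZMod p)[T;T⁻¹]) =
      T ((p ^ k : ℕ) * base w) * T (4 * (p ^ k : ℕ) * g) := by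
    rw [← T_add, hw]
    congr 1
    linear_combination ((p ^ k : ℕ) : ℤ) * hg
  rw [h4] at h2
  have h5 : (T ((p ^ k : ℕ) * base w) : (ZMod p)[T;T⁻¹]) ≠ 0 := (isUnit_T _).ne_zero
  have h6 : T ((p ^ k : ℕ) * base w) * (((κ : ℤ) : (ZMod p)[T;T⁻¹]) * dl p *
      T (4 * (p ^ k : ℕ) * g)) = T ((p ^ k : ℕ) * base w) *
      ∑ c : ZMod N → Join, (if Valid w c then
        dl p ^ ess w c * (T (4 * (p ^ k : ℕ) * uu w (ines w c) (expo w c)) *
          (-1 - T (-(4 * (p ^ k : ℕ)))) ^ ines w c) else 0) := by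
    rw [← h2]
    ring
  have h7 := mul_left_cancel₀ h5 h6
  rw [evU_LL, sub_eq_zero]
  simp only [tU_zpow_val]
  rw [h7]
  refine Finset.sum_congr rfl fun c _ => ?_
  split_ifs
  · congr 3
    ring_nf
  · rfl

theorem invert_dl : invert (dl p) = dl p := by
  unfold dl
  rw [map_sub, map_neg, invert_T, invert_T, neg_neg]
  ring

theorem main_identity' [NeZero N] (w : ZMod N → Letter n) (κ : ℤˣ) (g s : ℤ)
    (h : evU (tU (ZMod p) s) (LL p w κ g) = 0) : evU (tU (ZMod p) (-s)) (LL p w κ g) = 0 := by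
  classical
  have h1 := congrArg (invert : (ZMod p)[T;T⁻¹] → (ZMod p)[T;T⁻¹]) h
  rw [map_zero, evU_LL, map_sub, map_sum, map_mul, map_mul, map_intCast, invert_dl] at h1
  simp only [tU_zpow_val, invert_T] at h1
  rw [evU_LL]
  simp only [tU_zpow_val]
  refine Eq.trans ?_ h1
  congr 1
  · refine Finset.sum_congr rfl fun c _ => ?_
    split_ifs
    · simp only [map_mul, map_pow, map_sub, map_neg, map_one, invert_dl, invert_T]
      congr 3
      · ring
      · ring_nf
    · rw [map_zero]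
  · congr 2
    ring

/-- The theorem for a diagram pulled back from its quotient. -/
theorem main_pull [NeZero N] [NeZero M] (h : N ∣ M) (hM : M = p ^ k * N) (hk : 1 ≤ k)
    (w : ZMod N → Letter n) (o : Pt M n → ℤˣ) (hK : IsKnot (pullW h w))
    (ho : IsOrientation (pullW h w) o) (hf : red p (normalized (pullW h w) o) = 1) :
    (2 * p ^ (k + 1) : ℤ) ∣ winding o - 1 ∨ (2 * p ^ (k + 1) : ℤ) ∣ winding o + 1 := by
  classical
  have hp : p.Prime := Fact.out
  have hn := even_strands h hM hk w o hf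
  have hodd := odd_winding o hn
  have hw0 : winding o ≠ 0 := by
    intro h0
    rw [h0] at hodd
    exact absurd hodd (by decide)
  obtain ⟨o', hoo, ho'⟩ := orientation_descend h hK ho hw0
  have hK' := knot_descend h hK
  have hwo : winding o = winding o' := by rw [hoo, winding_pull]
  obtain ⟨g, hg⟩ := writhe_mod hK' ho' hn
  obtain ⟨κ, hκ⟩ := main_identity h hM w hoo hf hg
  have hκ' := main_identity' w κ g _ hκ
  have hpk : (0 : ℤ) < (p ^ k : ℕ) := by exact_mod_cast pow_pos hp.pos k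
  have hne : ((tU (ZMod p) (4 * (p ^ k : ℕ)) : ((ZMod p)[T;T⁻¹])ˣ) : (ZMod p)[T;T⁻¹]) ≠
      ((tU (ZMod p) (-(4 * (p ^ k : ℕ))) : ((ZMod p)[T;T⁻¹])ˣ) : (ZMod p)[T;T⁻¹]) := by
    intro hh
    rw [tU_val, tU_val] at hh
    have := T_inj hh
    omega
  have hdiv := two_roots (LL p w κ g) _ _ hne hκ hκ'
  rw [evU_LL] at hdiv
  obtain ⟨ε, hε⟩ := sum_valid (tU (ZMod p) 2) hK' ho'
  have h1 : (∑ c : ZMod N → Join, (if Valid w c then
      dl p ^ ess w c * ((((1 : ((ZMod p)[T;T⁻¹])ˣ) ^ uu w (ines w c) (expo w c) :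
        ((ZMod p)[T;T⁻¹])ˣ) : (ZMod p)[T;T⁻¹]) *
        (-1 - (((1 : ((ZMod p)[T;T⁻¹])ˣ) ^ (-1 : ℤ) : ((ZMod p)[T;T⁻¹])ˣ) :
          (ZMod p)[T;T⁻¹])) ^ ines w c) else 0)) =
      ((ε : ℤ) : (ZMod p)[T;T⁻¹]) * (T (2 * winding o) + T (-(2 * winding o))) := by
    rw [tU_zpow_val, tU_zpow_val, ← hwo] at hε
    rw [mul_neg] at hε
    rw [← hε]
    refine Finset.sum_congr rfl fun c _ => ?_
    split_ifs
    · rw [one_zpow, one_zpow, Units.val_one, one_mul, tU_inv, tU_val, tU_val, mul_comm]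
      congr 2
      · norm_num
      · unfold dl
        ring
    · rfl
  rw [h1, one_zpow, Units.val_one, mul_one] at hdiv
  have h2 : ((ε : ℤ) : (ZMod p)[T;T⁻¹]) * (T (2 * winding o) + T (-(2 * winding o))) -
      ((κ : ℤ) : (ZMod p)[T;T⁻¹]) * dl p =
      ((ε : ℤ) : (ZMod p)[T;T⁻¹]) * (T (2 * winding o) + T (-(2 * winding o))) +
      ((κ : ℤ) : (ZMod p)[T;T⁻¹]) * (T 2 + T (-2)) := by
    unfold dl
    ring
  rw [h2, tU_val, tU_val] at hdiv
  refine final_arith hk hodd ε κ ?_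
  exact_mod_cast hdiv

/-- The theorem for a word invariant under a shift. -/
theorem main_word {m q n : ℕ} [NeZero (m * q)] (w : ZMod (m * q) → Letter n)
    (hw : ∀ t, w (t + (q : ZMod (m * q))) = w t) (o : Pt (m * q) n → ℤˣ)
    (hK : IsKnot w) (ho : IsOrientation w o) (hk : 1 ≤ k) (hm : p ^ k ∣ m)
    (hf : (p : ℤ[T;T⁻¹]) ∣ normalized w o - 1) :
    (2 * p ^ (k + 1) : ℤ) ∣ winding o - 1 ∨ (2 * p ^ (k + 1) : ℤ) ∣ winding o + 1 := by
  obtain ⟨m', rfl⟩ := hm
  have hne : p ^ k * m' * q ≠ 0 := NeZero.ne _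
  have hne' : m' * q ≠ 0 := by
    intro h
    apply hne
    rw [mul_assoc, h, mul_zero]
  have : NeZero (m' * q) := ⟨hne'⟩
  have hdvd : m' * q ∣ p ^ k * m' * q := ⟨p ^ k, by ring⟩
  have hM : p ^ k * m' * q = p ^ k * (m' * q) := by ring
  have hw' : ∀ t, w (t + ((m' * q : ℕ) : ZMod (p ^ k * m' * q))) = w t := by
    have key : ∀ (i : ℕ) t, w (t + ((i * q : ℕ) : ZMod (p ^ k * m' * q))) = w t := by
      intro i t
      induction i with
      | zero => simp
      | succ i ih =>
        rw [← ih, ← hw (t + ((i * q : ℕ) : ZMod (p ^ k * m' * q)))]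
        congr 1
        push_cast
        ring
    exact key m'
  obtain ⟨w₀, hw₀⟩ := exists_pull hdvd w hw'
  have hww : w = pullW hdvd w₀ := funext hw₀
  have hred : red p (normalized w o) = 1 := by
    obtain ⟨Z, hZ⟩ := hf
    have := congrArg (red p) hZ
    rw [map_sub, map_one, map_mul, red_p, zero_mul] at this
    exact sub_eq_zero.mp this
  subst hww
  exact main_pull hdvd hM hk w₀ o hK ho hred

end Identity

end Pool.Agent.Helper1.PK
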