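import Pool.Agent.Helper1.PK.Evaluate
import Pool.Agent.Helper1.PK.Arith

/-!
# The winding number of a periodic knot with trivial Jones polynomial
-/

namespace Pool.Agent.Helper1.PK

open LaurentPolynomial

variable {N M n : ℕ}

/-! ### Orientations of knots in the annulus -/

theorem level_sum {w : ZMod N → Letter n} {o : Pt N n → ℤˣ} (ho : IsOrientation w o)
    (t : ZMod N) : ∑ j, (o (t + 1, j) : ℤ) = ∑ j, (o (t, j) : ℤ) := by
  rw [sum_at (w t).place, sum_at (w t).place]
  have h : Cmp (w t).place (w t).kind.join o t := ho t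
  have hout : Out (w t).place o t := by
    cases hk : (w t).kind <;> simp only [hk, Kind.join] at h
    · exact (cmp_swap.mp h).1
    · exact (cmp_swap.mp h).1
    · exact (cmp_turn.mp h).1
  congr 1
  · cases hk : (w t).kind <;> simp only [hk, Kind.join] at h
    · rw [(cmp_swap.mp h).2.1, (cmp_swap.mp h).2.2]
      ring
    · rw [(cmp_swap.mp h).2.1, (cmp_swap.mp h).2.2]
      ring
    · rw [(cmp_turn.mp h).2.1, (cmp_turn.mp h).2.2]
      push_cast
      ring
  · refine Finset.sum_congr rfl fun j hj => ?_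
    rw [hout j (Finset.mem_filter.mp hj).2]

theorem winding_level [NeZero N] {w : ZMod N → Letter n} {o : Pt N n → ℤˣ}
    (ho : IsOrientation w o) (t : ZMod N) : ∑ j, (o (t, j) : ℤ) = winding o := by
  have key : ∀ k : ℕ, ∑ j, (o ((k : ZMod N), j) : ℤ) = winding o := by
    intro k
    induction k with
    | zero => simp [winding]
    | succ k ih =>
      rw [← ih, Nat.cast_succ, level_sum ho]
  have := key t.val
  rwa [ZMod.natCast_zmod_val] at this

theorem odd_winding (o : Pt N n → ℤˣ) (hn : Even n) : Odd (winding o) := by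
  have h1 : ((winding o : ℤ) : ZMod 2) = ((n + 1 : ℕ) : ZMod 2) := by
    unfold winding
    rw [Int.cast_sum]
    have h2 : ∀ j : Fin (n + 1), (((o (0, j) : ℤˣ) : ℤ) : ZMod 2) = 1 := by
      intro j
      rcases unit_cases (o (0, j)) with h | h <;> rw [h] <;> decide
    rw [Finset.sum_congr rfl fun j _ => h2 j]
    simp
  have h2 : ((n + 1 : ℕ) : ZMod 2) = 1 := by
    obtain ⟨k, rfl⟩ := hn
    have : ((k + k + 1 : ℕ) : ZMod 2) = 2 * (k : ZMod 2) + 1 := by push_cast; ring
    rw [this]
    have h3 : (2 : ZMod 2) = 0 := by decide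
    rw [h3]
    ring
  rw [h2] at h1
  by_contra hc
  rw [Int.not_odd_iff_even] at hc
  obtain ⟨k, hk⟩ := hc
  rw [hk] at h1
  have h3 : ((k + k : ℤ) : ZMod 2) = 2 * (k : ZMod 2) := by push_cast; ring
  rw [h3] at h1
  have h4 : (2 : ZMod 2) = 0 := by decide
  rw [h4, zero_mul] at h1
  exact absurd h1 (by decide)

theorem knot_descend [NeZero N] [NeZero M] (h : N ∣ M) {w : ZMod N → Letter n}
    (hK : IsKnot (pullW h w)) : IsKnot w := by
  have hcard : Nat.card (Quot (Joined (pullW h w) (fun t => (pullW h w t).kind.join))) = 1 := hK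
  have hsub := (Nat.card_eq_one_iff_unique.mp hcard).1
  have hmap : ∀ x y : Pt M n, Joined (pullW h w) (fun t => (pullW h w t).kind.join) x y →
      (Quot.mk (Joined w fun t => (w t).kind.join) (prj h x)) = Quot.mk _ (prj h y) := by
    rintro x y ⟨t, e, rfl, rfl⟩
    apply Quot.sound
    exact ⟨ZMod.castHom h (ZMod N) t, e, prj_point h t e, prj_point h t _⟩
  show Nat.card (Quot (Joined w fun t => (w t).kind.join)) = 1
  rw [Nat.card_eq_one_iff_unique]
  refine ⟨⟨?_⟩, ⟨Quot.mk _ (0, 0)⟩⟩
  intro p q
  obtain ⟨⟨s, i⟩, rfl⟩ := Quot.exists_rep p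
  obtain ⟨⟨t, j⟩, rfl⟩ := Quot.exists_rep q
  obtain ⟨s', rfl⟩ := ZMod.castHom_surjective h s
  obtain ⟨t', rfl⟩ := ZMod.castHom_surjective h t
  have h1 : Quot.mk (Joined (pullW h w) (fun t => (pullW h w t).kind.join)) (s', i) =
      Quot.mk _ (t', j) := Subsingleton.elim _ _
  exact congrArg (Quot.lift (fun x => Quot.mk (Joined w fun t => (w t).kind.join) (prj h x)) hmap) h1

theorem orientation_descend [NeZero N] [NeZero M] (h : N ∣ M) {w : ZMod N → Letter n}
    {o : Pt M n → ℤˣ} (hK : IsKnot (pullW h w)) (ho : IsOrientation (pullW h w) o)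
    (hw : winding o ≠ 0) : ∃ o' : Pt N n → ℤˣ, o = pullO h o' ∧ IsOrientation w o' := by
  -- the shifted orientation
  have hadd := fun t : ZMod M => castHom_add h t 1
  simp only [one_mul] at hadd
  let o₁ : Pt M n → ℤˣ := fun x => o (x.1 + (N : ZMod M), x.2)
  have hpt : ∀ (t : ZMod M) (e : End n),
      o₁ (point t e) = o (point (t + (N : ZMod M)) e) := by
    rintro t ⟨b, j⟩
    cases b
    · rfl
    · show o (t + 1 + (N : ZMod M), j) = o (t + (N : ZMod M) + 1, j)
      congr 2
      ring
  have hfl : ∀ (t : ZMod M) (e : End n), flow o₁ t e = flow o (t + (N : ZMod M)) e := by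
    intro t e
    unfold flow
    rw [hpt]
  have ho₁ : IsOrientation (pullW h w) o₁ := by
    intro t e
    rw [hfl, hfl]
    have h1 : pullW h w t = pullW h w (t + (N : ZMod M)) := by
      unfold pullW
      rw [hadd]
    rw [h1]
    exact ho _ e
  have h2 : o₁ = o := by
    rcases orientation_unique hK ho₁ ho with h3 | h3
    · exact h3
    · exfalso
      apply hw
      have h4 : ∑ j, (o ((N : ZMod M), j) : ℤ) = winding o := winding_level ho _
      have h5 : ∑ j, (o ((N : ZMod M), j) : ℤ) = -winding o := by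
        unfold winding
        rw [← Finset.sum_neg_distrib]
        refine Finset.sum_congr rfl fun j _ => ?_
        have h6 := congrFun h3 (0, j)
        simp only [o₁, zero_add] at h6
        rw [h6]
        simp
      omega
  obtain ⟨g, hg⟩ := exists_pull h (fun (t : ZMod M) (j : Fin (n + 1)) => o (t, j)) (by
    intro t
    funext j
    exact congrFun h2 (t, j))
  refine ⟨fun x => g x.1 x.2, ?_, ?_⟩
  · funext x
    obtain ⟨t, j⟩ := x
    exact congrFun (hg t) j
  · have h7 : o = pullO h (fun x => g x.1 x.2) := by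
      funext x
      obtain ⟨t, j⟩ := x
      exact congrFun (hg t) j
    intro s e
    obtain ⟨t, rfl⟩ := ZMod.castHom_surjective h s
    rw [← flow_pull, ← flow_pull, ← h7]
    exact ho t e

theorem winding_pull (h : N ∣ M) (o : Pt N n → ℤˣ) : winding (pullO h o) = winding o := by
  unfold winding pullO prj
  refine Finset.sum_congr rfl fun j _ => ?_
  rw [map_zero]

theorem writhe_pull [NeZero N] [NeZero M] (h : N ∣ M) {r : ℕ} (hr : M = r * N)
    (w : ZMod N → Letter n) (o : Pt N n → ℤˣ) :
    writhe (pullW h w) (pullO h o) = r * writhe w o := by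
  have := sum_pull h hr (fun t => (w t).kind.sgn * (o (t, (w t).place.castSucc) : ℤ) *
    (o (t, (w t).place.succ) : ℤ))
  rw [nsmul_eq_mul] at this
  exact this

/-! ### Parity -/

theorem neg_pow_parity {a b : ℕ} (h : (-1 : ℤˣ) ^ a = (-1) ^ b) : a % 2 = b % 2 := by
  rcases Nat.even_or_odd a with ha | ha <;> rcases Nat.even_or_odd b with hb | hb
  · rw [Nat.even_iff.mp ha, Nat.even_iff.mp hb]
  · rw [ha.neg_one_pow, hb.neg_one_pow] at h
    exact absurd h (by decide)
  · rw [ha.neg_one_pow, hb.neg_one_pow] at h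
    exact absurd h (by decide)
  · rw [Nat.odd_iff.mp ha, Nat.odd_iff.mp hb]

/-- The exponent of a join. -/
def sg : Kind → Join → ℤ
  | .pos, .straight => 1
  | .pos, .turn => -1
  | .neg, .straight => -1
  | .neg, .turn => 1
  | _, _ => 0

/-- The exponent of a state. -/
def expo [NeZero N] (w : ZMod N → Letter n) (c : ZMod N → Join) : ℤ := ∑ t, sg (w t).kind (c t)

/-- The residue of `expo + 2 ines` modulo `4`. -/
def base [NeZero N] (w : ZMod N → Letter n) : ℤ :=
  ∑ t, ((w t).kind.sgn + 2 * if (w t).kind = .turn then 1 else 0)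

theorem expo_mod [NeZero N] {w : ZMod N → Letter n} {c : ZMod N → Join} (hc : Valid w c) :
    (4 : ℤ) ∣ expo w c + 2 * ines w c - base w := by
  classical
  have h1 : (4 : ℤ) ∣ expo w c + 2 * (Finset.univ.filter fun t => c t = .turn).card - base w := by
    have h2 : ((Finset.univ.filter fun t => c t = .turn).card : ℤ) =
        ∑ t, if c t = .turn then 1 else 0 := by
      rw [Finset.card_filter]
      push_cast
      rfl
    rw [h2]
    unfold expo base
    rw [Finset.mul_sum, ← Finset.sum_add_distrib, ← Finset.sum_sub_distrib]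
    apply Finset.dvd_sum
    intro t _
    have h3 := hc.1 t
    have h4 := hc.2 t
    cases hk : (w t).kind <;> cases hct : c t <;> rw [hk, hct] at h4 <;> rw [hct] at h3 <;>
      simp [sg, Kind.sgn] at h3 h4 ⊢
  have h5 : ines w c % 2 = (Finset.univ.filter fun t => c t = .turn).card % 2 := by
    have h6 := neg_pow_parity (a := curves w c)
      (b := n + 1 + (Finset.univ.filter fun t => c t = .turn).card)
      (by rw [curves_state w hc.1, pow_add (-1 : ℤˣ) (n + 1)])
    have h7 := ess_parity (w := w) hc.1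
    have h8 := ines_add_ess (w := w) (c := c)
    omega
  omega

theorem writhe_mod [NeZero N] {w : ZMod N → Letter n} {o : Pt N n → ℤˣ} (hK : IsKnot w)
    (ho : IsOrientation w o) (hn : Even n) : (4 : ℤ) ∣ 3 * writhe w o - base w := by
  classical
  have h1 := card_crossings w o ho hK
  rw [hn.neg_one_pow] at h1
  have h2 := neg_pow_parity (b := 0) (by simpa using h1)
  set P := (Finset.univ.filter fun t => (w t).kind ≠ .turn ∧
      o (t, (w t).place.castSucc) = o (t, (w t).place.succ)) with hP
  set E := (Finset.univ.filter fun t => (w t).kind = .turn) with hE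
  have h3 : (P.card : ℤ) = ∑ t, if (w t).kind ≠ .turn ∧
      o (t, (w t).place.castSucc) = o (t, (w t).place.succ) then 1 else 0 := by
    rw [hP, Finset.card_filter]
    push_cast
    rfl
  have h4 : (E.card : ℤ) = ∑ t, if (w t).kind = .turn then 1 else 0 := by
    rw [hE, Finset.card_filter]
    push_cast
    rfl
  have h5 : (4 : ℤ) ∣ 3 * writhe w o - base w - 2 * P.card - 2 * E.card := by
    rw [h3, h4]
    unfold writhe base
    rw [Finset.mul_sum, Finset.mul_sum, Finset.mul_sum, ← Finset.sum_sub_distrib,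
      ← Finset.sum_sub_distrib, ← Finset.sum_sub_distrib]
    apply Finset.dvd_sum
    intro t _
    rcases unit_cases (o (t, (w t).place.castSucc)) with h6 | h6 <;>
      rcases unit_cases (o (t, (w t).place.succ)) with h7 | h7 <;>
        rw [h6, h7] <;> cases hk : (w t).kind <;> simp [Kind.sgn]
  omega

end Pool.Agent.Helper1.PK
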