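import Mathlib

/-!
# Counting the cycles of a permutation
-/

namespace Pool.Agent.Helper1.PK

open Equiv Equiv.Perm Function

variable {α : Type*} [Fintype α] [DecidableEq α]

/-- The number of cycles, fixed points included. -/
noncomputable def cyc (τ : Perm α) : ℕ := Nat.card (Quotient (SameCycle.setoid τ))

theorem cyc_eq (τ : Perm α) :
    cyc τ = Fintype.card {x // τ x = x} + τ.cycleFactorsFinset.card := by
  classical
  have hmem : ∀ c : τ.cycleFactorsFinset, ∃ x, x ∈ (c : Perm α).support := by
    intro c
    have hc := (mem_cycleFactorsFinset_iff.mp c.2).1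
    obtain ⟨x, hx, _⟩ := hc
    exact ⟨x, mem_support.mpr hx⟩
  choose pt hpt using hmem
  have hcyc : ∀ c : τ.cycleFactorsFinset, τ.cycleOf (pt c) = c := by
    intro c
    exact ((cycle_is_cycleOf (hpt c) c.2)).symm
  have hsupp : ∀ c : τ.cycleFactorsFinset, τ (pt c) ≠ pt c := by
    intro c
    have := mem_cycleFactorsFinset_support_le c.2 (hpt c)
    exact mem_support.mp this
  let F : {x // τ x = x} ⊕ τ.cycleFactorsFinset → Quotient (SameCycle.setoid τ) :=
    Sum.elim (fun x => Quotient.mk _ x.1) (fun c => Quotient.mk _ (pt c))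
  have hF : Function.Bijective F := by
    constructor
    · rintro (x | c) (y | d) h
      · have h' : τ.SameCycle x.1 y.1 := Quotient.exact h
        obtain ⟨i, hi⟩ := h'
        have : (τ ^ i) x.1 = x.1 := by
          have hx : IsFixedPt τ x.1 := x.2
          exact zpow_apply_eq_self_of_apply_eq_self x.2 i
        rw [this] at hi
        exact congrArg Sum.inl (Subtype.ext hi)
      · have h' : τ.SameCycle x.1 (pt d) := Quotient.exact h
        exact absurd ((h'.apply_eq_self_iff).mp x.2) (hsupp d)
      · have h' : τ.SameCycle (pt c) y.1 := Quotient.exact h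
        exact absurd ((h'.apply_eq_self_iff).mpr y.2) (hsupp c)
      · have h' : τ.SameCycle (pt c) (pt d) := Quotient.exact h
        have := h'.cycleOf_eq
        rw [hcyc, hcyc] at this
        exact congrArg Sum.inr (Subtype.ext this)
    · intro q
      induction q using Quotient.inductionOn with
      | h y =>
        by_cases hy : τ y = y
        · exact ⟨Sum.inl ⟨y, hy⟩, rfl⟩
        · have hc : τ.cycleOf y ∈ τ.cycleFactorsFinset :=
            cycleOf_mem_cycleFactorsFinset_iff.mpr (mem_support.mpr hy)
          refine ⟨Sum.inr ⟨τ.cycleOf y, hc⟩, ?_⟩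
          apply Quotient.sound
          show τ.SameCycle (pt ⟨τ.cycleOf y, hc⟩) y
          have := hpt ⟨τ.cycleOf y, hc⟩
          exact ((mem_support_cycleOf_iff.mp this).1).symm
  unfold cyc
  rw [← Nat.card_congr (Equiv.ofBijective F hF), Nat.card_sum, Nat.card_eq_fintype_card,
    Nat.card_eq_fintype_card, Fintype.card_coe]

theorem sign_eq_cyc (τ : Perm α) : sign τ = (-1) ^ (Fintype.card α + cyc τ) := by
  classical
  have h1 : Fintype.card {x // τ x = x} + τ.support.card = Fintype.card α := by
    have : τ.support.card = Fintype.card {x // ¬ τ x = x} := by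
      rw [Fintype.card_subtype]
      rfl
    rw [this, Fintype.card_subtype, Fintype.card_subtype]
    exact Finset.card_filter_add_card_filter_not _
  rw [sign_of_cycleType, sum_cycleType, cyc_eq]
  have h2 : Multiset.card τ.cycleType = τ.cycleFactorsFinset.card := by
    simp [cycleType]
  rw [h2, ← h1]
  have : Fintype.card {x // τ x = x} + τ.support.card + (Fintype.card {x // τ x = x} +
    τ.cycleFactorsFinset.card) = τ.support.card + τ.cycleFactorsFinset.card +
      2 * Fintype.card {x // τ x = x} := by ring
  rw [this, pow_add _ _ (2 * _), pow_mul]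
  simp

omit [DecidableEq α] in
theorem pos_minimalPeriod (τ : Perm α) (x : α) : 0 < minimalPeriod τ x :=
  minimalPeriod_pos_of_mem_periodicPts (τ.injective.mem_periodicPts x)

theorem orbit_eq_image (τ : Perm α) (y : α) [DecidablePred fun x => τ.SameCycle y x] :
    (Finset.univ.filter fun x => τ.SameCycle y x) =
      (Finset.range (minimalPeriod τ y)).image (fun i => τ^[i] y) := by
  ext x
  simp only [Finset.mem_filter, Finset.mem_univ, true_and, Finset.mem_image, Finset.mem_range]
  constructor
  · intro h
    obtain ⟨i, hi⟩ := h.exists_nat_pow_eq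
    refine ⟨i % minimalPeriod τ y, Nat.mod_lt _ (pos_minimalPeriod τ y), ?_⟩
    rw [iterate_mod_minimalPeriod_eq, ← hi, Perm.iterate_eq_pow]
  · rintro ⟨i, _, rfl⟩
    rw [Perm.iterate_eq_pow]
    exact sameCycle_pow_right.mpr (SameCycle.refl _ _)

theorem sum_orbit {β : Type*} [AddCommMonoid β] (τ : Perm α) (y : α) (h : α → β)
    [DecidablePred fun x => τ.SameCycle y x] :
    ∑ x with τ.SameCycle y x, h x = ∑ i ∈ Finset.range (minimalPeriod τ y), h (τ^[i] y) := by
  rw [orbit_eq_image, Finset.sum_image]
  intro i hi j hj hij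
  exact iterate_injOn_Iio_minimalPeriod (by simpa using hi) (by simpa using hj) hij

omit [DecidableEq α] in
theorem minimalPeriod_eq_of_sameCycle {τ : Perm α} {x y : α} (h : τ.SameCycle x y) :
    minimalPeriod τ x = minimalPeriod τ y := by
  obtain ⟨i, hi⟩ := h.exists_nat_pow_eq
  rw [← hi, ← Perm.iterate_eq_pow]
  exact (minimalPeriod_apply_iterate (τ.injective.mem_periodicPts x) i).symm

variable {Q : Type*} {cls : α → Q} {τ : Perm α}

omit [Fintype α] [DecidableEq α] in
theorem card_eq_cyc (hs : Surjective cls) (hc : ∀ x y, cls x = cls y ↔ τ.SameCycle x y) :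
    Nat.card Q = cyc τ := by
  unfold cyc
  refine Nat.card_congr (Equiv.ofBijective (Quotient.lift cls fun x y h => (hc x y).mpr h)
    ⟨?_, ?_⟩).symm
  · intro a b
    induction a using Quotient.inductionOn with
    | h x =>
      induction b using Quotient.inductionOn with
      | h y =>
        intro h
        exact Quotient.sound ((hc x y).mp h)
  · intro q
    obtain ⟨x, hx⟩ := hs q
    exact ⟨Quotient.mk _ x, hx⟩

theorem sum_div_period [Fintype Q] [DecidableEq Q] (hs : Surjective cls)
    (hc : ∀ x y, cls x = cls y ↔ τ.SameCycle x y) (g : Q → ℚ) :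
    ∑ x, g (cls x) / (minimalPeriod τ x : ℚ) = ∑ q, g q := by
  classical
  rw [← Finset.sum_fiberwise (s := Finset.univ) (g := cls)]
  refine Finset.sum_congr rfl fun q _ => ?_
  obtain ⟨y, rfl⟩ := hs q
  have hfib : ∀ x ∈ Finset.univ.filter (fun x => cls x = cls y),
      g (cls x) / (minimalPeriod τ x : ℚ) = g (cls y) / (minimalPeriod τ y : ℚ) := by
    intro x hx
    have hx' := (Finset.mem_filter.mp hx).2
    rw [hx', minimalPeriod_eq_of_sameCycle ((hc x y).mp hx')]
  rw [Finset.sum_congr rfl hfib, Finset.sum_const, nsmul_eq_mul]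
  have hcard : (Finset.univ.filter fun x => cls x = cls y).card = minimalPeriod τ y := by
    have h1 : (Finset.univ.filter fun x => cls x = cls y) =
        Finset.univ.filter fun x => τ.SameCycle y x := by
      ext x
      simp only [Finset.mem_filter, Finset.mem_univ, true_and]
      rw [hc]
      exact sameCycle_comm
    have h2 := sum_orbit τ y (fun _ => 1)
    simp only [Finset.sum_const, smul_eq_mul, mul_one, Finset.card_range] at h2
    rw [h1, h2]
  rw [hcard]
  have : (minimalPeriod τ y : ℚ) ≠ 0 := by
    have := pos_minimalPeriod τ y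
    positivity
  field_simp

end Pool.Agent.Helper1.PK
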