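import Pool.Agent.Helper1.PK.Web

/-!
# The parity of the number of curves
-/

namespace Pool.Agent.Helper1.PK

open Equiv Equiv.Perm Function

variable {N n : ℕ}

/-- The strands at which a letter acts. -/
def At (a : Fin n) (j : Fin (n + 1)) : Prop := j = a.castSucc ∨ j = a.succ

instance (a : Fin n) (j : Fin (n + 1)) : Decidable (At a j) := by unfold At; infer_instance

theorem swap_at {a : Fin n} {j : Fin (n + 1)} : At a (Equiv.swap a.castSucc a.succ j) ↔ At a j := by
  unfold At
  constructor
  · rintro (h | h)
    · right
      have := congrArg (Equiv.swap a.castSucc a.succ) h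
      simpa using this
    · left
      have := congrArg (Equiv.swap a.castSucc a.succ) h
      simpa using this
  · rintro (rfl | rfl) <;> simp

theorem swap_not_at {a : Fin n} {j : Fin (n + 1)} (h : ¬ At a j) :
    Equiv.swap a.castSucc a.succ j = j := by
  unfold At at h
  push Not at h
  exact Equiv.swap_apply_of_ne_of_ne h.1 h.2

theorem castSucc_ne_succ (a : Fin n) : a.castSucc ≠ a.succ := by
  intro h
  have := congrArg Fin.val h
  simp at this

theorem partner_at {a : Fin n} {c : Join} {e : End n} : At a (partner a c e).2 ↔ At a e.2 := by
  obtain ⟨b, j⟩ := e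
  cases c
  · simp [partner]
  · simp [partner, swap_at]
  · by_cases h : j = a.castSucc ∨ j = a.succ
    · simp only [partner, h, if_true]
      exact swap_at
    · simp [partner, h]

theorem partner_not_at {a : Fin n} {c : Join} {e : End n} (h : ¬ At a e.2) :
    partner a c e = (!e.1, e.2) := by
  obtain ⟨b, j⟩ := e
  cases c
  · simp [partner]
  · simp [partner, swap_not_at h]
  · have h' : ¬ (j = a.castSucc ∨ j = a.succ) := h
    simp only [partner]
    rw [if_neg h']

theorem partner_ne {a : Fin n} {c c' : Join} (hcc : c ≠ c') {e : End n} (h : At a e.2) :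
    partner a c e ≠ partner a c' e := by
  obtain ⟨b, j⟩ := e
  have hne := castSucc_ne_succ a
  rcases h with h | h <;> simp only at h <;> subst h <;> cases c <;> cases c' <;>
    simp [partner, hne, hne.symm] at hcc ⊢

/-- The parity of the number of curves changes with the join at one letter. -/
theorem sign_switch [NeZero N] {w : ZMod N → Letter n} {c c' : ZMod N → Join} {o : Pt N n → ℤˣ}
    (hc : Compat w c o) (hc' : Compat w c' o) {t₀ : ZMod N} (h0 : c t₀ ≠ c' t₀)
    (h1 : ∀ t, t ≠ t₀ → c t = c' t) : sign (tau hc') = -sign (tau hc) := by
  classical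
  set a := (w t₀).place with ha
  let F : Finset (End n) :=
    {(false, a.castSucc), (false, a.succ), (true, a.castSucc), (true, a.succ)}
  have hF : ∀ e : End n, e ∈ F ↔ At a e.2 := by
    rintro ⟨b, j⟩
    cases b <;> simp [F, At]
  have hF4 : F.card ≤ 4 := Finset.card_le_four
  let S := F.filter (fun e => flow o t₀ e = 1)
  have hS : S.card ≤ 2 := by
    have h2 : S.card ≤ (F.filter (fun e => ¬ flow o t₀ e = 1)).card := by
      apply Finset.card_le_card_of_injOn (partner a (c t₀))
      · intro e he
        simp only [S, Finset.coe_filter, Set.mem_ofPred_eq] at he ⊢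
        refine ⟨(hF _).mpr (partner_at.mpr ((hF _).mp he.1)), ?_⟩
        have := hc t₀ e
        rw [he.2] at this
        rw [ha, this]
        decide
      · intro e _ e' _ hee
        have := congrArg (partner a (c t₀)) hee
        simpa [partner_partner] using this
    have h3 := Finset.card_filter_add_card_filter_not (s := F) (fun e => flow o t₀ e = 1)
    have h4 : S.card = (F.filter (fun e => flow o t₀ e = 1)).card := rfl
    omega
  set τ := tau hc with hτ
  set τ' := tau hc' with hτ'
  -- the points at which the two permutations differ
  have hD : ∀ x, τ x ≠ τ' x → ∃ e ∈ S, x = point t₀ e := by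
    intro x hx
    refine ⟨(fwd o x).2, ?_, ?_⟩
    · have ht : (fwd o x).1 = t₀ := by
        by_contra hne
        apply hx
        show pt (adj w c (fwd o x)) = pt (adj w c' (fwd o x))
        simp only [adj, h1 _ hne]
      have hat : At a (fwd o x).2.2 := by
        by_contra hne
        apply hx
        show pt (adj w c (fwd o x)) = pt (adj w c' (fwd o x))
        simp only [adj, ht]
        rw [partner_not_at hne, partner_not_at hne]
      simp only [S, Finset.mem_filter]
      refine ⟨(hF _).mpr hat, ?_⟩
      have := fl_fwd o x
      unfold fl at this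
      rwa [ht] at this
    · have ht : (fwd o x).1 = t₀ := by
        by_contra hne
        apply hx
        show pt (adj w c (fwd o x)) = pt (adj w c' (fwd o x))
        simp only [adj, h1 _ hne]
      have := pt_fwd o x
      unfold pt at this
      rw [ht] at this
      exact this.symm
  have hne : ∃ x, τ x ≠ τ' x := by
    -- an end of the letter with flow one
    obtain ⟨e, he, hfe⟩ : ∃ e : End n, At a e.2 ∧ flow o t₀ e = 1 := by
      rcases unit_cases (flow o t₀ (false, a.castSucc)) with h | h
      · exact ⟨_, Or.inl rfl, h⟩
      · refine ⟨partner a (c t₀) (false, a.castSucc), partner_at.mpr (Or.inl rfl), ?_⟩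
        have := hc t₀ (false, a.castSucc)
        rw [← ha, h] at this
        rw [this]
        decide
    refine ⟨point t₀ e, ?_⟩
    have hfw : fwd o (point t₀ e) = (t₀, e) := fwd_pt (h := (t₀, e)) hfe
    intro heq
    have heq' : pt (adj w c (t₀, e)) = pt (adj w c' (t₀, e)) := by
      have h5 : pt (adj w c (fwd o (point t₀ e))) = pt (adj w c' (fwd o (point t₀ e))) := heq
      rwa [hfw] at h5
    have h6 : fl o (adj w c (t₀, e)) = -1 := by
      rw [fl_adj hc]
      exact congrArg _ hfe
    have h7 : fl o (adj w c' (t₀, e)) = -1 := by
      rw [fl_adj hc']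
      exact congrArg _ hfe
    have h8 : adj w c (t₀, e) = adj w c' (t₀, e) := by
      rw [← bwd_pt h6, heq', bwd_pt h7]
    have h9 : partner a (c t₀) e = partner a (c' t₀) e := congrArg Prod.snd h8
    exact partner_ne h0 he h9
  set π := τ' * τ⁻¹ with hπ
  have hsupp : π.support ⊆ S.image (fun e => τ (point t₀ e)) := by
    intro y hy
    rw [Perm.mem_support] at hy
    have hy' : τ (τ⁻¹ y) ≠ τ' (τ⁻¹ y) := by
      intro h
      apply hy
      have : τ (τ⁻¹ y) = y := τ.apply_symm_apply y
      rw [this] at h
      exact h.symm
    obtain ⟨e, he, hye⟩ := hD _ hy'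
    refine Finset.mem_image.mpr ⟨e, he, ?_⟩
    rw [← hye]
    exact τ.apply_symm_apply y
  have hcard : π.support.card ≤ 2 :=
    (Finset.card_le_card hsupp).trans (Finset.card_image_le.trans hS)
  have hπ1 : π ≠ 1 := by
    intro h
    obtain ⟨x, hx⟩ := hne
    apply hx
    have h2 : π (τ x) = τ x := by rw [h]; rfl
    have h3 : π (τ x) = τ' x := by
      show τ' (τ⁻¹ (τ x)) = τ' x
      congr 1
      exact τ.symm_apply_apply x
    rw [← h2, h3]
  have hcard2 : π.support.card = 2 := by
    have h2 : π.support.card ≠ 1 := card_support_ne_one π
    have h3 : π.support.card ≠ 0 := by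
      intro h
      exact hπ1 (card_support_eq_zero.mp h)
    omega
  have hs : sign π = -1 := (card_support_eq_two.mp hcard2).sign_eq
  have h4 : sign π = sign τ' * sign τ := by
    rw [hπ, Perm.sign_mul, Perm.sign_inv]
  rw [h4] at hs
  rcases unit_cases (sign τ) with h | h <;> rw [h] at hs ⊢
  · simpa using hs
  · simpa using hs

theorem curves_switch [NeZero N] {w : ZMod N → Letter n} {c c' : ZMod N → Join} {o : Pt N n → ℤˣ}
    (hc : Compat w c o) (hc' : Compat w c' o) {t₀ : ZMod N} (h0 : c t₀ ≠ c' t₀)
    (h1 : ∀ t, t ≠ t₀ → c t = c' t) : (-1 : ℤˣ) ^ curves w c' = -(-1) ^ curves w c := by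
  have h := sign_switch hc hc' h0 h1
  rw [sign_tau, sign_tau, pow_add, pow_add, ← mul_neg] at h
  exact mul_left_cancel h

/-- The parity of the number of curves, for joins with a common orientation. -/
theorem curves_parity [NeZero N] {w : ZMod N → Letter n} {c c' : ZMod N → Join}
    {o : Pt N n → ℤˣ} (hc : Compat w c o) (hc' : Compat w c' o) :
    (-1 : ℤˣ) ^ curves w c' =
      (-1) ^ curves w c * (-1) ^ (Finset.univ.filter fun t => c t ≠ c' t).card := by
  classical
  have key : ∀ s : Finset (ZMod N),
      (-1 : ℤˣ) ^ curves w (fun t => if t ∈ s then c' t else c t) =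
        (-1) ^ curves w c * (-1) ^ (s.filter fun t => c t ≠ c' t).card := by
    intro s
    induction s using Finset.induction_on with
    | empty => simp
    | insert t s hts ih =>
      have hcs : ∀ s : Finset (ZMod N), Compat w (fun t => if t ∈ s then c' t else c t) o := by
        intro s t e
        by_cases h : t ∈ s
        · simp only [h, if_true]
          exact hc' t e
        · simp only [h, if_false]
          exact hc t e
      by_cases hct : c t = c' t
      · have h1 : (fun t' => if t' ∈ insert t s then c' t' else c t') =
            fun t' => if t' ∈ s then c' t' else c t' := by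
          funext t'
          by_cases h : t' = t
          · subst h
            simp [hts, hct]
          · simp [h]
        rw [h1, ih, Finset.filter_insert, if_neg (by simpa using hct)]
      · have h2 := curves_switch (hcs s) (hcs (insert t s)) (t₀ := t) (by simpa [hts] using hct)
          (by
            intro t' h
            simp [h])
        rw [h2, ih, Finset.filter_insert, if_pos (by simpa using hct),
          Finset.card_insert_of_notMem (by simp [hts]), pow_succ]
        simp
  have := key Finset.univ
  simpa using this

end Pool.Agent.Helper1.PK
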