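import Pool.Agent.Helper1.PK.Final

/-!
# Quotients of a periodic knot with trivial Jones polynomial
-/

namespace Pool.Agent.Helper1.PK

open LaurentPolynomial

variable {N M n : ℕ}

/-- The `r`-th power of a cyclic word: the word repeated `r` times. -/
def power (r : ℕ) (w : ZMod N → Letter n) : ZMod (r * N) → Letter n :=
  fun t => w ((t.val : ℕ) : ZMod N)

theorem power_eq [NeZero N] {r : ℕ} [NeZero (r * N)] (w : ZMod N → Letter n)
    (h : N ∣ r * N) : power r w = pullW h w := by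
  funext t
  unfold power pullW
  congr 1
  conv_rhs => rw [← ZMod.natCast_zmod_val t]
  rw [map_natCast]

/-- A Laurent polynomial with two distinct roots `a`, `b` takes at `c` a value divisible by
`(c - a) (c - b)`. -/
theorem two_roots' {B : Type*} [CommRing B] [IsDomain B] (L : B[T;T⁻¹]) (a b c : Bˣ)
    (hab : (a : B) ≠ b) (ha : evU a L = 0) (hb : evU b L = 0) :
    ((c : B) - (a : B)) * (c - b) ∣ evU c L := by
  obtain ⟨m, f, hf⟩ := exists_T_pow L
  have key : ∀ u : Bˣ, f.eval (u : B) = evU u L * ((u ^ (m : ℤ) : Bˣ) : B) := by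
    intro u
    rw [← evU_toLaurent, hf, map_mul, evU_T]
  have h1 : f.eval (a : B) = 0 := by rw [key, ha, zero_mul]
  have h2 : f.eval (b : B) = 0 := by rw [key, hb, zero_mul]
  obtain ⟨g, hg⟩ := Polynomial.dvd_iff_isRoot.mpr h1
  have h3 : g.eval (b : B) = 0 := by
    rw [hg, Polynomial.eval_mul] at h2
    rcases mul_eq_zero.mp h2 with h | h
    · exfalso
      simp only [Polynomial.eval_sub, Polynomial.eval_X, Polynomial.eval_C] at h
      exact hab (sub_eq_zero.mp h).symm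
    · exact h
  obtain ⟨g', hg'⟩ := Polynomial.dvd_iff_isRoot.mpr h3
  have h4 : ((c : B) - (a : B)) * (c - b) ∣ evU c L * ((c ^ (m : ℤ) : Bˣ) : B) := by
    rw [← key c, hg, hg']
    refine ⟨g'.eval (c : B), ?_⟩
    simp only [Polynomial.eval_mul, Polynomial.eval_sub, Polynomial.eval_X, Polynomial.eval_C]
    ring
  exact (Units.dvd_mul_right).mp h4

section Red

variable (p : ℕ) [Fact p.Prime]

theorem red_surj : Function.Surjective (red p) := by
  intro G
  induction G using LaurentPolynomial.induction_on' with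
  | add f g hf hg =>
    obtain ⟨F, rfl⟩ := hf
    obtain ⟨F', rfl⟩ := hg
    exact ⟨F + F', map_add _ _ _⟩
  | C_mul_T n a =>
    refine ⟨C ((a.val : ℕ) : ℤ) * T n, ?_⟩
    rw [map_mul, red_C, red_T]
    congr 1
    rw [Int.cast_natCast, ← map_natCast (C : ZMod p →+* (ZMod p)[T;T⁻¹]), ZMod.natCast_zmod_val]

theorem red_toLaurent (f : Polynomial ℤ) :
    red p (Polynomial.toLaurent f) = Polynomial.toLaurent (f.map (Int.castRingHom (ZMod p))) := by
  induction f using Polynomial.induction_on' with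
  | add f g hf hg => rw [map_add, map_add, hf, hg, Polynomial.map_add, map_add]
  | monomial n a =>
    rw [Polynomial.map_monomial, ← Polynomial.C_mul_X_pow_eq_monomial,
      ← Polynomial.C_mul_X_pow_eq_monomial, Polynomial.toLaurent_C_mul_X_pow,
      Polynomial.toLaurent_C_mul_X_pow, map_mul, red_C, red_T]
    congr 1

theorem red_ker {F : ℤ[T;T⁻¹]} (h : red p F = 0) : (p : ℤ[T;T⁻¹]) ∣ F := by
  obtain ⟨m, f, hf⟩ := exists_T_pow F
  have h1 : red p (Polynomial.toLaurent f) = 0 := by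
    rw [hf, map_mul, h, zero_mul]
  rw [red_toLaurent] at h1
  have h2 := Polynomial.toLaurent_eq_zero.mp h1
  have h3 : Polynomial.C (p : ℤ) ∣ f := by
    rw [Polynomial.C_dvd_iff_dvd_coeff]
    intro j
    have h4 := congrArg (fun g : Polynomial (ZMod p) => g.coeff j) h2
    simp only [Polynomial.coeff_map, Polynomial.coeff_zero] at h4
    exact (ZMod.intCast_zmod_eq_zero_iff_dvd _ p).mp h4
  obtain ⟨g, hg⟩ := h3
  have h5 : F = (p : ℤ[T;T⁻¹]) * (Polynomial.toLaurent g * T (-(m : ℤ))) := by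
    have h6 : F * T m = (p : ℤ[T;T⁻¹]) * Polynomial.toLaurent g := by
      rw [← hf, hg, map_mul]
      simp
    calc F = F * T m * T (-(m : ℤ)) := by rw [mul_assoc, ← T_add]; simp
      _ = _ := by rw [h6]; ring
  exact ⟨_, h5⟩

/-- From a divisibility modulo `p` to a congruence over the integers. -/
theorem lift_dvd {F G : ℤ[T;T⁻¹]} (h : red p F ∣ red p G) :
    ∃ X Y : ℤ[T;T⁻¹], G = F * X + (p : ℤ[T;T⁻¹]) * Y := by
  obtain ⟨Z, hZ⟩ := h
  obtain ⟨X, rfl⟩ := red_surj p Z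
  have h1 : red p (G - F * X) = 0 := by
    rw [map_sub, map_mul, hZ, sub_self]
  obtain ⟨Y, hY⟩ := red_ker p h1
  exact ⟨X, Y, by rw [← hY]; ring⟩

end Red

section Value

variable {p : ℕ} [Fact p.Prime] {k : ℕ}

/-- The value of the two-variable state sum at `z = A^(4 p^k)`. -/
theorem value [NeZero N] [NeZero M] (h : N ∣ M) (hM : M = p ^ k * N)
    (w : ZMod N → Letter n) {o : Pt M n → ℤˣ} {o' : Pt N n → ℤˣ} (hoo : o = pullO h o')
    {g : ℤ} (hg : 3 * writhe w o' - base w = 4 * g) (κ : ℤˣ) :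
    evU (tU (ZMod p) (4 * (p ^ k : ℕ))) (LL p w κ g) =
      T (4 * (p ^ k : ℕ) * g) * dl p *
        (((((-1 : ℤˣ) ^ writhe (pullW h w) o : ℤˣ) : ℤ) : (ZMod p)[T;T⁻¹]) *
          red p (normalized (pullW h w) o) - ((κ : ℤ) : (ZMod p)[T;T⁻¹])) := by
  classical
  set κ' : ℤˣ := (-1) ^ writhe (pullW h w) o with hκ
  have hκ2 : (((κ' : ℤ) : (ZMod p)[T;T⁻¹])) * ((κ' : ℤ) : (ZMod p)[T;T⁻¹]) = 1 := by
    rw [← Int.cast_mul, ← Units.val_mul, Int.units_mul_self]
    simp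
  have hw : writhe (pullW h w) o = (p ^ k : ℕ) * writhe w o' := by
    rw [hoo]
    exact writhe_pull h hM w o'
  have h1 : red p (bracket (pullW h w)) = ((κ' : ℤ) : (ZMod p)[T;T⁻¹]) *
      T (3 * writhe (pullW h w) o) * red p (normalized (pullW h w) o) := by
    unfold normalized
    rw [map_mul, map_mul, red_C, red_T, ← hκ]
    have e1 : (T (3 * writhe (pullW h w) o) * T (-3 * writhe (pullW h w) o) :
        (ZMod p)[T;T⁻¹]) = 1 := by
      rw [← T_add]
      simp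
    calc red p (bracket (pullW h w))
        = (((κ' : ℤ) : (ZMod p)[T;T⁻¹]) * ((κ' : ℤ) : (ZMod p)[T;T⁻¹])) *
          (T (3 * writhe (pullW h w) o) * T (-3 * writhe (pullW h w) o)) *
            red p (bracket (pullW h w)) := by rw [hκ2, e1]; ring
      _ = _ := by ring
  have h2 := bracket_mod (p := p) (k := k) h hM w
  rw [h1] at h2
  have h3 : ∀ c : ZMod N → Join, (if Valid w c then
        T ((p ^ k : ℕ) * expo w c) * (dl p ^ (p ^ k)) ^ ines w c * dl p ^ ess w c else 0) =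
      T ((p ^ k : ℕ) * base w) * (if Valid w c then
        dl p ^ ess w c * (T (4 * (p ^ k : ℕ) * uu w (ines w c) (expo w c)) *
          (-1 - T (-(4 * (p ^ k : ℕ)))) ^ ines w c) else 0) := by
    intro c
    by_cases hv : Valid w c
    · rw [if_pos hv, if_pos hv, dl_pow_char, mul_pow, T_pow]
      have e1 : (T ((p ^ k : ℕ) * expo w c) * T (ines w c * (2 * (p ^ k : ℕ))) : (ZMod p)[T;T⁻¹]) =
          T ((p ^ k : ℕ) * base w) * T (4 * (p ^ k : ℕ) * uu w (ines w c) (expo w c)) := by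
        rw [← T_add, ← T_add]
        congr 1
        have := four_uu hv
        linear_combination ((p ^ k : ℕ) : ℤ) * this
      rw [← mul_assoc (T ((p ^ k : ℕ) * expo w c)), e1]
      ring
    · rw [if_neg hv, if_neg hv, mul_zero]
  rw [Finset.sum_congr rfl fun c _ => h3 c, ← Finset.mul_sum] at h2
  have h4 : (T (3 * writhe (pullW h w) o) : (ZMod p)[T;T⁻¹]) =
      T ((p ^ k : ℕ) * base w) * T (4 * (p ^ k : ℕ) * g) := by
    rw [← T_add, hw]
    congr 1
    linear_combination ((p ^ k : ℕ) : ℤ) * hg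
  rw [h4] at h2
  have h5 : (T ((p ^ k : ℕ) * base w) : (ZMod p)[T;T⁻¹]) ≠ 0 := (isUnit_T _).ne_zero
  have h6 : T ((p ^ k : ℕ) * base w) * (((κ' : ℤ) : (ZMod p)[T;T⁻¹]) * dl p *
      T (4 * (p ^ k : ℕ) * g) * red p (normalized (pullW h w) o)) = T ((p ^ k : ℕ) * base w) *
      ∑ c : ZMod N → Join, (if Valid w c then
        dl p ^ ess w c * (T (4 * (p ^ k : ℕ) * uu w (ines w c) (expo w c)) *
          (-1 - T (-(4 * (p ^ k : ℕ)))) ^ ines w c) else 0) := by
    rw [← h2]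
    ring
  have h7 := mul_left_cancel₀ h5 h6
  rw [evU_LL]
  simp only [tU_zpow_val]
  have h8 : (∑ c : ZMod N → Join, (if Valid w c then
        dl p ^ ess w c * (T (4 * (p ^ k : ℕ) * uu w (ines w c) (expo w c)) *
          (-1 - T (4 * (p ^ k : ℕ) * -1)) ^ ines w c) else 0)) =
      ((κ' : ℤ) : (ZMod p)[T;T⁻¹]) * dl p *
      T (4 * (p ^ k : ℕ) * g) * red p (normalized (pullW h w) o) := by
    rw [h7]
    refine Finset.sum_congr rfl fun c _ => ?_
    split_ifs
    · congr 3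
      ring_nf
    · rfl
  rw [h8]
  ring

theorem sign_cast (x : ℤ) {r s : ℕ} (hr : ∃ k, r = p ^ k) (hs : ∃ k, s = p ^ k) :
    (((((-1 : ℤˣ) ^ ((r : ℤ) * x) : ℤˣ) : ℤ) : (ZMod p)[T;T⁻¹])) =
      ((((-1 : ℤˣ) ^ ((s : ℤ) * x) : ℤˣ) : ℤ) : (ZMod p)[T;T⁻¹]) := by
  have hp : p.Prime := Fact.out
  by_cases h2 : p = 2
  · subst h2
    have key : ∀ u : ℤˣ, ((u : ℤ) : (ZMod 2)[T;T⁻¹]) = 1 := by
      intro u
      rcases unit_cases u with h | h
      · rw [h]
        simp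
      · rw [h]
        have h3 : ((-1 : ℤ) : (ZMod 2)[T;T⁻¹]) = C ((-1 : ℤ) : ZMod 2) := by
          rw [map_intCast]
        have h4 : ((-1 : ℤ) : ZMod 2) = 1 := by
          have : ((1 : ℤ) : ZMod 2) = ((-1 : ℤ) : ZMod 2) :=
            (ZMod.intCast_eq_intCast_iff _ _ 2).mpr (by decide)
          rw [← this]
          simp
        rw [Units.val_neg, Units.val_one, h3, h4, map_one]
    rw [key, key]
  · have hpo : Odd p := hp.odd_of_ne_two h2
    have ho : ∀ r : ℕ, (∃ k, r = p ^ k) → Odd (r : ℤ) := by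
      rintro r ⟨k, rfl⟩
      exact_mod_cast hpo.pow
    have e : ∀ r : ℕ, (∃ k, r = p ^ k) → (-1 : ℤˣ) ^ ((r : ℤ) * x) = (-1 : ℤˣ) ^ x := by
      intro r hr
      rw [zpow_mul, (ho r hr).neg_one_zpow]
    rw [e r hr, e s hs]

theorem orientation_neg {w : ZMod N → Letter n} {o : Pt N n → ℤˣ} [NeZero N] :
    normalized w (-o) = normalized w o := by
  have h : writhe w (-o) = writhe w o := by
    unfold writhe
    refine Finset.sum_congr rfl fun t _ => ?_
    simp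
  unfold normalized
  rw [h]

theorem power_power [NeZero N] {r s : ℕ} [NeZero (r * N)] [NeZero (s * N)]
    (w : ZMod N → Letter n) (h : s * N ∣ r * N) : power r w = pullW h (power s w) := by
  rw [power_eq w (Dvd.intro_left r rfl), power_eq w (Dvd.intro_left s rfl)]
  funext t
  unfold pullW
  congr 1
  have : (ZMod.castHom (Dvd.intro_left r rfl : N ∣ r * N) (ZMod N)) =
      (ZMod.castHom (Dvd.intro_left s rfl : N ∣ s * N) (ZMod N)).comp
        (ZMod.castHom h (ZMod (s * N))) := Subsingleton.elim _ _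
  rw [this]
  rfl

/-- The quotients of a periodic knot with trivial bracket modulo `p`. -/
theorem quotient_main {i : ℕ} [NeZero N] {r s : ℕ} [NeZero (r * N)] [NeZero (s * N)]
    (hr : r = p ^ k) (hs : s = p ^ i) (hik : i < k) (w : ZMod N → Letter n)
    (hK : IsKnot (power r w)) (o : Pt (r * N) n → ℤˣ) (ho : IsOrientation (power r w) o)
    (hf : (p : ℤ[T;T⁻¹]) ∣ normalized (power r w) o - 1)
    (o' : Pt (s * N) n → ℤˣ) (ho' : IsOrientation (power s w) o') :
    ∃ X Y : ℤ[T;T⁻¹], (T 4 + 1) * (normalized (power s w) o' - 1) =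
      (T (4 * (r - s)) - 1) * (T (4 * (r + s)) - 1) * X + (p : ℤ[T;T⁻¹]) * Y := by
  classical
  have hp : p.Prime := Fact.out
  have h₁ : N ∣ r * N := Dvd.intro_left r rfl
  have h₂ : N ∣ s * N := Dvd.intro_left s rfl
  have h₃ : s * N ∣ r * N := by
    apply Nat.mul_dvd_mul_right
    rw [hr, hs]
    exact pow_dvd_pow p hik.le
  have hrN : r * N = p ^ k * N := by rw [hr]
  have hsN : s * N = p ^ i * N := by rw [hs]
  -- everything descends
  have hred : red p (normalized (power r w) o) = 1 := by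
    obtain ⟨Z, hZ⟩ := hf
    have := congrArg (red p) hZ
    rw [map_sub, map_one, map_mul, red_p, zero_mul] at this
    exact sub_eq_zero.mp this
  have hK₂ : IsKnot (power s w) := by
    rw [power_power w h₃] at hK
    exact knot_descend h₃ hK
  rw [power_eq w h₁] at hK ho hred
  rw [power_eq w h₂] at ho' hK₂ ⊢
  have hn := even_strands h₁ hrN (by omega) w o hred
  have hodd := odd_winding o hn
  have hw0 : winding o ≠ 0 := by
    intro h0
    rw [h0] at hodd
    exact absurd hodd (by decide)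
  obtain ⟨o₀, hoo, ho₀⟩ := orientation_descend h₁ hK ho hw0
  have hK₀ := knot_descend h₁ hK
  obtain ⟨g, hg⟩ := writhe_mod hK₀ ho₀ hn
  -- the orientation of the intermediate quotient
  have ho₂ : IsOrientation (pullW h₂ w) (pullO h₂ o₀) := compat_pull h₂ ho₀
  have hnorm : normalized (pullW h₂ w) o' = normalized (pullW h₂ w) (pullO h₂ o₀) := by
    rcases orientation_unique hK₂ ho' ho₂ with h | h
    · rw [h]
    · rw [h, orientation_neg]
  rw [hnorm]
  set κ : ℤˣ := (-1) ^ writhe (pullW h₁ w) o with hκ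
  have hκ2 : (((κ : ℤ) : (ZMod p)[T;T⁻¹])) * ((κ : ℤ) : (ZMod p)[T;T⁻¹]) = 1 := by
    rw [← Int.cast_mul, ← Units.val_mul, Int.units_mul_self]
    simp
  have hr1 : evU (tU (ZMod p) (4 * (p ^ k : ℕ))) (LL p w κ g) = 0 := by
    rw [value h₁ hrN w hoo hg κ, ← hκ, hred]
    ring
  have hr2 := main_identity' w κ g _ hr1
  have hpk : (0 : ℤ) < (p ^ k : ℕ) := by exact_mod_cast pow_pos hp.pos k
  have hne : ((tU (ZMod p) (4 * (p ^ k : ℕ)) : ((ZMod p)[T;T⁻¹])ˣ) : (ZMod p)[T;T⁻¹]) ≠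
      ((tU (ZMod p) (-(4 * (p ^ k : ℕ))) : ((ZMod p)[T;T⁻¹])ˣ) : (ZMod p)[T;T⁻¹]) := by
    intro hh
    rw [tU_val, tU_val] at hh
    have := T_inj hh
    omega
  have hdiv := two_roots' (LL p w κ g) _ _ (tU (ZMod p) (4 * (p ^ i : ℕ))) hne hr1 hr2
  rw [value h₂ hsN w rfl hg κ] at hdiv
  have hsign : ((((-1 : ℤˣ) ^ writhe (pullW h₂ w) (pullO h₂ o₀) : ℤˣ) : ℤ) : (ZMod p)[T;T⁻¹]) =
      ((κ : ℤ) : (ZMod p)[T;T⁻¹]) := by
    rw [hκ, hoo, writhe_pull h₁ rfl w o₀, writhe_pull h₂ rfl w o₀]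
    exact sign_cast _ ⟨i, hs⟩ ⟨k, hr⟩
  rw [hsign, tU_val, tU_val, tU_val] at hdiv
  -- rearrange
  apply lift_dvd p
  have e1 : (T (4 * (p ^ i : ℕ)) - T (4 * (p ^ k : ℕ)) : (ZMod p)[T;T⁻¹]) =
      -T (4 * (p ^ i : ℕ)) * (T (4 * ((p ^ k : ℕ) - (p ^ i : ℕ))) - 1) := by
    have : (T (4 * (p ^ i : ℕ)) * T (4 * ((p ^ k : ℕ) - (p ^ i : ℕ))) : (ZMod p)[T;T⁻¹]) =
        T (4 * (p ^ k : ℕ)) := by
      rw [← T_add]
      congr 1
      ring
    rw [mul_sub, neg_mul, this]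
    ring
  have e2 : (T (4 * (p ^ i : ℕ)) - T (-(4 * (p ^ k : ℕ))) : (ZMod p)[T;T⁻¹]) =
      T (-(4 * (p ^ k : ℕ))) * (T (4 * ((p ^ k : ℕ) + (p ^ i : ℕ))) - 1) := by
    have : (T (-(4 * (p ^ k : ℕ))) * T (4 * ((p ^ k : ℕ) + (p ^ i : ℕ))) : (ZMod p)[T;T⁻¹]) =
        T (4 * (p ^ i : ℕ)) := by
      rw [← T_add]
      congr 1
      ring
    rw [mul_sub, this]
    ring
  have e3 : dl p = -T (-2) * (T 4 + 1) := by
    unfold dl
    have : (T (-2) * T 4 : (ZMod p)[T;T⁻¹]) = T 2 := by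
      rw [← T_add]
      congr 1
    rw [mul_add, neg_mul, this]
    ring
  have e4 : ∀ a : ℤ, (T (-a) * T a : (ZMod p)[T;T⁻¹]) = 1 := by
    intro a
    rw [← T_add]
    simp
  simp only [map_mul, map_sub, map_add, map_one, red_T]
  obtain ⟨Z, hZ⟩ := hdiv
  rw [e1, e2, e3] at hZ
  have hr' : (r : ℤ) = (p ^ k : ℕ) := by rw [hr]
  have hs' : (s : ℤ) = (p ^ i : ℕ) := by rw [hs]
  rw [hr', hs']
  refine ⟨T (-(4 * (p ^ i : ℕ) * g)) * T 2 * ((κ : ℤ) : (ZMod p)[T;T⁻¹]) *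
    T (4 * (p ^ i : ℕ)) * T (-(4 * (p ^ k : ℕ))) * Z, ?_⟩
  have h10 : (T (-(4 * (p ^ i : ℕ) * g)) * T (4 * (p ^ i : ℕ) * g) : (ZMod p)[T;T⁻¹]) = 1 := e4 _
  have h11 : (T 2 * T (-2) : (ZMod p)[T;T⁻¹]) = 1 := by
    rw [← T_add]
    simp
  linear_combination (-(T (-(4 * (p ^ i : ℕ) * g)) * T 2 * ((κ : ℤ) : (ZMod p)[T;T⁻¹]))) * hZ -
    (T (-(4 * (p ^ i : ℕ) * g)) * T (4 * (p ^ i : ℕ) * g)) * (T 2 * T (-2)) * (T 4 + 1) *
      (red p (normalized (pullW h₂ w) (pullO h₂ o₀)) - 1) * hκ2 -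
    (T 2 * T (-2)) * (T 4 + 1) *
      (red p (normalized (pullW h₂ w) (pullO h₂ o₀)) - 1) * h10 -
    (T 4 + 1) * (red p (normalized (pullW h₂ w) (pullO h₂ o₀)) - 1) * h11

end Value

end Pool.Agent.Helper1.PK
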