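import Pool.Agent.Helper1.PK.Cover

/-!
# The state sum of a periodic diagram modulo a prime
-/

namespace Pool.Agent.Helper1.PK

open Equiv Equiv.Perm Function

variable {N M n : ℕ}

/-- In characteristic `p`, an invariant sum over a set with an action of a cyclic `p`-group is the
sum over the fixed points. -/
theorem sum_fixed {Ω : Type*} [Fintype Ω] [DecidableEq Ω] {R : Type*} [CommRing R] {p k : ℕ}
    [hp : Fact p.Prime] [CharP R p] (σ : Perm Ω) (hσ : σ ^ (p ^ k) = 1) (F : Ω → R)
    (hF : ∀ c, F (σ c) = F c) : ∑ c, F c = ∑ c with σ c = c, F c := by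
  classical
  have hcard : ∀ v : R, ((Finset.univ.filter fun c => F c = v).card : R) =
      ((Finset.univ.filter fun c => σ c = c ∧ F c = v).card : R) := by
    intro v
    let P : Ω → Prop := fun c => F c = v
    have hP : ∀ c, P c ↔ P (σ c) := by
      intro c
      simp only [P, hF]
    let τ : Perm {c // P c} := σ.subtypePerm fun c => (hP c).symm
    have hτ : τ ^ (p ^ k) = 1 := by
      have h1 : τ ^ (p ^ k) = (σ ^ (p ^ k)).subtypePerm
          (fun c => by rw [hσ]; rfl) := by
        exact Perm.subtypePerm_pow σ _ _
      rw [h1]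
      ext c
      simp [hσ]
    have h2 := Equiv.Perm.card_compl_support_modEq hτ
    have h3 : Fintype.card {c // P c} = (Finset.univ.filter fun c => F c = v).card := by
      rw [Fintype.card_subtype]
    have h4 : τ.supportᶜ.card = (Finset.univ.filter fun c => σ c = c ∧ F c = v).card := by
      apply Finset.card_bij (fun c _ => c.1)
      · intro c hc
        simp only [Finset.mem_filter, Finset.mem_univ, true_and]
        simp only [Finset.mem_compl, Perm.mem_support, not_not] at hc
        exact ⟨congrArg Subtype.val hc, c.2⟩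
      · intro c _ d _ h
        exact Subtype.ext h
      · intro c hc
        simp only [Finset.mem_filter, Finset.mem_univ, true_and] at hc
        refine ⟨⟨c, hc.2⟩, ?_, rfl⟩
        simp only [Finset.mem_compl, Perm.mem_support, not_not]
        exact Subtype.ext hc.1
    rw [h3, h4] at h2
    exact ((CharP.natCast_eq_natCast R p).mpr h2.symm)
  rw [← Finset.sum_fiberwise_of_maps_to (s := Finset.univ) (t := Finset.univ.image F) (g := F)
    (fun c _ => Finset.mem_image_of_mem F (Finset.mem_univ c))]
  rw [← Finset.sum_fiberwise_of_maps_to (s := Finset.univ.filter fun c => σ c = c)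
    (t := Finset.univ.image F) (g := F) (fun c _ => Finset.mem_image_of_mem F (Finset.mem_univ c))]
  refine Finset.sum_congr rfl fun v _ => ?_
  rw [Finset.sum_congr rfl (g := fun _ => v) (fun c hc => (Finset.mem_filter.mp hc).2)]
  rw [Finset.sum_congr (s₁ := (Finset.univ.filter fun c => σ c = c).filter fun c => F c = v) rfl
    (g := fun _ => v) (fun c hc => (Finset.mem_filter.mp hc).2)]
  rw [Finset.sum_const, Finset.sum_const, nsmul_eq_mul, nsmul_eq_mul, hcard, Finset.filter_filter]

/-- The shift of the joins by `N` slabs. -/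
def shift (N M : ℕ) : Perm (ZMod M → Join) where
  toFun c t := c (t + (N : ZMod M))
  invFun c t := c (t - (N : ZMod M))
  left_inv c := by
    funext t
    simp
  right_inv c := by
    funext t
    simp

theorem shift_pow (N M i : ℕ) (c : ZMod M → Join) (t : ZMod M) :
    ((shift N M) ^ i) c t = c (t + (i * N : ℕ)) := by
  induction i generalizing t c with
  | zero => simp
  | succ i ih =>
    rw [pow_succ, Perm.mul_apply, ih]
    show c (t + _ + _) = _
    congr 1
    push_cast
    ring

theorem castHom_add (h : N ∣ M) (t : ZMod M) (i : ℕ) :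
    ZMod.castHom h (ZMod N) (t + (i * N : ℕ)) = ZMod.castHom h (ZMod N) t := by
  rw [map_add, map_natCast]
  simp

theorem pullC_inj (h : N ∣ M) : Function.Injective (pullC h : (ZMod N → Join) → ZMod M → Join) := by
  intro c d hcd
  funext t
  obtain ⟨s, rfl⟩ := ZMod.castHom_surjective h t
  exact congrFun hcd s

/-- A function on the cover invariant under the shift comes from below. -/
theorem exists_pull [NeZero M] [NeZero N] {β : Type*} (h : N ∣ M) (f : ZMod M → β)
    (hf : ∀ t, f (t + (N : ZMod M)) = f t) :
    ∃ g : ZMod N → β, ∀ t, f t = g (ZMod.castHom h (ZMod N) t) := by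
  have h1 : ∀ (i : ℕ) (t : ZMod M), f (t + (i * N : ℕ)) = f t := by
    intro i t
    induction i with
    | zero => simp
    | succ i ih =>
      rw [← ih, ← hf (t + (i * N : ℕ))]
      congr 1
      push_cast
      ring
  refine ⟨fun s => f ((s.val : ℕ) : ZMod M), fun t => ?_⟩
  have h2 : ZMod.castHom h (ZMod N) t = ((t.val : ℕ) : ZMod N) := by
    conv_lhs => rw [← ZMod.natCast_zmod_val t]
    rw [map_natCast]
  simp only
  rw [h2, ZMod.val_natCast]
  have h3 : (t : ZMod M) = ((t.val % N : ℕ) : ZMod M) + ((t.val / N) * N : ℕ) := by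
    rw [← Nat.cast_add, Nat.mod_add_div']
    exact (ZMod.natCast_zmod_val t).symm
  conv_lhs => rw [h3]
  exact h1 _ _

theorem shift_eq_iff [NeZero M] [NeZero N] (h : N ∣ M) (c : ZMod M → Join) :
    shift N M c = c ↔ ∃ d, pullC h d = c := by
  constructor
  · intro hc
    obtain ⟨d, hd⟩ := exists_pull h c (fun t => congrFun hc t)
    exact ⟨d, funext fun t => (hd t).symm⟩
  · rintro ⟨d, rfl⟩
    funext t
    show d _ = d _
    have := castHom_add h t 1
    rw [one_mul] at this
    rw [this]

/-- The state sum of a closed word. -/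
noncomputable def stateSum [NeZero N] {R : Type*} [CommRing R] (w : ZMod N → Letter n)
    (wt : Kind → Join → R) (δ : R) : R :=
  ∑ c : ZMod N → Join, (∏ t, wt (w t).kind (c t)) * δ ^ curves w c

theorem curves_shift (h : N ∣ M) (w : ZMod N → Letter n) (c : ZMod M → Join) :
    curves (pullW h w) (shift N M c) = curves (pullW h w) c := by
  unfold curves
  have h1 := fun t : ZMod M => castHom_add h t 1
  simp only [one_mul] at h1
  refine Nat.card_congr (Quot.congr ((Equiv.addRight (N : ZMod M)).prodCongr (Equiv.refl _)) ?_)
  intro x y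
  constructor
  · rintro ⟨t, e, rfl, rfl⟩
    refine ⟨t + (N : ZMod M), e, ?_, ?_⟩
    · obtain ⟨b, j⟩ := e
      cases b
      · rfl
      · refine Prod.ext ?_ rfl
        show t + 1 + (N : ZMod M) = t + (N : ZMod M) + 1
        ring
    · have h2 : partner (pullW h w (t + (N : ZMod M))).place (c (t + (N : ZMod M))) e =
          partner (pullW h w t).place (shift N M c t) e := by
        unfold pullW
        rw [h1]
        rfl
      rw [h2]
      obtain ⟨b, j⟩ := partner (pullW h w t).place (shift N M c t) e
      cases b
      · rfl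
      · refine Prod.ext ?_ rfl
        show t + 1 + (N : ZMod M) = t + (N : ZMod M) + 1
        ring
  · rintro ⟨t, e, hx, hy⟩
    refine ⟨t - (N : ZMod M), e, ?_, ?_⟩
    · have h3 : x = (((Equiv.addRight (N : ZMod M)).prodCongr (Equiv.refl _)).symm) (point t e) := by
        rw [← hx]; exact (Equiv.symm_apply_apply _ _).symm
      rw [h3]
      obtain ⟨b, j⟩ := e
      cases b
      · refine Prod.ext ?_ rfl
        show t + -(N : ZMod M) = t - (N : ZMod M)
        ring
      · refine Prod.ext ?_ rfl
        show t + 1 + -(N : ZMod M) = t - (N : ZMod M) + 1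
        ring
    · have h2 : partner (pullW h w t).place (c t) e =
          partner (pullW h w (t - (N : ZMod M))).place (shift N M c (t - (N : ZMod M))) e := by
        have h4 := h1 (t - (N : ZMod M))
        rw [sub_add_cancel] at h4
        have h5 : shift N M c (t - (N : ZMod M)) = c t := by
          show c (t - N + N) = c t
          rw [sub_add_cancel]
        unfold pullW
        rw [h5, h4]
      have h3 : y = (((Equiv.addRight (N : ZMod M)).prodCongr (Equiv.refl _)).symm)
          (point t (partner (pullW h w t).place (c t) e)) := by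
        rw [← hy]; exact (Equiv.symm_apply_apply _ _).symm
      rw [h3, h2]
      obtain ⟨b, j⟩ := partner (pullW h w (t - (N : ZMod M))).place
        (shift N M c (t - (N : ZMod M))) e
      cases b
      · refine Prod.ext ?_ rfl
        show t + -(N : ZMod M) = t - (N : ZMod M)
        ring
      · refine Prod.ext ?_ rfl
        show t + 1 + -(N : ZMod M) = t - (N : ZMod M) + 1
        ring

/-- The state sum of a periodic diagram, in characteristic `p`, is a sum over the states of the
quotient diagram. -/
theorem stateSum_pull [NeZero N] [NeZero M] {R : Type*} [CommRing R] {p k : ℕ} [Fact p.Prime]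
    [CharP R p] (h : N ∣ M) (hM : M = p ^ k * N) (w : ZMod N → Letter n) (wt : Kind → Join → R)
    (hwt : ∀ a, wt a .swap = 0) (δ : R) :
    stateSum (pullW h w) wt δ = ∑ c : ZMod N → Join with ∀ t, c t ≠ .swap,
      (∏ t, wt (w t).kind (c t)) ^ (p ^ k) * (δ ^ (p ^ k)) ^ ines w c * δ ^ ess w c := by
  classical
  unfold stateSum
  have hinv : ∀ c : ZMod M → Join,
      (∏ t, wt (pullW h w t).kind (shift N M c t)) * δ ^ curves (pullW h w) (shift N M c) =
      (∏ t, wt (pullW h w t).kind (c t)) * δ ^ curves (pullW h w) c := by
    intro c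
    rw [curves_shift]
    congr 1
    refine Fintype.prod_equiv (Equiv.addRight (N : ZMod M)) _ _ fun t => ?_
    have h1 := castHom_add h t 1
    simp only [one_mul] at h1
    show wt (w _).kind (c (t + N)) = wt (w (ZMod.castHom h (ZMod N) (t + N))).kind (c (t + N))
    rw [h1]
  have hpow : (shift N M) ^ (p ^ k) = 1 := by
    ext c t
    rw [shift_pow, ← hM]
    simp
  rw [sum_fixed (shift N M) hpow _ hinv]
  have himg : (Finset.univ.filter fun c => shift N M c = c) =
      (Finset.univ : Finset (ZMod N → Join)).image (pullC h) := by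
    ext c
    simp only [Finset.mem_filter, Finset.mem_univ, true_and, Finset.mem_image]
    exact shift_eq_iff h c
  rw [himg, Finset.sum_image (fun c _ d _ hcd => pullC_inj h hcd)]
  rw [Finset.sum_filter]
  refine Finset.sum_congr rfl fun c _ => ?_
  have hprod : ∏ t, wt (pullW h w t).kind (pullC h c t) = (∏ t, wt (w t).kind (c t)) ^ (p ^ k) :=
    prod_pull h hM (fun t => wt (w t).kind (c t))
  rw [hprod]
  split_ifs with hc
  · rw [curves_pull h hM hc, pow_add, pow_mul, mul_assoc]
  · push Not at hc
    obtain ⟨t, ht⟩ := hc
    have : ∏ t, wt (w t).kind (c t) = 0 :=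
      Finset.prod_eq_zero (Finset.mem_univ t) (by rw [ht, hwt])
    rw [this, zero_pow (pow_ne_zero _ (Fact.out (p := p.Prime)).ne_zero), zero_mul]

end Pool.Agent.Helper1.PK
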