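import Pool.Agent.Helper1.PK.Defs
import Pool.Agent.Helper1.PK.Orbits

/-!
# Going along the curves
-/

namespace Pool.Agent.Helper1.PK

open Equiv Equiv.Perm Function

variable {N n : ℕ}

/-- The joins `c` can be oriented by the signs `o`. -/
def Compat (w : ZMod N → Letter n) (c : ZMod N → Join) (o : Pt N n → ℤˣ) : Prop :=
  ∀ t e, flow o t (partner (w t).place (c t) e) = -flow o t e

theorem unit_cases (u : ℤˣ) : u = 1 ∨ u = -1 := Int.units_eq_one_or u

theorem partner_partner (a : Fin n) (c : Join) (e : End n) : partner a c (partner a c e) = e := by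
  obtain ⟨b, j⟩ := e
  cases c
  · simp [partner]
  · simp [partner]
  · by_cases h : j = a.castSucc ∨ j = a.succ
    · have h' : Equiv.swap a.castSucc a.succ j = a.castSucc ∨
          Equiv.swap a.castSucc a.succ j = a.succ := by
        rcases h with rfl | rfl
        · right; simp
        · left; simp
      simp only [partner, h, if_true]
      rw [if_pos h']
      simp
    · simp [partner, h]

/-- Half-edges: an end in a slab. -/
abbrev Half (N n : ℕ) : Type := ZMod N × End n

/-- The point of a half-edge. -/
def pt (h : Half N n) : Pt N n := point h.1 h.2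

/-- The other half of the arc. -/
def adj (w : ZMod N → Letter n) (c : ZMod N → Join) (h : Half N n) : Half N n :=
  (h.1, partner (w h.1).place (c h.1) h.2)

theorem adj_adj (w : ZMod N → Letter n) (c : ZMod N → Join) (h : Half N n) :
    adj w c (adj w c h) = h := by
  simp [adj, partner_partner]

/-- The flow at a half-edge. -/
def fl (o : Pt N n → ℤˣ) (h : Half N n) : ℤˣ := flow o h.1 h.2

/-- The half-edge through which the strand leaves the point forward. -/
def fwd (o : Pt N n → ℤˣ) (x : Pt N n) : Half N n :=
  if o x = 1 then (x.1, (false, x.2)) else (x.1 - 1, (true, x.2))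

/-- The half-edge through which the strand comes to the point. -/
def bwd (o : Pt N n → ℤˣ) (x : Pt N n) : Half N n :=
  if o x = 1 then (x.1 - 1, (true, x.2)) else (x.1, (false, x.2))

theorem pt_fwd (o : Pt N n → ℤˣ) (x : Pt N n) : pt (fwd o x) = x := by
  obtain ⟨t, j⟩ := x
  rcases unit_cases (o (t, j)) with h | h
  · simp [fwd, h, pt, point]
  · simp [fwd, h, pt, point]

theorem pt_bwd (o : Pt N n → ℤˣ) (x : Pt N n) : pt (bwd o x) = x := by
  obtain ⟨t, j⟩ := x
  rcases unit_cases (o (t, j)) with h | h
  · simp [bwd, h, pt, point]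
  · simp [bwd, h, pt, point]

theorem fl_fwd (o : Pt N n → ℤˣ) (x : Pt N n) : fl o (fwd o x) = 1 := by
  obtain ⟨t, j⟩ := x
  rcases unit_cases (o (t, j)) with h | h
  · simp [fwd, h, fl, flow, point]
  · simp [fwd, h, fl, flow, point]

theorem fl_bwd (o : Pt N n → ℤˣ) (x : Pt N n) : fl o (bwd o x) = -1 := by
  obtain ⟨t, j⟩ := x
  rcases unit_cases (o (t, j)) with h | h
  · simp [bwd, h, fl, flow, point]
  · simp [bwd, h, fl, flow, point]

theorem fwd_pt {o : Pt N n → ℤˣ} {h : Half N n} (hf : fl o h = 1) : fwd o (pt h) = h := by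
  obtain ⟨t, b, j⟩ := h
  cases b
  · simp only [fl, flow, point] at hf
    simp [fwd, pt, point]
    simpa using hf
  · simp only [fl, flow, point] at hf
    have : o (t + 1, j) = -1 := by simpa using (neg_eq_iff_eq_neg.mp hf)
    simp [fwd, pt, point, this]

theorem bwd_pt {o : Pt N n → ℤˣ} {h : Half N n} (hf : fl o h = -1) : bwd o (pt h) = h := by
  obtain ⟨t, b, j⟩ := h
  cases b
  · simp only [fl, flow, point] at hf
    have : o (t, j) = -1 := by simpa using hf
    simp [bwd, pt, point, this]
  · simp only [fl, flow, point] at hf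
    have : o (t + 1, j) = 1 := by simpa using hf
    simp [bwd, pt, point, this]

theorem fl_adj {w : ZMod N → Letter n} {c : ZMod N → Join} {o : Pt N n → ℤˣ} (hc : Compat w c o)
    (h : Half N n) : fl o (adj w c h) = -fl o h := hc h.1 h.2

/-- The permutation going one arc forward. -/
def tau {w : ZMod N → Letter n} {c : ZMod N → Join} {o : Pt N n → ℤˣ} (hc : Compat w c o) :
    Perm (Pt N n) where
  toFun x := pt (adj w c (fwd o x))
  invFun x := pt (adj w c (bwd o x))
  left_inv x := by
    have h1 : fl o (adj w c (fwd o x)) = -1 := by rw [fl_adj hc, fl_fwd]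
    simp only [bwd_pt h1, adj_adj, pt_fwd]
  right_inv x := by
    have h1 : fl o (adj w c (bwd o x)) = 1 := by rw [fl_adj hc, fl_bwd]; simp
    simp only [fwd_pt h1, adj_adj, pt_bwd]

variable {w : ZMod N → Letter n} {c : ZMod N → Join} {o : Pt N n → ℤˣ}

theorem tau_apply (hc : Compat w c o) (x : Pt N n) : tau hc x = pt (adj w c (fwd o x)) := rfl

theorem joined_iff (hc : Compat w c o) (x y : Pt N n) :
    Joined w c x y ↔ tau hc x = y ∨ tau hc y = x := by
  constructor
  · rintro ⟨t, e, rfl, rfl⟩
    rcases unit_cases (fl o (t, e)) with h | h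
    · left
      have := fwd_pt h
      show pt (adj w c (fwd o (pt (t, e)))) = _
      rw [this]
      rfl
    · right
      have h1 : fl o (adj w c (t, e)) = 1 := by rw [fl_adj hc, h]; simp
      have := fwd_pt h1
      show pt (adj w c (fwd o (pt (adj w c (t, e))))) = _
      rw [this, adj_adj]
      rfl
  · rintro (rfl | rfl)
    · exact ⟨(fwd o x).1, (fwd o x).2, (pt_fwd o x).symm, rfl⟩
    · refine ⟨(adj w c (fwd o y)).1, (adj w c (fwd o y)).2, rfl, ?_⟩
      have := adj_adj w c (fwd o y)
      show y = pt (adj w c (adj w c (fwd o y)))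
      rw [this, pt_fwd]

theorem cls_iff (hc : Compat w c o) (x y : Pt N n) :
    Quot.mk (Joined w c) x = Quot.mk (Joined w c) y ↔ (tau hc).SameCycle x y := by
  constructor
  · intro h
    have h' := Quot.eqvGen_exact h
    clear h
    induction h' with
    | rel x y h =>
      rcases (joined_iff hc x y).mp h with h | h
      · rw [← h]
        exact sameCycle_apply_right.mpr (SameCycle.refl _ _)
      · rw [← h]
        exact sameCycle_apply_left.mpr (SameCycle.refl _ _)
    | refl x => exact SameCycle.refl _ _
    | symm x y _ ih => exact ih.symm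
    | trans x y z _ _ ih1 ih2 => exact ih1.trans ih2
  · rintro ⟨i, rfl⟩
    have key : ∀ x, Quot.mk (Joined w c) (tau hc x) = Quot.mk (Joined w c) x := fun x =>
      (Quot.sound ((joined_iff hc x _).mpr (Or.inl rfl))).symm
    induction i using Int.induction_on generalizing x with
    | zero => rfl
    | succ i ih =>
      rw [zpow_add, zpow_one, Perm.mul_apply, ← ih, key]
    | pred i ih =>
      rw [zpow_sub, zpow_one, Perm.mul_apply, ← ih]
      rw [← key ((tau hc)⁻¹ x)]
      exact congrArg _ ((tau hc).apply_symm_apply x).symm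

theorem cls_surj : Surjective (Quot.mk (Joined w c)) := fun q => Quot.exists_rep q

theorem curves_eq (hc : Compat w c o) : curves w c = cyc (tau hc) :=
  card_eq_cyc cls_surj (cls_iff hc)

theorem sign_tau [NeZero N] (hc : Compat w c o) :
    sign (tau hc) = (-1) ^ (Fintype.card (Pt N n) + curves w c) := by
  rw [sign_eq_cyc, curves_eq hc]

end Pool.Agent.Helper1.PK
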