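import Pool.Agent.Helper1.PK.Alt

/-!
# The winding numbers of the curves of a state
-/

namespace Pool.Agent.Helper1.PK

open Equiv Equiv.Perm Function

variable {N n : ℕ}

/-- The curve of a point. -/
def cls (w : ZMod N → Letter n) (c : ZMod N → Join) (x : Pt N n) : Quot (Joined w c) :=
  Quot.mk _ x

open Classical in
/-- The contribution of a point to the winding number of the curve `q`. -/
noncomputable def tm {w : ZMod N → Letter n} {c : ZMod N → Join} (q : Quot (Joined w c))
    (t : ZMod N) (j : Fin (n + 1)) : ℤ :=
  if cls w c (t, j) = q then (-1) ^ (j : ℕ) else 0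

/-- The number of signed strands of `q` before gap `g`, at level `t`. -/
noncomputable def part {w : ZMod N → Letter n} {c : ZMod N → Join} (q : Quot (Joined w c))
    (t : ZMod N) (g : ℕ) : ℤ := ∑ j : Fin (n + 1), if (j : ℕ) < g then tm q t j else 0

/-- The winding number of a curve. -/
noncomputable def wind {w : ZMod N → Letter n} {c : ZMod N → Join} (q : Quot (Joined w c)) : ℤ :=
  ∑ j, tm q 0 j

variable {w : ZMod N → Letter n} {c : ZMod N → Join}

theorem part_full (q : Quot (Joined w c)) (t : ZMod N) : part q t (n + 1) = ∑ j, tm q t j := by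
  unfold part
  refine Finset.sum_congr rfl fun j _ => ?_
  rw [if_pos j.2]

theorem part_zero (q : Quot (Joined w c)) (t : ZMod N) : part q t 0 = 0 := by
  simp [part]

theorem part_gap (q : Quot (Joined w c)) (t : ZMod N) (j : Fin (n + 1)) :
    part q t ((j : ℕ) + 1) = part q t j + tm q t j := by
  unfold part
  have : tm q t j = ∑ i : Fin (n + 1), if i = j then tm q t i else 0 := by simp
  rw [this, ← Finset.sum_add_distrib]
  refine Finset.sum_congr rfl fun i _ => ?_
  by_cases h1 : (i : ℕ) < j
  · have h2 : i ≠ j := by
      rintro rfl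
      exact lt_irrefl _ h1
    rw [if_pos (Nat.lt_succ_of_lt h1), if_pos h1, if_neg h2, add_zero]
  · by_cases h2 : i = j
    · subst h2
      simp
    · have h3 : ¬ (i : ℕ) < j + 1 := by
        intro h
        apply h2
        apply Fin.ext
        omega
      rw [if_neg h3, if_neg h1, if_neg h2, add_zero]

theorem cls_up {t : ZMod N} {j : Fin (n + 1)}
    (h : c t = .straight ∨ (c t = .turn ∧ ¬ At (w t).place j)) :
    cls w c (t + 1, j) = cls w c (t, j) := by
  symm
  apply Quot.sound
  refine ⟨t, (false, j), by simp [point], ?_⟩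
  rcases h with h | ⟨h, h'⟩
  · simp [h, partner, point]
  · rw [partner_not_at h']
    simp [point]

theorem cls_low {t : ZMod N} (h : c t = .turn) :
    cls w c (t, (w t).place.castSucc) = cls w c (t, (w t).place.succ) := by
  apply Quot.sound
  exact ⟨t, (false, (w t).place.castSucc), by simp [point], by simp [h, partner, point]⟩

theorem cls_high {t : ZMod N} (h : c t = .turn) :
    cls w c (t + 1, (w t).place.castSucc) = cls w c (t + 1, (w t).place.succ) := by
  apply Quot.sound
  exact ⟨t, (true, (w t).place.castSucc), by simp [point], by simp [h, partner, point]⟩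

theorem sum_at (a : Fin n) (F : Fin (n + 1) → ℤ) :
    ∑ j, F j = F a.castSucc + F a.succ + ∑ j with ¬ At a j, F j := by
  rw [← Finset.sum_filter_add_sum_filter_not Finset.univ (fun j => At a j)]
  congr 1
  have : (Finset.univ.filter fun j => At a j) = {a.castSucc, a.succ} := by
    ext j
    simp [At]
  rw [this, Finset.sum_pair (castSucc_ne_succ a)]

theorem pair_zero {q : Quot (Joined w c)} {t : ZMod N} {a : Fin n}
    (h : cls w c (t, a.castSucc) = cls w c (t, a.succ)) : tm q t a.castSucc + tm q t a.succ = 0 := by
  unfold tm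
  rw [h]
  split_ifs
  · simp [pow_succ]
  · simp

theorem part_pair_zero {q : Quot (Joined w c)} {t : ZMod N} {a : Fin n} {g : ℕ}
    (hg : g ≠ (a : ℕ) + 1)
    (h : cls w c (t, a.castSucc) = cls w c (t, a.succ)) :
    ((if (a.castSucc : ℕ) < g then tm q t a.castSucc else 0) +
      if (a.succ : ℕ) < g then tm q t a.succ else 0) = 0 := by
  have h1 : (a.castSucc : ℕ) = a := rfl
  have h2 : (a.succ : ℕ) = a + 1 := rfl
  by_cases h3 : (a : ℕ) + 1 < g
  · rw [if_pos (by omega), if_pos (by omega)]
    exact pair_zero h
  · rw [if_neg (by omega), if_neg (by omega)]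
    rfl

theorem part_level (q : Quot (Joined w c)) {t : ZMod N} {g : ℕ} (hc : c t ≠ .swap)
    (hg : c t = .turn → g ≠ ((w t).place : ℕ) + 1) : part q (t + 1) g = part q t g := by
  unfold part
  cases h : c t
  · refine Finset.sum_congr rfl fun j _ => ?_
    unfold tm
    rw [cls_up (Or.inl h)]
  · exact absurd h hc
  · rw [sum_at (w t).place, sum_at (w t).place]
    rw [part_pair_zero (hg h) (cls_high h), part_pair_zero (hg h) (cls_low h)]
    congr 1
    refine Finset.sum_congr rfl fun j hj => ?_
    have hj' := (Finset.mem_filter.mp hj).2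
    unfold tm
    rw [cls_up (Or.inr ⟨h, hj'⟩)]

theorem wind_level [NeZero N] (hc : ∀ t, c t ≠ .swap) (q : Quot (Joined w c)) (t : ZMod N) :
    ∑ j, tm q t j = wind q := by
  have key : ∀ k : ℕ, ∑ j, tm q (k : ZMod N) j = wind q := by
    intro k
    induction k with
    | zero => simp [wind]
    | succ k ih =>
      rw [← ih, ← part_full, ← part_full, Nat.cast_succ, part_level q (hc _)]
      intro _ h
      have := (w (k : ZMod N)).place.2
      omega
  have := key t.val
  rwa [ZMod.natCast_zmod_val] at this

/-- The numbering of the region to the left of the curve at a point. -/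
noncomputable def nu (w : ZMod N → Letter n) (c : ZMod N → Join) (x : Pt N n) : ℤ :=
  if Even (x.2 : ℕ) then part (cls w c x) x.1 x.2 else part (cls w c x) x.1 (x.2 + 1)

theorem nu_up (hc : ∀ t, c t ≠ .swap) {t : ZMod N} {j : Fin (n + 1)}
    (h : c t = .straight ∨ (c t = .turn ∧ ¬ At (w t).place j)) :
    nu w c (t + 1, j) = nu w c (t, j) := by
  unfold nu
  simp only
  rw [cls_up h]
  have hj : c t = .turn → (j : ℕ) ≠ (w t).place ∧ (j : ℕ) ≠ (w t).place + 1 := by
    intro ht
    rcases h with h | ⟨_, h⟩
    · rw [h] at ht
      cases ht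
    · unfold At at h
      push Not at h
      constructor
      · intro hh
        exact h.1 (Fin.ext hh)
      · intro hh
        exact h.2 (Fin.ext hh)
  split_ifs
  · exact part_level _ (hc t) fun ht => (hj ht).2
  · refine part_level _ (hc t) fun ht => ?_
    have := (hj ht).1
    omega

theorem nu_pair {t : ZMod N} {a : Fin n}
    (h : cls w c (t, a.castSucc) = cls w c (t, a.succ)) :
    nu w c (t, a.castSucc) = nu w c (t, a.succ) := by
  unfold nu
  simp only [Fin.val_castSucc, Fin.val_succ]
  rw [h]
  by_cases ha : Even (a : ℕ)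
  · have ha' : ¬ Even ((a : ℕ) + 1) := by
      rw [Nat.even_add_one]
      exact fun h => h ha
    rw [if_pos ha, if_neg ha']
    have h1 := part_gap (cls w c (t, a.succ)) t a.castSucc
    have h2 := part_gap (cls w c (t, a.succ)) t a.succ
    have h3 := pair_zero (q := cls w c (t, a.succ)) h
    simp only [Fin.val_castSucc, Fin.val_succ] at h1 h2
    rw [h2, h1, add_assoc, h3, add_zero]
  · have ha' : Even ((a : ℕ) + 1) := by
      rw [Nat.even_add_one]
      exact ha
    rw [if_neg ha, if_pos ha']

theorem nu_joined (hc : ∀ t, c t ≠ .swap) {x y : Pt N n} (h : Joined w c x y) :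
    nu w c x = nu w c y := by
  obtain ⟨t, ⟨b, j⟩, rfl, rfl⟩ := h
  cases hct : c t
  · cases b
    · simp only [partner, point, hct]
      simpa using (nu_up hc (Or.inl hct)).symm
    · simp only [partner, point, hct]
      simpa using nu_up hc (Or.inl hct)
  · exact absurd hct (hc t)
  · by_cases hj : At (w t).place j
    · rcases hj with rfl | rfl
      · cases b
        · simp only [partner, point, true_or, if_true]
          simpa using nu_pair (cls_low hct)
        · simp only [partner, point, true_or, if_true]
          simpa using nu_pair (cls_high hct)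
      · cases b
        · simp only [partner, point, or_true, if_true]
          simpa using (nu_pair (cls_low hct)).symm
        · simp only [partner, point, or_true, if_true]
          simpa using (nu_pair (cls_high hct)).symm
    · rw [partner_not_at (e := (b, j)) hj]
      cases b
      · simpa [point] using (nu_up hc (Or.inr ⟨hct, hj⟩)).symm
      · simpa [point] using nu_up hc (Or.inr ⟨hct, hj⟩)

theorem part_mem {q : Quot (Joined w c)} {t : ZMod N} {j : Fin (n + 1)} (h : cls w c (t, j) = q) :
    (part q t j = nu w c (t, j) ∨ part q t j = nu w c (t, j) + 1) ∧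
    (part q t ((j : ℕ) + 1) = nu w c (t, j) ∨ part q t ((j : ℕ) + 1) = nu w c (t, j) + 1) := by
  have h1 := part_gap q t j
  have h2 : tm q t j = (-1) ^ (j : ℕ) := by
    unfold tm
    rw [if_pos h]
  unfold nu
  simp only
  rw [h]
  by_cases hj : Even (j : ℕ)
  · rw [if_pos hj]
    rw [hj.neg_one_pow] at h2
    refine ⟨Or.inl rfl, Or.inr ?_⟩
    rw [h1, h2]
  · rw [if_neg hj]
    have hj' : Odd (j : ℕ) := Nat.not_even_iff_odd.mp hj
    rw [hj'.neg_one_pow] at h2
    refine ⟨Or.inr ?_, Or.inl rfl⟩
    rw [h1, h2]
    ring

theorem wind_bound [NeZero N] (hc : ∀ t, c t ≠ .swap) (q : Quot (Joined w c)) :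
    wind q = 0 ∨ wind q = 1 ∨ wind q = -1 := by
  obtain ⟨x, hx⟩ := Quot.exists_rep q
  set v := nu w c x with hv
  have hnu : ∀ j, cls w c (0, j) = q → nu w c (0, j) = v := by
    intro j hj
    have h1 : cls w c (0, j) = cls w c x := by rw [hj, ← hx]; rfl
    have h2 : ∀ p : Quot (Joined w c), ∀ y z, Quot.mk _ y = p → Quot.mk _ z = p →
        nu w c y = nu w c z := by
      intro p y z hy hz
      have h3 : Quot.mk (Joined w c) y = Quot.mk (Joined w c) z := by rw [hy, hz]
      have := congrArg (Quot.lift (nu w c) fun a b hab => nu_joined hc hab) h3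
      exact this
    exact h2 q _ _ hj hx
  have key : ∀ g : ℕ, g ≤ n + 1 → part q 0 g = 0 ∨
      ((part q 0 g = v ∨ part q 0 g = v + 1) ∧ (v = 0 ∨ v = -1)) := by
    intro g
    induction g with
    | zero =>
      intro _
      exact Or.inl (part_zero q 0)
    | succ g ih =>
      intro hg
      have ih' := ih (by omega)
      have hgap := part_gap q 0 ⟨g, by omega⟩
      simp only at hgap
      by_cases hcl : cls w c (0, ⟨g, by omega⟩) = q
      · have hm := part_mem hcl
        rw [hnu _ hcl] at hm
        simp only at hm
        right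
        refine ⟨hm.2, ?_⟩
        rcases ih' with h0 | h0
        · rcases hm.1 with h1 | h1
          · left
            rw [← h1, h0]
          · right
            rw [h0] at h1
            omega
        · exact h0.2
      · have : tm q 0 ⟨g, by omega⟩ = 0 := by
          unfold tm
          rw [if_neg hcl]
        rw [this, add_zero] at hgap
        rw [hgap]
        exact ih'
  have h1 := key (n + 1) le_rfl
  rw [part_full] at h1
  have h2 : (∑ j, tm q 0 j) = wind q := rfl
  rw [h2] at h1
  omega

noncomputable instance [NeZero N] : Fintype (Quot (Joined w c)) := by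
  classical
  exact Fintype.ofFinite _

theorem sum_tm [NeZero N] (t : ZMod N) (j : Fin (n + 1)) :
    ∑ q : Quot (Joined w c), tm q t j = (-1) ^ (j : ℕ) := by
  classical
  unfold tm
  simp

theorem sum_wind [NeZero N] : ∑ q : Quot (Joined w c), wind q = ∑ j : Fin (n + 1), (-1) ^ (j : ℕ) := by
  unfold wind
  rw [Finset.sum_comm]
  exact Finset.sum_congr rfl fun j _ => sum_tm 0 j

/-- The number of essential curves. -/
noncomputable def ess [NeZero N] (w : ZMod N → Letter n) (c : ZMod N → Join) : ℕ := by
  classical
  exact (Finset.univ.filter fun q : Quot (Joined w c) => wind q ≠ 0).card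

/-- The number of inessential curves. -/
noncomputable def ines [NeZero N] (w : ZMod N → Letter n) (c : ZMod N → Join) : ℕ := by
  classical
  exact (Finset.univ.filter fun q : Quot (Joined w c) => wind q = 0).card

theorem ines_add_ess [NeZero N] : ines w c + ess w c = curves w c := by
  classical
  unfold ines ess curves
  rw [Nat.card_eq_fintype_card]
  exact Finset.card_filter_add_card_filter_not _

theorem ess_parity [NeZero N] (hc : ∀ t, c t ≠ .swap) : ess w c % 2 = (n + 1) % 2 := by
  classical
  have h1 : ((ess w c : ℕ) : ZMod 2) = ((n + 1 : ℕ) : ZMod 2) := by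
    have h2 : ((ess w c : ℕ) : ZMod 2) = ∑ q : Quot (Joined w c), ((wind q : ℤ) : ZMod 2) := by
      unfold ess
      rw [Finset.card_filter, Nat.cast_sum]
      refine Finset.sum_congr rfl fun q _ => ?_
      rcases wind_bound hc q with h | h | h <;> rw [h] <;> simp
    rw [h2, ← Int.cast_sum, sum_wind, Int.cast_sum]
    have h3 : ∀ j : Fin (n + 1), (((-1) ^ (j : ℕ) : ℤ) : ZMod 2) = 1 := by
      intro j
      have : (-1 : ZMod 2) = 1 := by decide
      simp [this]
    rw [Finset.sum_congr rfl fun j _ => h3 j]
    simp
  exact (ZMod.natCast_eq_natCast_iff' _ _ 2).mp h1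

end Pool.Agent.Helper1.PK
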